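import Mathlib
import Pool.Agent.H70.QL.AuxP

/-!
Growth estimates, for analytic data which may grow polynomially.
-/

set_option autoImplicit false

namespace Pool.Agent.H70.QM

open Finset Matrix Pool.Agent.H301R2.TR Pool.Agent.Y928.QN Pool.Agent.H70.QL

theorem good_CCe (u r w k e t c : ℕ) (C2 : ℝ) (hC2 : 1 ≤ C2) (hke : k + e ≤ u) (ht : t ≤ u) :
    Good u (fun n => CCg r w (n ^ k + c * n ^ t) (C2 * (c * (n : ℝ) ^ (k + e)))) := by
  have hE : Good u (fun n : ℕ => E1 (n ^ k + c * n ^ t) (C2 * (c * (n : ℝ) ^ (k + e)))) := by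
    unfold E1
    apply Good.mul
    · refine Good.factorial (fun n => n ^ k + c * n ^ t) (1 + c) ?_ ?_
      · intro n hn
        have : 1 ≤ n ^ k := Nat.one_le_pow _ _ hn
        omega
      · intro n hn
        have hn1 : (1 : ℝ) ≤ n := by exact_mod_cast hn
        have a1 : (n : ℝ) ^ k ≤ (n : ℝ) ^ u := pow_le_pow_right₀ hn1 (by omega)
        have a2 : (n : ℝ) ^ t ≤ (n : ℝ) ^ u := pow_le_pow_right₀ hn1 ht
        have a3 : (c : ℝ) * (n : ℝ) ^ t ≤ c * (n : ℝ) ^ u :=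
          mul_le_mul_of_nonneg_left a2 (Nat.cast_nonneg _)
        push_cast
        linarith
    · refine Good.exp _ (6 * C2 * c) ?_ ?_
      · intro n _; positivity
      · intro n hn
        have hn1 : (1 : ℝ) ≤ n := by exact_mod_cast hn
        have a1 : (n : ℝ) ^ (k + e) ≤ (n : ℝ) ^ u := pow_le_pow_right₀ hn1 hke
        calc 6 * (C2 * (c * (n : ℝ) ^ (k + e))) = 6 * C2 * c * (n : ℝ) ^ (k + e) := by ring
          _ ≤ _ := mul_le_mul_of_nonneg_left a1 (by positivity)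
  have hrw : (1 : ℝ) ≤ ((r + w : ℕ) : ℝ) + 1 := by
    have : (0 : ℝ) ≤ ((r + w : ℕ) : ℝ) := Nat.cast_nonneg _
    linarith
  exact (Good.const (u := u) (((r + w : ℕ) : ℝ) + 1) hrw).mul
      (((Good.const (u := u) 2 (by norm_num)).mul hE).pow (r + w))

/-- powers of `exp (C n ^ e)` -/
theorem good_expPow (u e a : ℕ) (C c' : ℝ) (hC : 0 ≤ C) (hc' : 0 ≤ c') (hea : e + a ≤ u)
    (g : ℕ → ℕ) (hg : ∀ n : ℕ, 1 ≤ n → (g n : ℝ) ≤ c' * (n : ℝ) ^ a) :
    Good u (fun n : ℕ => Real.exp (C * (n : ℝ) ^ e) ^ (g n)) := by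
  have h1 : Good u (fun n : ℕ => Real.exp ((g n : ℝ) * (C * (n : ℝ) ^ e))) := by
    refine Good.exp _ (C * c') ?_ ?_
    · intro n _; positivity
    · intro n hn
      have hn1 : (1 : ℝ) ≤ n := by exact_mod_cast hn
      calc (g n : ℝ) * (C * (n : ℝ) ^ e) ≤ (c' * (n : ℝ) ^ a) * (C * (n : ℝ) ^ e) :=
            mul_le_mul_of_nonneg_right (hg n hn) (by positivity)
        _ = C * c' * (n : ℝ) ^ (e + a) := by rw [pow_add]; ring
        _ ≤ _ := mul_le_mul_of_nonneg_left (pow_le_pow_right₀ hn1 hea) (by positivity)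
  refine h1.mono (fun n _ => one_le_pow₀ (Real.one_le_exp (by positivity))) (fun n _ => ?_)
  rw [← Real.exp_nat_mul]

theorem growthE {w : ℕ} (b l r k μ σ t u c Dg e : ℕ) (hμk : μ + σ = k) (hke : k + e ≤ u)
    (hte : t + e ≤ u)
    (CR C2 : ℝ) (hCR : 0 ≤ CR) (hC2 : 1 ≤ C2) (hc : 1 ≤ c)
    (Kc : ℕ → Fin w → ℕ) (hKc : ∀ n i, Kc n i ≤ n ^ k) :
    ∃ n0 : ℕ, ∀ n ≥ n0, 1 ≤ n →
      ((2 * NNg (Kc n) b (n ^ μ) * CCg r w (n ^ k + c * n ^ t) (C2 * (c * (n : ℝ) ^ (k + e))) *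
        (NNg (Kc n) b (n ^ μ) * BBg w b l (n ^ k) (n ^ μ) (c * n ^ t) (c * n ^ σ)) ^ Dg) ^ 2) ^ 2 <
        2 ^ (n ^ (u + 1)) ∧
      (((1 + b * Real.exp (CR * (n : ℝ) ^ e) * ((n ^ μ : ℕ) : ℝ) + ((n ^ k : ℕ) : ℝ)) ^ (c * n ^ t) *
        (1 + l * Real.exp (CR * (n : ℝ) ^ e) * ((c * n ^ σ : ℕ) : ℝ)) ^ (n ^ k)) ^ w *
          (Real.exp (CR * (n : ℝ) ^ e) ^ (l * ((c * n ^ σ) * n ^ μ))) ^ b) *
        (1 + (w * (((c * n ^ t : ℕ) : ℝ) + ((n ^ k : ℕ) : ℝ)) +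
          b * (l * (((c * n ^ σ : ℕ) : ℝ) * ((n ^ μ : ℕ) : ℝ))))) ≤
        2 ^ (n ^ (u + 1)) := by
  have hk : k ≤ u := by omega
  have ht : t ≤ u := by omega
  have hN := good_NNg (w := w) u b k μ Kc hKc
  have hB : Good u (fun n => BBg w b l (n ^ k) (n ^ μ) (c * n ^ t) (c * n ^ σ)) := by
    have h1 := good_B1 u b k μ t c 1 (by norm_num) (by omega) ht
    have h2 := good_B2 u l k σ c 1 (by norm_num) hk
    have h3 := (h1.mul h2).pow w
    simp only [mul_one] at h3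
    exact h3
  have hC := good_CCe u r w k e t c C2 hC2 hke ht
  have h1 := ((((Good.const (u := u) 2 (by norm_num)).mul hN).mul hC).mul
    ((hN.mul hB).pow Dg)).pow 2
  obtain ⟨n1, hn1⟩ := h1.eventually_lt
  have hR1 : ∀ n : ℕ, 1 ≤ Real.exp (CR * (n : ℝ) ^ e) := fun n => Real.one_le_exp (by positivity)
  have hP1 : Good u (fun n : ℕ => (1 + b * Real.exp (CR * (n : ℝ) ^ e) * ((n ^ μ : ℕ) : ℝ) +
      ((n ^ k : ℕ) : ℝ)) ^ (c * n ^ t)) := by
    have g1 := (good_expPow u e t CR c hCR (Nat.cast_nonneg _) (by omega) (fun n => c * n ^ t)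
      (fun n _ => by push_cast; exact le_rfl)).mul (good_B1 u b k μ t c 1 (by norm_num) (by omega) ht)
    refine g1.mono (fun n _ => ?_) (fun n _ => ?_)
    · apply one_le_pow₀
      have : (0 : ℝ) ≤ b * Real.exp (CR * (n : ℝ) ^ e) * ((n ^ μ : ℕ) : ℝ) := by positivity
      have : (0 : ℝ) ≤ ((n ^ k : ℕ) : ℝ) := by positivity
      linarith
    · rw [← mul_pow]
      apply pow_le_pow_left₀ (by positivity)
      have a1 := hR1 n
      have a2 : (0 : ℝ) ≤ b * ((n ^ μ : ℕ) : ℝ) := by positivity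
      have a3 : (0 : ℝ) ≤ ((n ^ k : ℕ) : ℝ) := by positivity
      nlinarith
  have hP2 : Good u (fun n : ℕ => (1 + l * Real.exp (CR * (n : ℝ) ^ e) *
      ((c * n ^ σ : ℕ) : ℝ)) ^ (n ^ k)) := by
    have g1 := (good_expPow u e k CR 1 hCR zero_le_one (by omega) (fun n => n ^ k)
      (fun n _ => by push_cast; linarith)).mul (good_B2 u l k σ c 1 (by norm_num) hk)
    refine g1.mono (fun n _ => ?_) (fun n _ => ?_)
    · apply one_le_pow₀
      have : (0 : ℝ) ≤ l * Real.exp (CR * (n : ℝ) ^ e) * ((c * n ^ σ : ℕ) : ℝ) := by positivity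
      linarith
    · rw [← mul_pow]
      apply pow_le_pow_left₀ (by positivity)
      have a1 := hR1 n
      have a2 : (0 : ℝ) ≤ l * ((c * n ^ σ : ℕ) : ℝ) := by positivity
      nlinarith
  have hR3 : Good u (fun n : ℕ => (Real.exp (CR * (n : ℝ) ^ e) ^
      (l * ((c * n ^ σ) * n ^ μ))) ^ b) := by
    refine (good_expPow u e k CR (l * c) hCR (by positivity) (by omega)
      (fun n => l * ((c * n ^ σ) * n ^ μ)) ?_).pow b
    intro n hn
    have hn1 : (1 : ℝ) ≤ n := by exact_mod_cast hn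
    push_cast
    calc (l : ℝ) * (c * (n : ℝ) ^ σ * (n : ℝ) ^ μ) = l * c * (n : ℝ) ^ (σ + μ) := by
          rw [pow_add]; ring
      _ ≤ _ := mul_le_mul_of_nonneg_left (pow_le_pow_right₀ hn1 (by omega)) (by positivity)
  have hK : Good u (fun n : ℕ => 1 + (w * (((c * n ^ t : ℕ) : ℝ) + ((n ^ k : ℕ) : ℝ)) +
          b * (l * (((c * n ^ σ : ℕ) : ℝ) * ((n ^ μ : ℕ) : ℝ))))) := by
    have h1 : Good u (fun n : ℕ => (1 + (w * (c + 1) + b * (l * c)) : ℝ) * (n : ℝ) ^ u) :=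
      (Good.const (1 + (w * (c + 1) + b * (l * c)) : ℝ) (by
        have : (0 : ℝ) ≤ (w * (c + 1) + b * (l * c)) := by positivity
        linarith)).mul (Good.natPow _)
    refine h1.mono (fun n hn => ?_) (fun n hn => ?_)
    · have : (0 : ℝ) ≤ (w * (((c * n ^ t : ℕ) : ℝ) + ((n ^ k : ℕ) : ℝ)) +
          b * (l * (((c * n ^ σ : ℕ) : ℝ) * ((n ^ μ : ℕ) : ℝ)))) := by positivity
      linarith
    · have hn1 : (1 : ℝ) ≤ n := by exact_mod_cast hn
      have a1 : (n : ℝ) ^ k ≤ (n : ℝ) ^ u := pow_le_pow_right₀ hn1 hk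
      have a2 : (n : ℝ) ^ t ≤ (n : ℝ) ^ u := pow_le_pow_right₀ hn1 ht
      have a0 : (1 : ℝ) ≤ (n : ℝ) ^ u := one_le_pow₀ hn1
      have a4 : (n : ℝ) ^ σ * (n : ℝ) ^ μ ≤ (n : ℝ) ^ u := by
        rw [← pow_add]; exact pow_le_pow_right₀ hn1 (by omega)
      push_cast
      have b1 : (w : ℝ) * (c * (n : ℝ) ^ t + (n : ℝ) ^ k) ≤ w * (c * (n : ℝ) ^ u + (n : ℝ) ^ u) := by
        gcongr
      have b2 : (b : ℝ) * (l * (c * (n : ℝ) ^ σ * (n : ℝ) ^ μ)) ≤ b * (l * (c * (n : ℝ) ^ u)) := by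
        have : c * (n : ℝ) ^ σ * (n : ℝ) ^ μ = c * ((n : ℝ) ^ σ * (n : ℝ) ^ μ) := by ring
        rw [this]
        gcongr
      calc 1 + ((w : ℝ) * (c * (n : ℝ) ^ t + (n : ℝ) ^ k) +
            b * (l * (c * (n : ℝ) ^ σ * (n : ℝ) ^ μ)))
          ≤ (n : ℝ) ^ u + (w * (c * (n : ℝ) ^ u + (n : ℝ) ^ u) + b * (l * (c * (n : ℝ) ^ u))) := by
            linarith
        _ = _ := by ring
  have h2 := (((hP1.mul hP2).pow w).mul hR3).mul hK
  obtain ⟨n2, hn2⟩ := h2.eventually_lt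
  obtain ⟨C', hC', h2'⟩ := h2
  refine ⟨max n1 n2, fun n hn hn0 => ⟨?_, ?_⟩⟩
  · exact hn1 n ((le_max_left _ _).trans hn) hn0
  · have g1 := hn2 n ((le_max_right _ _).trans hn) hn0
    have g2 := (h2' n hn0).1
    refine le_trans ?_ g1.le
    have g3 := le_self_pow₀ g2 (n := 2) (by norm_num)
    exact g3

end Pool.Agent.H70.QM
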