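import Mathlib
import Pool.Agent.H70.QM.Grow
import Pool.Graph.R_pool_sql_team_seeded_1acbe0a2.Y928.QN.Upper

/-!
Existence of an auxiliary polynomial with many zeros at points which are only close to the points of
an analytic subgroup, uniformly in the points and in the subgroup.
-/

set_option autoImplicit false

namespace Pool.Agent.H70.QM

open Finset Matrix Pool.Agent.H301R2.TR Pool.Agent.Y928.QN Pool.Agent.H70.QL

theorem exists_aux_unif {w b l r : ℕ} (A : Finset (Fin w))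
    (k μ σ h g t u e c Dg : ℕ) (hμ : μ + σ = k) (hh : 1 ≤ h) (hg : 1 ≤ g) (hkh : k + h ≤ u + 1)
    (htg : t + g ≤ u + 1) (hke : k + e ≤ u) (hte : t + e ≤ u)
    (hcount : (u + 1) * (r + w) + 1 ≤ A.card * k + b * μ) (hc : 1 ≤ c) :
    ∃ η : ℝ, 0 < η ∧ ∃ n0 : ℕ, ∀ n ≥ n0, ∀ (γ0 : Fin w → Fin b → ℂ)
      (ω : Fin w → Fin l → ℂ) (x : Fin r → Fin b → ℂ) (y : Fin r → Fin l → ℂ) (X0 : ℝ),
      1 ≤ X0 → X0 ^ 2 ≤ (n : ℝ) ^ e → (∀ i j, ‖γ0 i j‖ ≤ X0) → (∀ i p, ‖ω i p‖ ≤ X0) →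
      (∀ ρ j, ‖x ρ j‖ ≤ X0) → (∀ ρ p, ‖y ρ p‖ ≤ X0) →
      ∀ (F : Type) [Field F] [NumberField F]
      (φ : F →ₐ[ℚ] ℂ), Module.finrank ℚ F ≤ Dg → ∀ (γ : Fin w → Fin b → F)
      (α : Fin w → Fin l → F) (χ : Fin b → Fin l → F) (d1 d : ℕ) (R1 R0 : ℝ),
      0 < d1 → 0 < d → 1 ≤ R1 → 1 ≤ R0 → (d1 : ℝ) * R1 ≤ Real.exp (η * (n : ℝ) ^ g) →
      (d : ℝ) * R0 ≤ Real.exp (η * (n : ℝ) ^ h) →
      (∀ i j, IntD d1 1 (γ i j)) → (∀ i p, IntD d 1 (α i p)) → (∀ j p, IntD d 1 (χ j p)) →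
      (∀ τ : F →ₐ[ℚ] ℂ, (∀ i j, ‖τ (γ i j)‖ ≤ R1) ∧ (∀ i p, ‖τ (α i p)‖ ≤ R0) ∧
        (∀ j p, ‖τ (χ j p)‖ ≤ R0)) →
      (∀ i j, ‖φ (γ i j) - γ0 i j‖ ≤ (1 / 4 : ℝ) ^ (n ^ (u + 1))) →
      (∀ i ∈ A, ∀ p, ‖φ (α i p) - ω i p‖ ≤ (1 / 4 : ℝ) ^ (n ^ (u + 1))) →
      (∀ j p, ‖φ (χ j p) - Complex.exp (∑ ρ, x ρ j * y ρ p + ∑ i, γ0 i j * ω i p)‖ ≤
        (1 / 4 : ℝ) ^ (n ^ (u + 1))) →
      ∃ p : JG (fun i => if i ∈ A then n ^ k else 0) b (n ^ μ) → ℂ, p ≠ 0 ∧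
      ∀ (t' : Fin w → ℕ) (s : Fin l → ℕ), (∀ i, t' i ≤ c * n ^ t) → (∀ q, s q ≤ c * n ^ σ) →
        ∑ j, p j * entG (fun i j => φ (γ i j)) (fun i q => φ (α i q)) (fun j q => φ (χ j q))
          (fun i => (j.1 i : ℕ)) (fun i => (j.2 i : ℕ)) t' s = 0 := by
  classical
  have hKcn : ∀ (n : ℕ) (i : Fin w), (if i ∈ A then n ^ k else 0) ≤ n ^ k := by
    intro n i; split_ifs <;> simp
  obtain ⟨n1, hn1⟩ := growthE b l r k μ σ t u c Dg e hμ hke hte ((r + w + 2 : ℝ))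
    ((1 + b) * (1 + l) : ℝ) (by positivity) (by
      have h1 : (0 : ℝ) ≤ b := Nat.cast_nonneg _
      have h2 : (0 : ℝ) ≤ l := Nat.cast_nonneg _
      nlinarith) hc (fun n i => if i ∈ A then n ^ k else 0) hKcn
  have hlog2 : 0 < Real.log 2 := Real.log_pos (by norm_num)
  set Z : ℝ := (w * c + (w + b * (l * c)) + 1 : ℝ) with hZ
  have hZ0 : 0 < Z := by rw [hZ]; positivity
  refine ⟨Real.log 2 / (4 * (Dg + 1) * Z), by positivity, max n1 2, ?_⟩
  intro n hn γ0 ω x y X0 hX1 hX2 hγ0 hω0 hx0 hy0 F _ _ φ hDg γ α χ d1 d R1 R0 hd1 hd hR1 hR0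
    hdR1 hdR0 dγ dα dχ hσ hγ hα hχ
  have hnn1 : n1 ≤ n := (le_max_left _ _).trans hn
  have hn2 : 2 ≤ n := (le_max_right _ _).trans hn
  have hnpos : 0 < n := by omega
  obtain ⟨g1, g2⟩ := hn1 n hnn1 (by omega)
  -- the true values
  set χ0 : Fin b → Fin l → ℂ := fun j p => Complex.exp (∑ ρ, x ρ j * y ρ p + ∑ i, γ0 i j * ω i p)
    with hχ0
  set RR : ℝ := Real.exp ((r + w + 2 : ℝ) * (n : ℝ) ^ e) with hRRdef
  have hne1 : (1 : ℝ) ≤ (n : ℝ) ^ e := one_le_pow₀ (by exact_mod_cast hnpos)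
  have hXe : X0 ≤ (n : ℝ) ^ e := by nlinarith
  have hRR : 1 ≤ RR := Real.one_le_exp (by positivity)
  have hRX : X0 + 1 ≤ RR := by
    have h1 := Real.add_one_le_exp ((r + w + 2 : ℝ) * (n : ℝ) ^ e)
    have h2 : (0 : ℝ) ≤ (r + w + 1 : ℝ) * (n : ℝ) ^ e := by positivity
    rw [hRRdef]
    nlinarith
  have hR1γ : ∀ i j, ‖γ0 i j‖ + 1 ≤ RR := fun i j => by have := hγ0 i j; linarith
  have hR1ω : ∀ i p, ‖ω i p‖ + 1 ≤ RR := fun i j => by have := hω0 i j; linarith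
  have hR1χ : ∀ j p, ‖χ0 j p‖ + 1 ≤ RR := by
    intro j p
    have h1 : ‖∑ ρ, x ρ j * y ρ p + ∑ i, γ0 i j * ω i p‖ ≤ (r + w : ℝ) * (n : ℝ) ^ e := by
      have a1 : ‖∑ ρ, x ρ j * y ρ p‖ ≤ (r : ℝ) * (n : ℝ) ^ e := by
        refine (norm_sum_le _ _).trans ?_
        have : ∀ ρ ∈ (Finset.univ : Finset (Fin r)), ‖x ρ j * y ρ p‖ ≤ (n : ℝ) ^ e := by
          intro ρ _
          rw [norm_mul]
          have := mul_le_mul (hx0 ρ j) (hy0 ρ p) (norm_nonneg _) (by linarith)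
          nlinarith
        refine (Finset.sum_le_sum this).trans ?_
        simp
      have a2 : ‖∑ i, γ0 i j * ω i p‖ ≤ (w : ℝ) * (n : ℝ) ^ e := by
        refine (norm_sum_le _ _).trans ?_
        have : ∀ i ∈ (Finset.univ : Finset (Fin w)), ‖γ0 i j * ω i p‖ ≤ (n : ℝ) ^ e := by
          intro i _
          rw [norm_mul]
          have := mul_le_mul (hγ0 i j) (hω0 i p) (norm_nonneg _) (by linarith)
          nlinarith
        refine (Finset.sum_le_sum this).trans ?_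
        simp
      refine (norm_add_le _ _).trans ?_
      linarith
    have h2 : ‖χ0 j p‖ ≤ Real.exp ((r + w : ℝ) * (n : ℝ) ^ e) := by
      rw [hχ0, Complex.norm_exp]
      apply Real.exp_le_exp.mpr
      exact (Complex.re_le_norm _).trans h1
    have h3 : RR = Real.exp ((r + w : ℝ) * (n : ℝ) ^ e) * Real.exp (2 * (n : ℝ) ^ e) := by
      rw [hRRdef, ← Real.exp_add]; congr 1; ring
    have h4 : 2 ≤ Real.exp (2 * (n : ℝ) ^ e) := by
      have := Real.add_one_le_exp (2 * (n : ℝ) ^ e)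
      linarith
    have h5 : 1 ≤ Real.exp ((r + w : ℝ) * (n : ℝ) ^ e) := Real.one_le_exp (by positivity)
    rw [h3]
    nlinarith
  set C1 : ℝ := (1 + b) * X0 with hC1
  set C2 : ℝ := (1 + l) * X0 with hC2
  have hC1' : 1 ≤ C1 := by
    have : (0 : ℝ) ≤ b := Nat.cast_nonneg _
    rw [hC1]; nlinarith
  have hC2' : 1 ≤ C2 := by
    have : (0 : ℝ) ≤ l := Nat.cast_nonneg _
    rw [hC2]; nlinarith
  by_contra hcon
  push Not at hcon
  set Kc : Fin w → ℕ := fun i => if i ∈ A then n ^ k else 0 with hKc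
  have hKc' : ∀ i, Kc i ≤ n ^ k := hKcn n
  set K := n ^ k with hK
  set M := n ^ μ with hM
  set S := c * n ^ σ with hS
  set T := c * n ^ t with hT
  set Q := n ^ (u + 1) with hQ
  obtain ⟨cc, hcc⟩ := exists_det_ne_zero (F := F) (J := JG Kc b M) (C := CG w l T S)
    (fun j cd => entG γ α χ (fun i => (j.1 i : ℕ)) (fun i => (j.2 i : ℕ)) cd.1.1 cd.1.2) (by
      intro p hp
      by_contra hp0
      obtain ⟨t, s, ht, hs, hts⟩ := hcon (fun j => φ (p j)) (by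
        intro h
        apply hp0
        funext j
        exact (map_eq_zero φ).mp (congrFun h j))
      apply hts
      have h1 := hp ⟨(t, s), ht, hs⟩
      have h2 := congrArg φ h1
      rw [map_zero, map_sum] at h2
      rw [← h2]
      apply Finset.sum_congr rfl
      intro j _
      rw [map_mul]
      congr 1
      exact (entG_map (φ : F →+* ℂ) γ α χ _ _ t s).symm)
  apply hcc
  have hMpos : 1 ≤ M := Nat.one_le_pow _ _ hnpos
  have hSpos : 1 ≤ S := Nat.succ_le_of_lt (Nat.mul_pos hc (Nat.pow_pos hnpos))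
  -- the perturbation
  have hε0 : (0 : ℝ) ≤ (1 / 4 : ℝ) ^ Q := by positivity
  have hε1 : (1 / 4 : ℝ) ^ Q ≤ 1 := pow_le_one₀ (by norm_num) (by norm_num)
  have near : ∀ x y : ℂ, ‖y‖ + 1 ≤ RR → ‖x - y‖ ≤ (1 / 4 : ℝ) ^ Q →
      Near RR ((1 / 4 : ℝ) ^ Q) x y := by
    intro x y hy hxy
    refine ⟨?_, by linarith, ?_⟩
    · have : ‖x‖ ≤ ‖x - y‖ + ‖y‖ := by
        have := norm_add_le (x - y) y
        simpa using this
      linarith
    · nlinarith
  have hSM : (S : ℝ) * (M : ℝ) = c * (n : ℝ) ^ k := by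
    rw [hS, hM]; push_cast
    rw [← hμ, pow_add]; ring
  have hJj : ∀ j : JG Kc b M, (∀ i, (j.1 i : ℕ) ≤ n ^ k) ∧ (∀ i, (j.2 i : ℕ) ≤ M) := by
    intro j
    exact ⟨fun i => (Nat.lt_succ_iff.mp (j.1 i).2).trans (hKc' i),
      fun i => Nat.lt_succ_iff.mp (j.2 i).2⟩
  have hdpos : 0 < d1 ^ (w * T) * d ^ (w * K + b * (l * (S * M))) :=
    Nat.mul_pos (Nat.pow_pos hd1) (Nat.pow_pos hd)
  have hBBg1 : 1 ≤ BBg w b l K M T S := by
    unfold BBg
    have b1 : (1 : ℝ) ≤ (1 + b * (M : ℝ) + K) ^ T := by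
      apply one_le_pow₀
      have : (0 : ℝ) ≤ b * (M : ℝ) := by positivity
      have : (0 : ℝ) ≤ (K : ℝ) := Nat.cast_nonneg _
      linarith
    have b2 : (1 : ℝ) ≤ (1 + l * (S : ℝ)) ^ K := by
      apply one_le_pow₀
      have : (0 : ℝ) ≤ l * (S : ℝ) := by positivity
      linarith
    exact one_le_pow₀ (one_le_mul_of_one_le_of_one_le b1 b2)
  refine det_vanish_pert φ (L := Fin r ⊕ Fin w) (J := JG Kc b M)
    (fun j => Sum.elim (fun _ => 0) (fun i => (j.1 i : ℕ)))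
    (fun j => Sum.elim (fun ρ => ∑ i, x ρ i * ((j.2 i : ℕ) : ℂ))
      (fun i => ∑ q, γ0 i q * ((j.2 q : ℕ) : ℂ)))
    (fun i => Sum.elim (fun _ => 0) (cc i).1.1)
    (fun i => Sum.elim (fun ρ => ∑ q, y ρ q * ((cc i).1.2 q : ℂ))
      (fun q => ∑ q', ω q q' * ((cc i).1.2 q' : ℂ)))
    (n ^ k + T) Q (fun _ => C1 * M) (fun _ => C2 * S)
    (((1 + b) * (1 + l) : ℝ) * (c * (n : ℝ) ^ (k + e)))
    ?_ ?_ ?_ ?_ ?_ ?_ ?_ _ (d1 ^ (w * T) * d ^ (w * K + b * (l * (S * M)))) 1 hdpos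
    (BBg w b l K M T S * (R1 ^ (w * T) * R0 ^ (w * K + b * (l * (S * M)))))
    ?_ ?_ ?_ ?_ ?_ ?_ ?_
  · intro _
    have : (1 : ℝ) ≤ M := by exact_mod_cast hMpos
    nlinarith
  · intro _
    have : (1 : ℝ) ≤ S := by exact_mod_cast hSpos
    nlinarith
  · intro _
    calc C1 * (M : ℝ) * (C2 * S) = ((1 + b) * (1 + l) : ℝ) * (X0 ^ 2 * (S * M)) := by
          rw [hC1, hC2]; ring
      _ ≤ ((1 + b) * (1 + l) : ℝ) * ((n : ℝ) ^ e * (c * (n : ℝ) ^ k)) := by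
          rw [hSM]
          apply mul_le_mul_of_nonneg_left _ (by positivity)
          exact mul_le_mul_of_nonneg_right hX2 (by positivity)
      _ = _ := by rw [pow_add]; ring
  · intro j i
    have hM0 : (0 : ℝ) ≤ M := Nat.cast_nonneg _
    have hj := (hJj j).2
    rcases i with ρ | i
    · refine (norm_natsum_le X0 M (x ρ) (fun i => (j.2 i : ℕ)) (hx0 ρ) hj).trans ?_
      rw [hC1]
      have : 0 ≤ X0 * (M : ℝ) := by positivity
      nlinarith
    · refine (norm_natsum_le X0 M (fun q => γ0 i q) (fun i => (j.2 i : ℕ))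
        (fun q => hγ0 i q) hj).trans ?_
      rw [hC1]
      have : 0 ≤ X0 * (M : ℝ) := by positivity
      nlinarith
  · intro i' i
    have hS0 : (0 : ℝ) ≤ S := Nat.cast_nonneg _
    have hj : ∀ q, (cc i').1.2 q ≤ S := (cc i').2.2
    rcases i with ρ | i
    · refine (norm_natsum_le X0 S (y ρ) (cc i').1.2 (hy0 ρ) hj).trans ?_
      rw [hC2]
      have : 0 ≤ X0 * (S : ℝ) := by positivity
      nlinarith
    · refine (norm_natsum_le X0 S (ω i) (cc i').1.2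
        (fun q => hω0 i q) hj).trans ?_
      rw [hC2]
      have : 0 ≤ X0 * (S : ℝ) := by positivity
      nlinarith
  · intro j i' i
    rcases i with ρ | i
    · simp
    · have h1 : (j.1 i : ℕ) ≤ n ^ k := (hJj j).1 i
      have h2 : (cc i').1.1 i ≤ T := (cc i').2.1 i
      exact Nat.add_le_add h1 h2
  · positivity
  · -- B ≥ 1
    exact one_le_mul_of_one_le_of_one_le hBBg1
      (one_le_mul_of_one_le_of_one_le (one_le_pow₀ hR1) (one_le_pow₀ hR0))
  · intro j i'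
    exact entG_int2 dγ dα dχ K M T S (hJj j).1 (hJj j).2 (cc i').2.1 (cc i').2.2
  · intro τ j i'
    obtain ⟨g1, g2, g3⟩ := hσ τ
    have e1 := entG_map (τ : F →+* ℂ) γ α χ (fun i => (j.1 i : ℕ)) (fun i => (j.2 i : ℕ))
      (cc i').1.1 (cc i').1.2
    have e2 := entG_norm2 hR1 hR0 g1 g2 g3 K M T S
      (k := fun i => (j.1 i : ℕ)) (m := fun i => (j.2 i : ℕ))
      (hJj j).1 (hJj j).2 (cc i').2.1 (cc i').2.2
    exact (le_of_eq (congrArg norm e1)).trans e2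
  · intro j i'
    have e1 := entG_map (φ : F →+* ℂ) γ α χ (fun i => (j.1 i : ℕ)) (fun i => (j.2 i : ℕ))
      (cc i').1.1 (cc i').1.2
    have e2 := entG_exp γ0 ω χ0 x y ω (fun j p => rfl) (fun i => (j.1 i : ℕ))
      (fun i => (j.2 i : ℕ)) (cc i').1.1 (cc i').1.2 (fun i => Or.inr fun p => rfl)
    have e3 := entG_near hRR hε0 (γ := fun i j => φ (γ i j)) (γ' := γ0)
      (α := fun i q => φ (α i q)) (α' := ω) (χ := fun j q => φ (χ j q)) (χ' := χ0)
      (k := fun i => (j.1 i : ℕ)) (m := fun i => (j.2 i : ℕ)) (t := (cc i').1.1)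
      (s := (cc i').1.2)
      (fun i j => near _ _ (hR1γ i j) (hγ i j))
      (by
        intro i
        by_cases hi : i ∈ A
        · right; exact fun p => near _ _ (hR1ω i p) (hα i hi p)
        · left
          have h1 : (j.1 i : ℕ) < Kc i + 1 := (j.1 i).2
          have h2 : Kc i = 0 := by rw [hKc]; simp [hi]
          omega)
      (fun j p => near _ _ (hR1χ j p) (hχ j p))
      K M T S (hJj j).1 (hJj j).2 (cc i').2.1 (cc i').2.2
    have e4 := e3.2.2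
    refine le_trans (le_of_eq (congrArg norm (congrArg₂ (· - ·) e1 e2.symm))) (e4.trans ?_)
    have e5 : (((1 + b * RR * (M : ℝ) + K) ^ T * (1 + l * RR * S) ^ K) ^ w *
        (RR ^ (l * (S * M))) ^ b) * ((w * ((T : ℝ) + K) + b * (l * (S * M))) * (1 / 4 : ℝ) ^ Q) ≤
        ((((1 + b * RR * (M : ℝ) + K) ^ T * (1 + l * RR * S) ^ K) ^ w *
        (RR ^ (l * (S * M))) ^ b) * (1 + (w * ((T : ℝ) + K) + b * (l * (S * M))))) *
          (1 / 4 : ℝ) ^ Q := by
      rw [← mul_assoc]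
      apply mul_le_mul_of_nonneg_right _ hε0
      apply mul_le_mul_of_nonneg_left _ (by positivity)
      linarith
    refine e5.trans ?_
    calc ((((1 + b * RR * (M : ℝ) + K) ^ T * (1 + l * RR * S) ^ K) ^ w *
        (RR ^ (l * (S * M))) ^ b) * (1 + (w * ((T : ℝ) + K) + b * (l * (S * M))))) *
          (1 / 4 : ℝ) ^ Q
        ≤ 2 ^ Q * (1 / 4 : ℝ) ^ Q := mul_le_mul_of_nonneg_right g2 hε0
      _ = (1 / 2 : ℝ) ^ Q := by rw [← mul_pow]; norm_num
  · rw [card_JG]; positivity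
  · rw [card_JG]
    have hcardL : Fintype.card (Fin r ⊕ Fin w) = r + w := by simp
    rw [hcardL]
    have h1 : (n ^ k) ^ A.card ≤ ∏ i, (Kc i + 1) := by
      have e : (n ^ k) ^ A.card = ∏ i ∈ A, n ^ k := by simp
      rw [e]
      calc ∏ i ∈ A, n ^ k ≤ ∏ i ∈ A, (Kc i + 1) := by
            apply Finset.prod_le_prod' 
            intro i hi
            have h3 : Kc i = n ^ k := if_pos hi
            omega
        _ ≤ ∏ i, (Kc i + 1) := by
            apply Finset.prod_le_prod_of_subset_of_one_le' (Finset.subset_univ _)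
            intro i _ _
            omega
    have h2 : M ^ b ≤ (M + 1) ^ b := Nat.pow_le_pow_left (by omega) _
    calc 2 * Q ^ (r + w) = 2 * n ^ ((u + 1) * (r + w)) := by rw [hQ, ← pow_mul]
      _ ≤ n * n ^ ((u + 1) * (r + w)) := by gcongr
      _ = n ^ ((u + 1) * (r + w) + 1) := by rw [pow_succ]; ring
      _ ≤ n ^ (A.card * k + b * μ) := Nat.pow_le_pow_right hnpos hcount
      _ = (n ^ k) ^ A.card * M ^ b := by rw [hM, ← pow_mul, ← pow_mul, ← pow_add]; ring_nf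
      _ ≤ _ := Nat.mul_le_mul h1 h2
  · -- the arithmetic estimate
    have hcardL : Fintype.card (Fin r ⊕ Fin w) = r + w := by simp
    rw [card_JG, hcardL]
    have hNN : (((∏ i, (Kc i + 1)) * (M + 1) ^ b : ℕ) : ℝ) = NNg Kc b M := rfl
    have hCC : (((r + w : ℕ) : ℝ) + 1) *
        (2 * E1 (n ^ k + T) (((1 + b) * (1 + l) : ℝ) * (c * (n : ℝ) ^ (k + e)))) ^
        (r + w) = CCg r w (n ^ k + c * n ^ t) (((1 + b) * (1 + l) : ℝ) * (c * (n : ℝ) ^ (k + e))) := rfl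
    rw [hNN, hCC]
    set D := Module.finrank ℚ F with hDdef
    set E2 := w * K + b * (l * (S * M)) with hE2
    set NN := NNg Kc b M with hNNdef
    set CC := CCg r w (n ^ k + c * n ^ t) (((1 + b) * (1 + l) : ℝ) * (c * (n : ℝ) ^ (k + e)))
      with hCCdef
    set BB := BBg w b l K M T S with hBBdef
    have hN1 : 1 ≤ NN := by
      rw [hNNdef]
      unfold NNg
      have : 1 ≤ (∏ i, (Kc i + 1)) * (M + 1) ^ b := by
        apply Nat.succ_le_of_lt
        apply Nat.mul_pos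
        · exact Finset.prod_pos (fun i _ => Nat.succ_pos _)
        · positivity
      exact_mod_cast this
    have hC0 : 0 ≤ CC := by
      rw [hCCdef]
      unfold CCg
      have : 0 ≤ E1 (n ^ k + c * n ^ t) (((1 + b) * (1 + l) : ℝ) * (c * (n : ℝ) ^ (k + e))) := by
        have := E1_one_le (n ^ k + c * n ^ t)
          (((1 + b) * (1 + l) : ℝ) * (c * (n : ℝ) ^ (k + e))) (by positivity)
        linarith
      positivity
    have hd1r : (1 : ℝ) ≤ (d1 : ℝ) := by exact_mod_cast hd1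
    have hdr : (1 : ℝ) ≤ (d : ℝ) := by exact_mod_cast hd
    have hdR1' : 1 ≤ (d1 : ℝ) * R1 := one_le_mul_of_one_le_of_one_le hd1r hR1
    have hdR0' : 1 ≤ (d : ℝ) * R0 := one_le_mul_of_one_le_of_one_le hdr hR0
    set HH : ℝ := ((d1 : ℝ) * R1) ^ (w * T) * ((d : ℝ) * R0) ^ E2 with hHH
    have hHH1 : 1 ≤ HH := one_le_mul_of_one_le_of_one_le (one_le_pow₀ hdR1') (one_le_pow₀ hdR0')
    have k1 : 2 * NN * CC * ((((d1 ^ (w * T) * d ^ E2 : ℕ) : ℝ)) ^ 1) ^ D *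
        (NN * (BB * (R1 ^ (w * T) * R0 ^ E2))) ^ D ≤
        (2 * NN * CC * (NN * BB) ^ Dg) * HH ^ Dg := by
      have e1 : 2 * NN * CC * ((((d1 ^ (w * T) * d ^ E2 : ℕ) : ℝ)) ^ 1) ^ D *
          (NN * (BB * (R1 ^ (w * T) * R0 ^ E2))) ^ D =
          (2 * NN * CC) * ((NN * BB) ^ D * HH ^ D) := by
        rw [hHH]
        push_cast
        rw [mul_pow (d1 : ℝ) R1, mul_pow (d : ℝ) R0, pow_one]
        have : ((d1 : ℝ) ^ (w * T) * (d : ℝ) ^ E2) ^ D * (NN * (BB * (R1 ^ (w * T) * R0 ^ E2))) ^ D =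
            (NN * BB) ^ D * ((d1 : ℝ) ^ (w * T) * R1 ^ (w * T) * ((d : ℝ) ^ E2 * R0 ^ E2)) ^ D := by
          rw [← mul_pow, ← mul_pow]
          congr 1
          ring
        rw [mul_assoc (2 * NN * CC), this]
      rw [e1]
      have e2 : (NN * BB) ^ D ≤ (NN * BB) ^ Dg :=
        pow_le_pow_right₀ (one_le_mul_of_one_le_of_one_le hN1 hBBg1) hDg
      have e3 : HH ^ D ≤ HH ^ Dg := pow_le_pow_right₀ hHH1 hDg
      have e4 : (0 : ℝ) ≤ HH ^ D := by positivity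
      have e5 : (0 : ℝ) ≤ (NN * BB) ^ Dg := by positivity
      have e6 : (0 : ℝ) ≤ 2 * NN * CC := by positivity
      calc (2 * NN * CC) * ((NN * BB) ^ D * HH ^ D)
          ≤ (2 * NN * CC) * ((NN * BB) ^ Dg * HH ^ Dg) :=
            mul_le_mul_of_nonneg_left (mul_le_mul e2 e3 e4 e5) e6
        _ = _ := by ring
    have k0 : 0 ≤ 2 * NN * CC * ((((d1 ^ (w * T) * d ^ E2 : ℕ) : ℝ)) ^ 1) ^ D *
        (NN * (BB * (R1 ^ (w * T) * R0 ^ E2))) ^ D := by positivity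
    -- the factor with the heights
    have k2 : ((HH ^ Dg) ^ 2) ^ 2 ≤ 2 ^ Q := by
      have e3 : (2 : ℝ) ^ Q = Real.exp (Real.log 2 * (n : ℝ) ^ (u + 1)) := by
        rw [Real.exp_mul, Real.exp_log (by norm_num)]
        have : ((n : ℝ) ^ (u + 1)) = ((n ^ (u + 1) : ℕ) : ℝ) := by push_cast; rfl
        rw [this, Real.rpow_natCast]
      have hn1' : (1 : ℝ) ≤ n := by exact_mod_cast hnpos
      set ηη : ℝ := Real.log 2 / (4 * (Dg + 1) * Z) with hηη
      have hηη0 : 0 < ηη := by positivity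
      have e7 : HH ≤ Real.exp (ηη * Z * (n : ℝ) ^ (u + 1)) := by
        have e8 : ((d1 : ℝ) * R1) ^ (w * T) ≤ Real.exp (ηη * (w * c) * (n : ℝ) ^ (u + 1)) := by
          calc ((d1 : ℝ) * R1) ^ (w * T) ≤ (Real.exp (ηη * (n : ℝ) ^ g)) ^ (w * T) :=
                pow_le_pow_left₀ (by positivity) hdR1 _
            _ = Real.exp (((w * T : ℕ) : ℝ) * (ηη * (n : ℝ) ^ g)) := by rw [← Real.exp_nat_mul]
            _ ≤ _ := by
              apply Real.exp_le_exp.mpr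
              rw [hT]; push_cast
              calc (w : ℝ) * (c * (n : ℝ) ^ t) * (ηη * (n : ℝ) ^ g) =
                    ηη * (w * c) * (n : ℝ) ^ (t + g) := by rw [pow_add]; ring
                _ ≤ _ := mul_le_mul_of_nonneg_left (pow_le_pow_right₀ hn1' htg) (by positivity)
        have e9 : ((d : ℝ) * R0) ^ E2 ≤ Real.exp (ηη * (w + b * (l * c)) * (n : ℝ) ^ (u + 1)) := by
          calc ((d : ℝ) * R0) ^ E2 ≤ (Real.exp (ηη * (n : ℝ) ^ h)) ^ E2 :=
                pow_le_pow_left₀ (by positivity) hdR0 _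
            _ = Real.exp (((E2 : ℕ) : ℝ) * (ηη * (n : ℝ) ^ h)) := by rw [← Real.exp_nat_mul]
            _ ≤ _ := by
              apply Real.exp_le_exp.mpr
              rw [hE2]; push_cast
              rw [hSM, hK]; push_cast
              calc ((w : ℝ) * (n : ℝ) ^ k + b * (l * (c * (n : ℝ) ^ k))) * (ηη * (n : ℝ) ^ h) =
                    ηη * (w + b * (l * c)) * (n : ℝ) ^ (k + h) := by rw [pow_add]; ring
                _ ≤ _ := mul_le_mul_of_nonneg_left (pow_le_pow_right₀ hn1' hkh) (by positivity)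
        calc HH ≤ Real.exp (ηη * (w * c) * (n : ℝ) ^ (u + 1)) *
              Real.exp (ηη * (w + b * (l * c)) * (n : ℝ) ^ (u + 1)) :=
              mul_le_mul e8 e9 (by positivity) (by positivity)
          _ = Real.exp (ηη * (w * c + (w + b * (l * c))) * (n : ℝ) ^ (u + 1)) := by
            rw [← Real.exp_add]; congr 1; ring
          _ ≤ _ := by
            apply Real.exp_le_exp.mpr
            apply mul_le_mul_of_nonneg_right _ (by positivity)
            apply mul_le_mul_of_nonneg_left _ hηη0.le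
            rw [hZ]; linarith
      have e1 : ((HH ^ Dg) ^ 2) ^ 2 = HH ^ (Dg * 4) := by
        rw [pow_mul HH Dg 4]; ring
      rw [e1, e3]
      calc HH ^ (Dg * 4) ≤ (Real.exp (ηη * Z * (n : ℝ) ^ (u + 1))) ^ (Dg * 4) :=
            pow_le_pow_left₀ (by positivity) e7 _
        _ = Real.exp (((Dg * 4 : ℕ) : ℝ) * (ηη * Z * (n : ℝ) ^ (u + 1))) := by
            rw [← Real.exp_nat_mul]
        _ ≤ _ := by
          apply Real.exp_le_exp.mpr
          push_cast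
          have e5 : (Dg : ℝ) * 4 * (ηη * Z * (n : ℝ) ^ (u + 1)) =
              (Dg / (Dg + 1)) * (Real.log 2 * (n : ℝ) ^ (u + 1)) := by
            rw [hηη]
            field_simp
          rw [e5]
          have e6 : (Dg : ℝ) / (Dg + 1) ≤ 1 := by
            rw [div_le_one (by positivity)]; linarith
          have e7 : 0 ≤ Real.log 2 * (n : ℝ) ^ (u + 1) := by positivity
          nlinarith
    set f1 : ℝ := 2 * NN * CC * (NN * BB) ^ Dg with hf1
    set gg : ℝ := HH ^ Dg with hgg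
    have hf10 : 0 ≤ f1 := by rw [hf1]; positivity
    have hg0 : 0 < gg := by rw [hgg]; positivity
    have k3 : ((f1 * gg) ^ 2) ^ 2 < ((2 : ℝ) ^ Q) ^ 2 := by
      have e1 : ((f1 * gg) ^ 2) ^ 2 = (f1 ^ 2) ^ 2 * (gg ^ 2) ^ 2 := by ring
      have e2 : 0 < (gg ^ 2) ^ 2 := by positivity
      have e3 : (0 : ℝ) < 2 ^ Q := by positivity
      calc ((f1 * gg) ^ 2) ^ 2 = (f1 ^ 2) ^ 2 * (gg ^ 2) ^ 2 := e1
        _ < 2 ^ Q * (gg ^ 2) ^ 2 := mul_lt_mul_of_pos_right g1 e2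
        _ ≤ 2 ^ Q * 2 ^ Q := mul_le_mul_of_nonneg_left k2 e3.le
        _ = _ := by ring
    have k4 : (f1 * gg) ^ 2 < (2 : ℝ) ^ Q := lt_of_pow_lt_pow_left₀ 2 (by positivity) k3
    exact lt_of_le_of_lt (pow_le_pow_left₀ k0 k1 2) k4

end Pool.Agent.H70.QM
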