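import Mathlib
import Pool.Graph.R_seed8.H340R2.StabGen

/-!
Spaces of polynomials which are stable under invariant derivations and translations are sums of
their isotypic parts.
-/

open MvPolynomial
open Module (End finrank)

set_option autoImplicit false

namespace Pool.Agent.H70.QM

open Pool.Agent.H364R2 Pool.Agent.H340R2.Stab

section Abstract

variable {σ : Type}

/-- splitting into generalised eigenspaces, for one operator -/
theorem split_op (rk : (σ →₀ ℕ) → ℕ) (S : (σ →₀ ℕ) → (σ →₀ ℕ) → Prop)
    (hSt : ∀ a b c, S a b → S b c → S a c) (hSr : ∀ a b, S a b → rk b < rk a)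
    (lam : (σ →₀ ℕ) → ℂ) (hlam : ∀ a b, S a b → lam a = lam b)
    (T : MvPolynomial σ ℂ →ₗ[ℂ] MvPolynomial σ ℂ)
    (hT : ∀ f m, (∀ m', S m' m → coeff m' f = 0) → coeff m (T f) = lam m * coeff m f)
    (V p : Submodule ℂ (MvPolynomial σ ℂ)) (hfd : FiniteDimensional ℂ V)
    (hTV : ∀ f ∈ V, T f ∈ V) (hTp : ∀ f ∈ p, T f ∈ p)
    (f : MvPolynomial σ ℂ) (hfV : f ∈ V) (hfp : f ∈ p) (μ : ℂ) :
    ∃ g ∈ V, g ∈ p ∧ ∀ m, coeff m g = if lam m = μ then coeff m f else 0 := by
  classical
  let T' : End ℂ V := T.restrict hTV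
  have hT' : ∀ v : V, ((T' v : V) : MvPolynomial σ ℂ) = T v := fun v => rfl
  let p' : Submodule ℂ V := p.comap V.subtype
  have hp' : ∀ v ∈ p', T' v ∈ p' := fun v hv => hTp _ hv
  have h1 := Submodule.eq_iSup_inf_genEigenspace (p := p') (f := T') ⊤ hp'
    (Module.End.iSup_maxGenEigenspace_eq_top T')
  -- pure type
  have hpure : ∀ (ν : ℂ) (g : V), g ∈ T'.genEigenspace ν ⊤ → ∀ m, lam m ≠ ν →
      coeff m (g : MvPolynomial σ ℂ) = 0 := by
    intro ν g hg
    obtain ⟨k, hk⟩ := (Module.End.mem_maxGenEigenspace T' ν g).mp hg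
    by_contra hcon
    push Not at hcon
    obtain ⟨m0, hm0, hm0'⟩ := hcon
    obtain ⟨m, hm, hmax⟩ := Finset.exists_max_image
      ((g : MvPolynomial σ ℂ).support.filter (fun m => lam m ≠ ν)) rk
      ⟨m0, Finset.mem_filter.mpr ⟨mem_support_iff.mpr hm0', hm0⟩⟩
    rw [Finset.mem_filter, mem_support_iff] at hm
    have hz : ∀ m', S m' m → coeff m' (g : MvPolynomial σ ℂ) = 0 := by
      intro m' hm'
      by_contra hne
      have h2 := hmax m' (Finset.mem_filter.mpr ⟨mem_support_iff.mpr hne, by
        rw [hlam _ _ hm']; exact hm.2⟩)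
      have h3 := hSr _ _ hm'
      omega
    have hit : ∀ i : ℕ, (∀ m', S m' m →
        coeff m' ((((T' - ν • (1 : End ℂ V)) ^ i) g : V) : MvPolynomial σ ℂ) = 0) ∧
        coeff m ((((T' - ν • (1 : End ℂ V)) ^ i) g : V) : MvPolynomial σ ℂ) =
          (lam m - ν) ^ i * coeff m (g : MvPolynomial σ ℂ) := by
      intro i
      induction i with
      | zero => exact ⟨by simpa using hz, by simp⟩
      | succ i ih =>
        obtain ⟨ih1, ih2⟩ := ih
        set v : V := ((T' - ν • (1 : End ℂ V)) ^ i) g with hv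
        have e : ((((T' - ν • (1 : End ℂ V)) ^ (i + 1)) g : V) : MvPolynomial σ ℂ) =
            T v - ν • (v : MvPolynomial σ ℂ) := by
          rw [pow_succ', Module.End.mul_apply, ← hv, LinearMap.sub_apply]
          rfl
        rw [e]
        constructor
        · intro m' hm'
          rw [coeff_sub, coeff_smul, ih1 m' hm', smul_zero, sub_zero,
            hT _ m' (fun m'' h => ih1 m'' (hSt _ _ _ h hm')), ih1 m' hm', mul_zero]
        · rw [coeff_sub, coeff_smul, hT _ m ih1, ih2, pow_succ, smul_eq_mul]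
          ring
    have h2 := (hit k).2
    rw [hk] at h2
    have h3 : (lam m - ν) ^ k * coeff m (g : MvPolynomial σ ℂ) ≠ 0 :=
      mul_ne_zero (pow_ne_zero _ (sub_ne_zero.mpr hm.2)) hm.1
    apply h3
    rw [← h2]
    simp
  have hx : (⟨f, hfV⟩ : V) ∈ ⨆ ν, p' ⊓ T'.genEigenspace ν ⊤ := by
    rw [← h1]; exact hfp
  obtain ⟨c, hc, hcs⟩ := (Submodule.mem_iSup_iff_exists_finsupp _ _).mp hx
  refine ⟨(c μ : MvPolynomial σ ℂ), (c μ).2, (hc μ).1, fun m => ?_⟩
  have hsum : coeff m f = ∑ i ∈ c.support, coeff m (c i : MvPolynomial σ ℂ) := by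
    have h2 := congrArg (Subtype.val) hcs
    rw [Finsupp.sum] at h2
    have h3 : ((∑ i ∈ c.support, c i : V) : MvPolynomial σ ℂ) =
        ∑ i ∈ c.support, (c i : MvPolynomial σ ℂ) := by
      rw [← Submodule.coe_sum]
    rw [h3] at h2
    change _ = f at h2
    rw [← h2, coeff_sum]
  split_ifs with hm
  · rw [hsum]
    symm
    apply Finset.sum_eq_single
    · intro i _ hi
      exact hpure i (c i) (hc i).2 m (by rw [hm]; exact hi.symm)
    · intro hi
      rw [Finsupp.notMem_support_iff.mp hi]
      simp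
  · exact hpure μ (c μ) (hc μ).2 m hm

/-- splitting by a function of the exponents which is determined by the characters -/
theorem split_typ {ι : Type*} (rk : (σ →₀ ℕ) → ℕ) (S : (σ →₀ ℕ) → (σ →₀ ℕ) → Prop)
    (hSt : ∀ a b c, S a b → S b c → S a c) (hSr : ∀ a b, S a b → rk b < rk a)
    (lam : ι → (σ →₀ ℕ) → ℂ) (hlam : ∀ i a b, S a b → lam i a = lam i b)
    (T : ι → MvPolynomial σ ℂ →ₗ[ℂ] MvPolynomial σ ℂ)
    (hT : ∀ i f m, (∀ m', S m' m → coeff m' f = 0) → coeff m (T i f) = lam i m * coeff m f)
    (V p : Submodule ℂ (MvPolynomial σ ℂ)) (hfd : FiniteDimensional ℂ V)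
    (hTV : ∀ i, ∀ f ∈ V, T i f ∈ V) (hTp : ∀ i, ∀ f ∈ p, T i f ∈ p)
    (Bx : Set (σ →₀ ℕ)) (hBx : ∀ f ∈ V, ∀ m, coeff m f ≠ 0 → m ∈ Bx)
    (typ : (σ →₀ ℕ) → ℂ)
    (hsep : ∀ m ∈ Bx, ∀ m' ∈ Bx, (∀ i, lam i m = lam i m') → typ m = typ m') (n : ℕ) :
    ∀ f ∈ V, f ∈ p → f.support.card ≤ n → ∀ ν : ℂ,
      ∃ g ∈ V, g ∈ p ∧ ∀ m, coeff m g = if typ m = ν then coeff m f else 0 := by
  classical
  induction n with
  | zero =>
    intro f _ _ hn ν
    have h0 : f = 0 := by
      rw [Nat.le_zero, Finset.card_eq_zero, support_eq_empty] at hn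
      exact hn
    refine ⟨0, V.zero_mem, p.zero_mem, fun m => ?_⟩
    rw [h0]; simp
  | succ n ih =>
    intro f hfV hfp hn ν
    by_cases hall : ∀ m ∈ f.support, ∀ m' ∈ f.support, typ m = typ m'
    · by_cases hex : ∃ m ∈ f.support, typ m = ν
      · obtain ⟨m0, hm0, hm0'⟩ := hex
        refine ⟨f, hfV, hfp, fun m => ?_⟩
        split_ifs with h
        · rfl
        · by_contra hne
          exact h ((hall m (mem_support_iff.mpr hne) m0 hm0).trans hm0')
      · push Not at hex
        refine ⟨0, V.zero_mem, p.zero_mem, fun m => ?_⟩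
        split_ifs with h
        · rw [coeff_zero]
          by_contra hne
          exact hex m (mem_support_iff.mpr (Ne.symm hne)) h
        · simp
    · push Not at hall
      obtain ⟨m1, hm1, m2, hm2, h12⟩ := hall
      obtain ⟨i, hi⟩ : ∃ i, lam i m1 ≠ lam i m2 := by
        by_contra hcon
        push Not at hcon
        exact h12 (hsep m1 (hBx f hfV m1 (mem_support_iff.mp hm1)) m2
          (hBx f hfV m2 (mem_support_iff.mp hm2)) hcon)
      have hs := split_op rk S hSt hSr (lam i) (hlam i) (T i) (hT i) V p hfd (hTV i) (hTp i) f hfV hfp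
      choose g hgV hgp hg using hs
      have hcard : ∀ μ, (g μ).support.card ≤ n := by
        intro μ
        have hlt : (g μ).support.card < f.support.card := by
          apply Finset.card_lt_card
          rw [Finset.ssubset_iff_subset_ne]
          constructor
          · intro m hm
            rw [mem_support_iff, hg μ m] at hm
            rw [mem_support_iff]
            intro h
            apply hm
            rw [h]; simp
          · intro heq
            have e1 : m1 ∈ (g μ).support := by rw [heq]; exact hm1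
            have e2 : m2 ∈ (g μ).support := by rw [heq]; exact hm2
            rw [mem_support_iff, hg μ] at e1 e2
            have e3 : lam i m1 = μ := by
              by_contra h
              rw [if_neg h] at e1
              exact e1 rfl
            have e4 : lam i m2 = μ := by
              by_contra h
              rw [if_neg h] at e2
              exact e2 rfl
            exact hi (e3.trans e4.symm)
        omega
      have hg2 := fun μ => ih (g μ) (hgV μ) (hgp μ) (hcard μ) ν
      choose k hkV hkp hk using hg2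
      refine ⟨∑ μ ∈ f.support.image (lam i), k μ, V.sum_mem fun μ _ => hkV μ,
        p.sum_mem fun μ _ => hkp μ, fun m => ?_⟩
      rw [coeff_sum]
      by_cases hm : m ∈ f.support
      · rw [Finset.sum_eq_single (lam i m)]
        · rw [hk, hg, if_pos rfl]
        · intro μ _ hμ
          rw [hk, hg, if_neg (Ne.symm hμ)]
          simp
        · intro h
          exact absurd (Finset.mem_image_of_mem _ hm) h
      · rw [Finset.sum_eq_zero]
        · rw [notMem_support_iff.mp hm]; simp
        · intro μ _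
          rw [hk, hg, notMem_support_iff.mp hm]
          simp

end Abstract

section Concrete

variable {σ : Type} [Fintype σ] [DecidableEq σ]

/-- same multiplicative part, larger additive degree -/
def Sr (add : σ → Bool) (a b : σ →₀ ℕ) : Prop :=
  (∀ j, add j = false → a j = b j) ∧ adeg add b < adeg add a

theorem Sr_trans (add : σ → Bool) (a b c : σ →₀ ℕ) (h : Sr add a b) (h' : Sr add b c) :
    Sr add a c :=
  ⟨fun j hj => (h.1 j hj).trans (h'.1 j hj), h'.2.trans h.2⟩

/-- the eigenvalues of the derivation -/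
noncomputable def lamD (add : σ → Bool) (w : σ → ℂ) (m : σ →₀ ℕ) : ℂ :=
  ∑ j, if add j then 0 else w j * (m j : ℂ)

/-- the eigenvalues of the translation -/
noncomputable def lamT (add : σ → Bool) (g : σ → ℂ) (m : σ →₀ ℕ) : ℂ :=
  ∏ j, if add j then 1 else g j ^ (m j)

theorem lamD_Sr (add : σ → Bool) (w : σ → ℂ) (a b : σ →₀ ℕ) (h : Sr add a b) :
    lamD add w a = lamD add w b := by
  unfold lamD
  apply Finset.sum_congr rfl
  intro j _
  by_cases hj : add j = true
  · rw [if_pos hj, if_pos hj]
  · rw [if_neg hj, if_neg hj, h.1 j (by simpa using hj)]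

theorem lamT_Sr (add : σ → Bool) (g : σ → ℂ) (a b : σ →₀ ℕ) (h : Sr add a b) :
    lamT add g a = lamT add g b := by
  unfold lamT
  apply Finset.prod_congr rfl
  intro j _
  by_cases hj : add j = true
  · rw [if_pos hj, if_pos hj]
  · rw [if_neg hj, if_neg hj, h.1 j (by simpa using hj)]

theorem coeff_der_top (add : σ → Bool) (w : σ → ℂ) (f : MvPolynomial σ ℂ) (m : σ →₀ ℕ)
    (h : ∀ m', Sr add m' m → coeff m' f = 0) :
    coeff m (der add w f) = lamD add w m * coeff m f := by
  rw [coeff_der, lamD, Finset.sum_mul]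
  apply Finset.sum_congr rfl
  intro j _
  by_cases hj : add j = true
  · rw [if_pos hj, if_pos hj, h (m + Finsupp.single j 1)]
    · simp
    · refine ⟨fun i hi => ?_, ?_⟩
      · have hij : i ≠ j := by
          rintro rfl
          rw [hj] at hi
          exact absurd hi (by simp)
        rw [Finsupp.add_apply, Finsupp.single_eq_of_ne hij, add_zero]
      · rw [adeg_add_single add m j hj]
        omega
  · rw [if_neg hj, if_neg hj]

theorem sr_of_trc (add : σ → Bool) (g : σ → ℂ) (s m : σ →₀ ℕ) (h : ∏ j, trc add g s m j ≠ 0)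
    (hne : s ≠ m) : Sr add s m := by
  have h1 := prod_trc_ne_zero add g s m h
  refine ⟨fun j hj => (h1 j).2 hj, ?_⟩
  obtain ⟨j, hj⟩ : ∃ j, s j ≠ m j := by
    by_contra hcon
    push Not at hcon
    exact hne (Finsupp.ext hcon)
  have hadd : add j = true := by
    by_contra hcon
    exact hj ((h1 j).2 (by simpa using hcon))
  unfold adeg
  apply Finset.sum_lt_sum
  · intro i _
    split_ifs
    · exact (h1 i).1
    · exact le_refl _
  · refine ⟨j, Finset.mem_univ _, ?_⟩
    rw [if_pos hadd, if_pos hadd]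
    exact lt_of_le_of_ne (h1 j).1 (Ne.symm hj)

theorem coeff_tr_top (add : σ → Bool) (g : σ → ℂ) (f : MvPolynomial σ ℂ) (m : σ →₀ ℕ)
    (h : ∀ m', Sr add m' m → coeff m' f = 0) :
    coeff m (tr add g f) = lamT add g m * coeff m f := by
  rw [coeff_tr add g f m _ (Finset.Subset.refl _), Finset.sum_eq_single m]
  · rw [prod_trc_self, mul_comm]
    rfl
  · intro s hs hsm
    by_contra hne
    have h1 := sr_of_trc add g s m (right_ne_zero_of_mul hne) hsm
    exact (left_ne_zero_of_mul hne) (h s h1)
  · intro hm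
    rw [notMem_support_iff.mp hm, zero_mul]

/-- translations by elements of the torus -/
theorem coeff_tr_torus (add : σ → Bool) (g : σ → ℂ) (hg : ∀ j, add j = true → g j = 0)
    (f : MvPolynomial σ ℂ) (m : σ →₀ ℕ) :
    coeff m (tr add g f) = lamT add g m * coeff m f := by
  rw [coeff_tr add g f m _ (Finset.Subset.refl _), Finset.sum_eq_single m]
  · rw [prod_trc_self, mul_comm]
    rfl
  · intro s hs hsm
    by_contra hne
    have h0 := right_ne_zero_of_mul hne
    have h1 := prod_trc_ne_zero add g s m h0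
    obtain ⟨j, hj⟩ : ∃ j, s j ≠ m j := by
      by_contra hcon
      push Not at hcon
      exact hsm (Finsupp.ext hcon)
    have hadd : add j = true := by
      by_contra hcon
      exact hj ((h1 j).2 (by simpa using hcon))
    have h2 := Finset.prod_ne_zero_iff.mp h0 j (Finset.mem_univ j)
    apply h2
    unfold trc
    rw [if_pos hadd, hg j hadd, zero_pow, zero_mul]
    have := (h1 j).1
    omega
  · intro hm
    rw [notMem_support_iff.mp hm, zero_mul]

end Concrete

end Pool.Agent.H70.QM
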