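import Mathlib
import Pool.Agent.H70.QM.ZGroup
import Pool.Agent.H70.QM.Split

/-!
The stabiliser of a variety of maximal dimension among those defined by equations of bounded degree
contains the subtorus defined by the relations of bounded size.
-/

open MvPolynomial

set_option autoImplicit false

namespace Pool.Agent.H70.QM

open Pool.Agent.H364R2 Pool.Agent.H340R2.Stab

variable {σ : Type} [Fintype σ] [DecidableEq σ] (add : σ → Bool)

/-- one-parameter subgroups of the torus -/
noncomputable def gv (v : σ → ℂ) (t : ℂ) : σ → ℂ :=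
  fun j => if add j then 0 else Complex.exp (t * v j)

omit [Fintype σ] [DecidableEq σ] in
theorem isG_gv (v : σ → ℂ) (t : ℂ) : IsG add (gv add v t) := by
  intro j hj
  unfold gv
  rw [if_neg (by simp [hj])]
  exact Complex.exp_ne_zero _

omit [Fintype σ] [DecidableEq σ] in
theorem gmul_gv (v : σ → ℂ) (t t' : ℂ) :
    gmul add (gv add v t) (gv add v t') = gv add v (t + t') := by
  funext j
  unfold gmul gv
  split_ifs
  · ring
  · rw [← Complex.exp_add]; congr 1; ring

omit [Fintype σ] [DecidableEq σ] in
theorem gv_zero (v : σ → ℂ) : gv add v 0 = gone add := by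
  funext j
  unfold gone gv
  split_ifs
  · rfl
  · rw [zero_mul, Complex.exp_zero]

omit [DecidableEq σ] in
theorem lamT_gv (v : σ → ℂ) (t : ℂ) (m : σ →₀ ℕ) :
    lamT add (gv add v t) m = Complex.exp (t * lamD add v m) := by
  unfold lamT lamD
  rw [Finset.mul_sum, Complex.exp_sum]
  apply Finset.prod_congr rfl
  intro j _
  unfold gv
  split_ifs with h
  · simp
  · rw [← Complex.exp_nat_mul]; congr 1; ring

/-- the space of equations of bounded degree is stable -/
theorem box_stab (P : Ideal (MvPolynomial σ ℂ)) (L : σ → ℕ) (WP GP : Set (σ → ℂ))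
    (hW : ∀ w ∈ WP, ∀ f ∈ P, der add w f ∈ P) (hG : ∀ g ∈ GP, ∀ f ∈ P, tr add g f ∈ P)
    (hGG : ∀ g ∈ GP, IsG add g) (v : σ → ℂ)
    (hv : ∀ m : σ → ℤ, (∀ j, add j = true → m j = 0) → (∀ j, |m j| ≤ L j) →
      (∀ w ∈ WP, ∑ j, w j * (m j : ℂ) = 0) →
      (∀ g ∈ GP, ∏ j, (if add j then 1 else g j ^ (m j)) = 1) → ∑ j, v j * (m j : ℂ) = 0)
    (f : MvPolynomial σ ℂ) (hf : f ∈ P) (hfb : f ∈ box ℂ L 1) (t : ℂ) :
    tr add (gv add v t) f ∈ P := by
  classical
  let T : (WP ⊕ GP) → MvPolynomial σ ℂ →ₗ[ℂ] MvPolynomial σ ℂ := fun i =>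
    match i with
    | Sum.inl w => ((der add w.1 : Derivation ℂ (MvPolynomial σ ℂ)
      (MvPolynomial σ ℂ)) : MvPolynomial σ ℂ →ₗ[ℂ] MvPolynomial σ ℂ)
    | Sum.inr g => (tr add g.1).toLinearMap
  let lam : (WP ⊕ GP) → (σ →₀ ℕ) → ℂ := fun i =>
    match i with
    | Sum.inl w => lamD add w.1
    | Sum.inr g => lamT add g.1
  have hsplit := split_typ (adeg add) (Sr add) (Sr_trans add) (fun a b h => h.2) lam
    (by
      rintro (w | g) a b h
      · exact lamD_Sr add _ a b h
      · exact lamT_Sr add _ a b h) T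
    (by
      rintro (w | g) f m h
      · exact coeff_der_top add _ f m h
      · exact coeff_tr_top add _ f m h)
    (box ℂ L 1) (P.restrictScalars ℂ) (finite_box ℂ L 1)
    (by
      rintro (w | g) f hf
      · exact der_mem_box add _ hf
      · exact tr_mem_box add _ hf)
    (by
      rintro (w | g) f hf
      · exact hW _ w.2 f hf
      · exact hG _ g.2 f hf)
    {m | ∀ j, m j ≤ L j}
    (by
      intro f hf m hm j
      have := (mem_box ℂ).mp hf m (MvPolynomial.mem_support_iff.mpr hm) j
      simpa using this)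
    (lamD add v)
    (by
      intro m hm m' hm' h
      have h1 := hv (fun j => if add j then 0 else (m j : ℤ) - (m' j : ℤ))
        (fun j hj => by simp [hj])
        (fun j => by
          by_cases hj : add j = true
          · simp [hj]
          · simp only [hj, Bool.false_eq_true, if_false]
            have h2 : m j ≤ L j := hm j
            have h3 : m' j ≤ L j := hm' j
            rw [abs_le]
            constructor <;> omega)
        (fun w hw => by
          have h2 : lamD add w m = lamD add w m' := h (Sum.inl ⟨w, hw⟩)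
          have h3 : ∑ j, w j * (((if add j then 0 else (m j : ℤ) - (m' j : ℤ) : ℤ)) : ℂ) =
              lamD add w m - lamD add w m' := by
            unfold lamD
            rw [← Finset.sum_sub_distrib]
            apply Finset.sum_congr rfl
            intro j _
            split_ifs
            · simp
            · push_cast; ring
          rw [h3, h2, sub_self])
        (fun g hg => by
          have h2 : lamT add g m = lamT add g m' := h (Sum.inr ⟨g, hg⟩)
          have h0 : lamT add g m' ≠ 0 := by
            unfold lamT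
            apply Finset.prod_ne_zero_iff.mpr
            intro j _
            split_ifs with hj
            · exact one_ne_zero
            · exact pow_ne_zero _ (hGG g hg j (by simpa using hj))
          have h3 : (∏ j, (if add j then 1 else
              g j ^ (if add j then 0 else (m j : ℤ) - (m' j : ℤ) : ℤ))) * lamT add g m' =
              lamT add g m := by
            unfold lamT
            rw [← Finset.prod_mul_distrib]
            apply Finset.prod_congr rfl
            intro j _
            by_cases hj : add j = true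
            · simp [hj]
            · have hgj : g j ≠ 0 := hGG g hg j (by simpa using hj)
              simp only [hj, Bool.false_eq_true, if_false]
              rw [zpow_sub₀ hgj, zpow_natCast, zpow_natCast, div_mul_cancel₀]
              exact pow_ne_zero _ hgj
          rw [h2] at h3
          exact mul_right_cancel₀ h0 (h3.trans (one_mul _).symm))
      have h4 : ∑ j, v j * (((if add j then 0 else (m j : ℤ) - (m' j : ℤ) : ℤ)) : ℂ) =
          lamD add v m - lamD add v m' := by
        unfold lamD
        rw [← Finset.sum_sub_distrib]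
        apply Finset.sum_congr rfl
        intro j _
        split_ifs
        · simp
        · push_cast; ring
      rw [h4] at h1
      exact sub_eq_zero.mp h1)
    f.support.card f hfb hf le_rfl
  choose g hgV hgp hg using hsplit
  have hsum : tr add (gv add v t) f =
      ∑ ν ∈ f.support.image (lamD add v), Complex.exp (t * ν) • g ν := by
    ext m
    have hgz : ∀ j, add j = true → gv add v t j = 0 := by
      intro j hj
      unfold gv
      rw [if_pos hj]
    rw [coeff_tr_torus add _ hgz, lamT_gv, coeff_sum]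
    by_cases hm : m ∈ f.support
    · rw [Finset.sum_eq_single (lamD add v m)]
      · rw [coeff_smul, hg, if_pos rfl, smul_eq_mul]
      · intro μ _ hμ
        rw [coeff_smul, hg, if_neg (Ne.symm hμ), smul_zero]
      · intro h
        exact absurd (Finset.mem_image_of_mem _ hm) h
    · rw [Finset.sum_eq_zero]
      · rw [MvPolynomial.notMem_support_iff.mp hm]; simp
      · intro μ _
        rw [coeff_smul, hg, MvPolynomial.notMem_support_iff.mp hm]
        simp
  rw [hsum]
  apply Ideal.sum_mem
  intro ν _
  rw [smul_eq_C_mul]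
  exact P.mul_mem_left _ (hgp ν)

/-- **stability under the torus of the relations of bounded size** -/
theorem torus_stab (P : Ideal (MvPolynomial σ ℂ)) (hP : GPrime add P) (L : σ → ℕ) (B0 : Finset σ)
    (hB0 : Indep P (B0 : Set σ))
    (hmax : ∀ Q', GPrime add Q' → (∀ f ∈ P, f ∈ box ℂ L 1 → f ∈ Q') → ∀ B : Finset σ,
        Indep Q' (B : Set σ) → B.card ≤ B0.card) (WP GP : Set (σ → ℂ))
    (hW : ∀ w ∈ WP, ∀ f ∈ P, der add w f ∈ P) (hG : ∀ g ∈ GP, ∀ f ∈ P, tr add g f ∈ P)
    (hGG : ∀ g ∈ GP, IsG add g) (v : σ → ℂ)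
    (hv : ∀ m : σ → ℤ, (∀ j, add j = true → m j = 0) → (∀ j, |m j| ≤ L j) →
      (∀ w ∈ WP, ∑ j, w j * (m j : ℂ) = 0) →
      (∀ g ∈ GP, ∏ j, (if add j then 1 else g j ^ (m j)) = 1) → ∑ j, v j * (m j : ℂ) = 0)
    (t : ℂ) (f : MvPolynomial σ ℂ) (hf : f ∈ P) : tr add (gv add v t) f ∈ P := by
  classical
  set I : Ideal (MvPolynomial σ ℂ) := Ideal.span {f | f ∈ P ∧ f ∈ box ℂ L 1} with hI
  set Q : ℂ → Ideal (MvPolynomial σ ℂ) := fun t => trI add (gv add v t) P with hQ
  have hQadd : ∀ t t', Q (t + t') = trI add (gv add v t) (Q t') := by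
    intro t t'
    simp only [hQ]
    rw [Pool.Agent.H301R2.ZG.trI_trI, gmul_gv]
  have hQ0 : Q 0 = P := by
    simp only [hQ]
    rw [gv_zero, Pool.Agent.H301R2.ZG.trI_gone]
  have hbox : ∀ t, ∀ f ∈ P, f ∈ box ℂ L 1 → f ∈ Q t := by
    intro t f hf hfb
    exact box_stab add P L WP GP hW hG hGG v hv f hf hfb t
  have hIQ : ∀ t, I ≤ Q t := by
    intro t
    rw [hI, Ideal.span_le]
    rintro f ⟨hf, hfb⟩
    exact hbox t f hf hfb
  have hmin : ∀ t, Q t ∈ I.minimalPrimes := by
    intro t
    have hG' : GPrime add (Q t) := hP.trI add _ (isG_gv add v t)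
    refine ⟨⟨hG'.1, hIQ t⟩, ?_⟩
    rintro q ⟨hq1, hq2⟩ hle
    have hqG : GPrime add q := ⟨hq1, fun j hj hX => hG'.2 j hj (hle hX)⟩
    have h1 : q = Q t := by
      refine Pool.Agent.H301R2.ZG.eq_of_le (B := (B0 : Set σ)) hq1 hG'.1 hle
        (hB0.trI add _ (isG_gv add v t)) ?_
      intro j hj hI'
      have h2 := hmax q hqG (fun f hf hfb => hq2 (Ideal.subset_span ⟨hf, hfb⟩)) (insert j B0)
        (by rw [Finset.coe_insert]; exact hI')
      rw [Finset.card_insert_of_notMem (by simpa using hj)] at h2
      omega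
    rw [h1]
  have hfin := Ideal.finite_minimalPrimes_of_isNoetherianRing (MvPolynomial σ ℂ) I
  set N := hfin.toFinset.card with hN
  set τ : ℂ := t / (N.factorial : ℂ) with hτ
  obtain ⟨i, hi, j, hj, hij, hQij⟩ : ∃ i ∈ Finset.range (N + 1), ∃ j ∈ Finset.range (N + 1),
      i ≠ j ∧ Q (i * τ) = Q (j * τ) := by
    apply Finset.exists_ne_map_eq_of_card_lt_of_maps_to (t := hfin.toFinset)
    · rw [Finset.card_range]; omega
    · intro k _
      exact hfin.mem_toFinset.mpr (hmin _)
  obtain ⟨d, hd1, hdN, hQd⟩ : ∃ d : ℕ, 1 ≤ d ∧ d ≤ N ∧ Q (d * τ) = P := by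
    have key : ∀ i j : ℕ, i < j → j ≤ N → Q (i * τ) = Q (j * τ) →
        ∃ d : ℕ, 1 ≤ d ∧ d ≤ N ∧ Q (d * τ) = P := by
      intro i j hij hjN h
      refine ⟨j - i, by omega, by omega, ?_⟩
      have e1 : Q (j * τ) = trI add (gv add v (i * τ)) (Q (((j - i : ℕ) : ℂ) * τ)) := by
        rw [← hQadd]
        congr 1
        rw [Nat.cast_sub hij.le]; ring
      have e2 : Q (i * τ) = trI add (gv add v (i * τ)) P := rfl
      rw [e1, e2] at h
      have h2 := congrArg (trI add (gv add v (-(i * τ)))) h
      rw [Pool.Agent.H301R2.ZG.trI_trI, Pool.Agent.H301R2.ZG.trI_trI, gmul_gv,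
        neg_add_cancel, gv_zero, Pool.Agent.H301R2.ZG.trI_gone,
        Pool.Agent.H301R2.ZG.trI_gone] at h2
      exact h2.symm
    rw [Finset.mem_range] at hi hj
    rcases Nat.lt_or_gt_of_ne hij with h | h
    · exact key i j h (by omega) hQij
    · exact key j i h (by omega) hQij.symm
  have hmul : ∀ k : ℕ, Q ((k : ℂ) * (d * τ)) = P := by
    intro k
    induction k with
    | zero => rw [Nat.cast_zero, zero_mul, hQ0]
    | succ k ih =>
      have : ((k + 1 : ℕ) : ℂ) * (d * τ) = d * τ + k * (d * τ) := by push_cast; ring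
      rw [this, hQadd, ih]
      exact hQd
  obtain ⟨k, hk⟩ := Nat.dvd_factorial hd1 hdN
  have ht : (k : ℂ) * (d * τ) = t := by
    have h1 : (N.factorial : ℂ) ≠ 0 := by exact_mod_cast N.factorial_ne_zero
    have h2 : ((k : ℂ) * d) = (N.factorial : ℂ) := by
      rw [hk]; push_cast; ring
    rw [← mul_assoc, h2, hτ]
    field_simp
  have h3 := hmul k
  rw [ht] at h3
  have h4 : f ∈ Q t := by rw [h3]; exact hf
  exact h4

end Pool.Agent.H70.QM
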