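import Mathlib
import Pool.Agent.H70.QM.Torus
import Pool.Graph.R_seed8.H335R2.Obs.Final
import Pool.Graph.R_seed8.H335R2.Obs.LinAlg2

/-!
The key inequality with an obstruction of bounded size: the multiplicative relations are generated
by relations of size at most `M`, and the points in the subgroup by points of size at most `S`.
-/

open MvPolynomial Finset
open Module (finrank)

set_option autoImplicit false

namespace Pool.Agent.H70.QM

open Pool.Agent.H364R2 Pool.Agent.H301R2.TR Pool.Agent.H335R2 Pool.Agent.H335R2.Obs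

section

variable {w b l : ℕ} (A : Finset (Fin w)) (γ : Fin w → Fin b → ℂ) (α : Fin w → Fin l → ℂ)
  (χ : Fin b → Fin l → ℂ) (WPm : Submodule ℂ (Fin w → ℂ)) (G : AddSubgroup (Fin l → ℤ))

/-- additive relations -/
def AfG : Submodule ℂ (Fin w → ℂ) where
  carrier := {a | (∀ i ∉ A, a i = 0) ∧ (∀ c ∈ WPm, ∑ i, a i * c i = 0) ∧
    ∀ s ∈ G, ∑ i, a i * ∑ p, α i p * (s p : ℂ) = 0}
  zero_mem' := by simp
  add_mem' := by
    rintro a a' ⟨h1, h2, h3⟩ ⟨h1', h2', h3'⟩
    refine ⟨fun i hi => ?_, fun c hc => ?_, fun s hs => ?_⟩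
    · rw [Pi.add_apply, h1 i hi, h1' i hi, add_zero]
    · simp only [Pi.add_apply, add_mul, Finset.sum_add_distrib, h2 c hc, h2' c hc, add_zero]
    · simp only [Pi.add_apply, add_mul, Finset.sum_add_distrib, h3 s hs, h3' s hs, add_zero]
  smul_mem' := by
    rintro r a ⟨h1, h2, h3⟩
    refine ⟨fun i hi => ?_, fun c hc => ?_, fun s hs => ?_⟩
    · rw [Pi.smul_apply, h1 i hi, smul_zero]
    · simp only [Pi.smul_apply, smul_eq_mul, mul_assoc, ← Finset.mul_sum, h2 c hc, mul_zero]
    · simp only [Pi.smul_apply, smul_eq_mul, mul_assoc, ← Finset.mul_sum, h3 s hs, mul_zero]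

/-- multiplicative relations -/
def RmG (hχ : ∀ j p, χ j p ≠ 0) : AddSubgroup (Fin b → ℤ) where
  carrier := {m | (∀ c ∈ WPm, ∑ j, (m j : ℂ) * ∑ i, c i * γ i j = 0) ∧
    ∀ s ∈ G, ∏ j, (∏ p, χ j p ^ s p) ^ m j = 1}
  zero_mem' := by simp
  add_mem' := by
    rintro m m' ⟨h1, h2⟩ ⟨h1', h2'⟩
    refine ⟨fun c hc => ?_, fun s hs => ?_⟩
    · simp only [Pi.add_apply, Int.cast_add, add_mul, Finset.sum_add_distrib, h1 c hc, h1' c hc,
        add_zero]
    · have h0 : ∀ j, (∏ p, χ j p ^ s p) ≠ 0 := fun j =>
        Finset.prod_ne_zero_iff.mpr (fun p _ => zpow_ne_zero _ (hχ j p))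
      simp only [Pi.add_apply, zpow_add₀ (h0 _), Finset.prod_mul_distrib, h2 s hs, h2' s hs, mul_one]
  neg_mem' := by
    rintro m ⟨h1, h2⟩
    refine ⟨fun c hc => ?_, fun s hs => ?_⟩
    · simp only [Pi.neg_apply, Int.cast_neg, neg_mul, Finset.sum_neg_distrib, h1 c hc, neg_zero]
    · simp only [Pi.neg_apply, zpow_neg, Finset.prod_inv_distrib, h2 s hs, inv_one]

/-- the subgroup generated by the elements of size at most `N` -/
def small {n : ℕ} (N : ℕ) (R : AddSubgroup (Fin n → ℤ)) : AddSubgroup (Fin n → ℤ) :=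
  AddSubgroup.closure {m | m ∈ R ∧ ∀ j, |m j| ≤ N}

theorem small_le {n : ℕ} (N : ℕ) (R : AddSubgroup (Fin n → ℤ)) : small N R ≤ R := by
  rw [small, AddSubgroup.closure_le]
  exact fun m hm => hm.1

theorem mem_small {n N : ℕ} {R : AddSubgroup (Fin n → ℤ)} {m : Fin n → ℤ} (hm : m ∈ R)
    (h : ∀ j, |m j| ≤ N) : m ∈ small N R :=
  AddSubgroup.subset_closure ⟨hm, h⟩

theorem small_small {n : ℕ} (N : ℕ) (R : AddSubgroup (Fin n → ℤ)) :
    small N (small N R) = small N R := by
  apply le_antisymm (small_le N _)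
  rw [small, AddSubgroup.closure_le]
  exact fun m hm => mem_small (mem_small hm.1 hm.2) hm.2

theorem small_mono {n : ℕ} {N N' : ℕ} (h : N ≤ N') (R : AddSubgroup (Fin n → ℤ))
    (hR : small N R = R) : small N' R = R := by
  apply le_antisymm (small_le N' _)
  conv_lhs => rw [← hR]
  rw [small, AddSubgroup.closure_le]
  intro m hm
  exact mem_small hm.1 fun j => (hm.2 j).trans (by exact_mod_cast h)

/-- the elements of `ℤ ^ n` in the complex span of a subgroup are detected by linear forms -/
theorem mem_kSpan_of_forms {n : ℕ} (R : AddSubgroup (Fin n → ℤ)) (m : Fin n → ℂ)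
    (h : ∀ v : Fin n → ℂ, (∀ ρ ∈ R, ∑ j, v j * ((ρ j : ℤ) : ℂ) = 0) → ∑ j, v j * m j = 0) :
    m ∈ kSpan ℂ R := by
  by_contra hcon
  obtain ⟨f, hf, hle⟩ := Submodule.exists_le_ker_of_notMem hcon
  have hform : ∀ x : Fin n → ℂ, f x = ∑ j, f (Pi.single j 1) * x j := by
    intro x
    have : x = ∑ j, x j • (Pi.single j (1 : ℂ) : Fin n → ℂ) := by
      funext i
      rw [Finset.sum_apply, Finset.sum_eq_single i]
      · simp
      · intro j _ hj
        simp [Pi.single_eq_of_ne hj.symm]
      · intro h; exact absurd (Finset.mem_univ i) h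
    conv_lhs => rw [this]
    rw [map_sum]
    apply Finset.sum_congr rfl
    intro j _
    rw [map_smul, smul_eq_mul, mul_comm]
  apply hf
  rw [hform]
  apply h
  intro ρ hρ
  have h1 : f (fun j => ((ρ j : ℤ) : ℂ)) = 0 := hle (Submodule.subset_span ⟨ρ, hρ, rfl⟩)
  rw [hform] at h1
  exact h1

end

section Obstruction

variable {w b l : ℕ} (A : Finset (Fin w)) (γ : Fin w → Fin b → ℂ) (α : Fin w → Fin l → ℂ)
  (χ : Fin b → Fin l → ℂ)

/-- **the key inequality** for a polynomial with many zeros, with an obstruction of bounded size -/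
theorem key_small (hχ : ∀ j p, χ j p ≠ 0) (K M T S : ℕ) (hK : 1 ≤ K) (hM : 1 ≤ M)
    {J : Type} [Fintype J] (p : J → ℂ) (k : J → Fin w → ℕ) (m : J → Fin b → ℕ)
    (hk : ∀ j, ∀ i ∉ A, k j i = 0) (hinj : ∀ j j', k j = k j' → m j = m j' → j = j') (hp : p ≠ 0)
    (hkK : ∀ j i, k j i ≤ K) (hmM : ∀ j q, m j q ≤ M)
    (hvan : ∀ (t : Fin w → ℕ) (s : Fin l → ℕ), (∀ i, t i ≤ (A.card + b) * T) →
      (∀ q, s q ≤ (A.card + b) * S) → ∑ j, p j * entG γ α χ (k j) (m j) t s = 0) :
    ∃ (Af' : Submodule ℂ (Fin w → ℂ)) (Rm' : AddSubgroup (Fin b → ℤ))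
      (W0 : Submodule ℂ (Fin w → ℂ)) (G0 : AddSubgroup (Fin l → ℤ)),
      (∀ a ∈ Af', ∀ i ∉ A, a i = 0) ∧ ¬ (Af' = ⊥ ∧ Rm' = ⊥) ∧
      small M Rm' = Rm' ∧ small S G0 = G0 ∧
      (∀ c, c ∈ W0 ↔ (∀ a ∈ Af', ∑ i, a i * c i = 0) ∧
        ∀ m ∈ Rm', ∑ j, (m j : ℂ) * ∑ i, c i * γ i j = 0) ∧
      (∀ s ∈ G0, (∀ a ∈ Af', ∑ i, a i * ∑ p, α i p * (s p : ℂ) = 0) ∧
        ∀ m ∈ Rm', ∏ j, (∏ p, χ j p ^ s p) ^ m j = 1) ∧
      ∃ l' q' : ℕ, l' ≤ w ∧ w ≤ l' + finrank ℂ W0 ∧ l ≤ q' + finrank ℤ G0 ∧
        (S + 1) ^ q' * (T / l' + 1) ^ l' ≤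
          2 ^ ((A.card + b + 1) * (A.card + b)) *
            (K ^ finrank ℂ Af' * M ^ finrank ℤ Rm') := by
  classical
  have hcard : Fintype.card (Ix A b) = A.card + b := by
    rw [Fintype.card_sum, Fintype.card_coe, Fintype.card_fin]
  set L : Ix A b → ℕ := Sum.elim (fun _ => K) (fun _ => M) with hL
  -- the set of points
  let bx : Finset (Fin l → ℤ) := Fintype.piFinset (fun _ => Finset.Icc (0 : ℤ) S)
  have hbx : ∀ s ∈ bx, ∀ q, 0 ≤ s q ∧ s q ≤ S := by
    intro s hs q
    exact Finset.mem_Icc.mp (Fintype.mem_piFinset.mp hs q)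
  let Γ₁ : Finset (Ix A b → ℂ) := bx.image (pt A α χ)
  obtain ⟨P, hP, hP0, ⟨B0, hB0, hmaxB⟩, hmain⟩ := zero_estimate_grp_max (ad A b) (Wd A γ) Γ₁ T
    (aux A γ p k m) L
    (by rintro (i | j) <;> simp [hL, hK, hM])
    (by
      intro g hg
      obtain ⟨s, -, rfl⟩ := Finset.mem_image.mp hg
      exact isG_pt A α χ hχ s)
    (aux_ne_zero A γ p k m hk hinj hp) (aux_mem_box A γ p k m hk K M hkK hmM)
    (by
      intro ks gs h1 h2 h3
      rw [hcard] at h1 h2
      obtain ⟨ss, hss, rfl⟩ : ∃ ss : List (Fin l → ℤ), (∀ s ∈ ss, s ∈ bx) ∧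
          gs = ss.map (pt A α χ) := by
        clear h2
        induction gs with
        | nil => exact ⟨[], by simp, rfl⟩
        | cons g gs ih =>
          obtain ⟨ss, h4, h5⟩ := ih (fun g hg => h3 g (List.mem_cons_of_mem _ hg))
          obtain ⟨s, hs, hsg⟩ := Finset.mem_image.mp (h3 g List.mem_cons_self)
          refine ⟨s :: ss, ?_, by rw [List.map_cons, hsg, h5]⟩
          intro s' hs'
          rcases List.mem_cons.mp hs' with rfl | h
          · exact hs
          · exact h4 s' h
      rw [List.length_map] at h2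
      have hsum : ∀ ss : List (Fin l → ℤ), (∀ s ∈ ss, s ∈ bx) → ∀ q, 0 ≤ ss.sum q ∧
          ss.sum q ≤ ss.length * S := by
        intro ss
        induction ss with
        | nil => intro _ q; simp
        | cons s ss ih =>
          intro h q
          have h5 := ih (fun s' hs' => h s' (List.mem_cons_of_mem _ hs')) q
          have h6 := hbx s (h s List.mem_cons_self) q
          rw [List.sum_cons, List.length_cons, Pi.add_apply]
          push_cast
          constructor
          · linarith [h5.1, h6.1]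
          · nlinarith [h5.2, h6.2]
      have hs := hsum ss hss
      have hrep : ss.sum = fun q => (((ss.sum q).toNat : ℕ) : ℤ) := by
        funext q
        rw [Int.toNat_of_nonneg (hs q).1]
      rw [prodG_map_pt A α χ hχ, hrep, eval_derIter_aux A α χ γ p k m hk]
      apply hvan
      · intro i
        exact (List.count_le_length).trans h1
      · intro q
        have h4 := (hs q).2
        have h5 : (ss.length : ℤ) * S ≤ ((A.card + b : ℕ) : ℤ) * S := by
          have : (ss.length : ℤ) ≤ ((A.card + b : ℕ) : ℤ) := by exact_mod_cast h2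
          nlinarith
        have h6 : (ss.sum q).toNat ≤ (A.card + b) * S := by
          rw [Int.toNat_le]
          push_cast
          push_cast at h5
          linarith
        exact h6)
  rw [hcard] at hmain
  -- the relations of bounded size
  set WPm := WP A γ P with hWPm
  set GS : AddSubgroup (Fin l → ℤ) := small S (GPs A α χ P hχ) with hGS
  have hGSle : GS ≤ GPs A α χ P hχ := small_le _ _
  set Af2 : Submodule ℂ (Fin w → ℂ) := AfG A α WPm GS with hAf2
  set Rm2 : AddSubgroup (Fin b → ℤ) := RmG γ χ WPm GS hχ with hRm2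
  set RmS : AddSubgroup (Fin b → ℤ) := small M Rm2 with hRmS
  have hRmSle : RmS ≤ Rm2 := small_le _ _
  -- coordinates
  obtain ⟨EW, hEW1, hEW2⟩ := coord (WP A γ P)
  obtain ⟨EG, hEG1, hEG2⟩ := finrank_toInt GS
  obtain ⟨EA, hEA1, hEA2⟩ := coord Af2
  obtain ⟨ER, hER1, hER2⟩ := coord (kSpan ℂ RmS)
  rw [finrank_kSpan] at hER1
  let E : Finset (Ix A b) := univ.filter (Sum.elim (fun i => (i : Fin w) ∈ EA) (fun j => j ∈ ER))
  have htr : ∀ s ∈ GS, ∀ f ∈ P, tr (ad A b) (pt A α χ s) f ∈ P := by
    intro s hs f hf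
    have hs' : trI (ad A b) (pt A α χ s) P = P := hGSle hs
    rw [← mem_trI, hs']; exact hf
  have hRmem : ∀ bb : Ix A b → ℤ, (∀ j, ad A b j = true → bb j = 0) →
      (∀ v ∈ {v | ∃ c ∈ WP A γ P, v = fun j => ∑ k, c k * Wd A γ k j}, ∑ j, v j * (bb j : ℂ) = 0) →
      (∀ g ∈ {g | ∃ s ∈ GS, g = pt A α χ s}, ∏ j, (if ad A b j then 1 else g j ^ (bb j)) = 1) →
      (fun j => bb (Sum.inr j)) ∈ Rm2 := by
    intro bb hbl h1 h2
    refine ⟨fun c hc => ?_, fun s hs => ?_⟩
    · have h3 := h1 _ ⟨c, hc, rfl⟩
      rw [Fintype.sum_sum_type] at h3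
      have hbl' : ∀ i : {i // i ∈ A}, bb (Sum.inl i) = 0 := fun i => hbl _ rfl
      simp only [hbl', Int.cast_zero, mul_zero, Finset.sum_const_zero, zero_add] at h3
      rw [← h3]
      apply Finset.sum_congr rfl
      intro j _
      rw [mul_comm]
      rfl
    · have h3 := h2 _ ⟨s, hs, rfl⟩
      rw [Fintype.prod_sum_type] at h3
      simp only [ad, Sum.elim_inl, if_true, Finset.prod_const_one, one_mul, Sum.elim_inr,
        Bool.false_eq_true, if_false] at h3
      rw [← h3]
      rfl
  have hE : Indep P (E : Set (Ix A b)) := by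
    refine Pool.Agent.H340R2.Stab.indep_of_stab_gen (ad A b) P hP (E : Set (Ix A b))
      {v | ∃ c ∈ WP A γ P, v = fun j => ∑ k, c k * Wd A γ k j}
      ({g | ∃ s ∈ GS, g = pt A α χ s} ∪
        {g | ∃ (v : Ix A b → ℂ) (t : ℂ), (∀ m ∈ RmS, ∑ j, v (Sum.inr j) * ((m j : ℤ) : ℂ) = 0) ∧
          g = gv (ad A b) v t}) ?_ ?_ ?_ ?_ ?_
    · rintro _ ⟨c, hc, rfl⟩ f _ hf
      exact hc f hf
    · rintro _ (⟨s, -, rfl⟩ | ⟨v, t, -, rfl⟩)
      · exact isG_pt A α χ hχ s
      · exact isG_gv _ v t
    · rintro _ (⟨s, hs, rfl⟩ | ⟨v, t, hv, rfl⟩) f _ hf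
      · exact htr s hs f hf
      · refine torus_stab (ad A b) P hP L B0 hB0 hmaxB
          {v | ∃ c ∈ WP A γ P, v = fun j => ∑ k, c k * Wd A γ k j}
          {g | ∃ s ∈ GS, g = pt A α χ s} ?_ ?_ ?_ v ?_ t f hf
        · rintro _ ⟨c, hc, rfl⟩ f hf
          exact hc f hf
        · rintro _ ⟨s, hs, rfl⟩ f hf
          exact htr s hs f hf
        · rintro _ ⟨s, -, rfl⟩
          exact isG_pt A α χ hχ s
        · intro mm h0 hsm h1 h2
          have h3 := hRmem mm h0 h1 h2
          have h4 : (fun j => mm (Sum.inr j)) ∈ RmS := mem_small h3 fun j => hsm (Sum.inr j)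
          have h5 := hv _ h4
          rw [Fintype.sum_sum_type]
          have hbl' : ∀ i : {i // i ∈ A}, mm (Sum.inl i) = 0 := fun i => h0 _ rfl
          simp only [hbl', Int.cast_zero, mul_zero, Finset.sum_const_zero, zero_add]
          exact h5
    · intro lf h0 h1 h2
      let a : Fin w → ℂ := fun i => if h : i ∈ A then lf (Sum.inl ⟨i, h⟩) else 0
      have hsum : ∀ v : Fin w → ℂ, ∑ i, a i * v i = ∑ i : {i // i ∈ A}, lf (Sum.inl i) * v i := by
        intro v
        rw [← Finset.sum_subset (Finset.subset_univ A)]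
        · rw [← Finset.sum_coe_sort A]
          apply Finset.sum_congr rfl
          intro i _
          simp [a]
        · intro i _ hi
          simp [a, hi]
      have hlr : ∀ j : Fin b, lf (Sum.inr j) = 0 := fun j => h0 _ (Or.inr rfl)
      have ha : a ∈ Af2 := by
        refine ⟨fun i hi => by simp [a, hi], fun c hc => ?_, fun s hs => ?_⟩
        · have h3 := h1 _ ⟨c, hc, rfl⟩
          rw [Fintype.sum_sum_type] at h3
          simp only [hlr, zero_mul, Finset.sum_const_zero, add_zero] at h3
          rw [hsum, ← h3]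
          apply Finset.sum_congr rfl
          intro i _
          congr 1
          simp [Wd]
        · have h3 := h2 _ (Or.inl ⟨s, hs, rfl⟩)
          rw [Fintype.sum_sum_type] at h3
          simp only [hlr, zero_mul, Finset.sum_const_zero, add_zero] at h3
          rw [hsum, ← h3]
          rfl
      have ha0 := hEA2 a ha (by
        intro i hi
        by_cases h : i ∈ A
        · simp only [a, dif_pos h]
          apply h0
          left
          simp [E, hi]
        · simp [a, h])
      rintro (i | j)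
      · have := congrFun ha0 i.1
        simpa [a] using this
      · exact hlr j
    · intro bb h0 h1 h2
      have hbl : ∀ i : {i // i ∈ A}, bb (Sum.inl i) = 0 := fun i => h0 _ (Or.inr rfl)
      have hmm : (fun j : Fin b => ((bb (Sum.inr j) : ℤ) : ℂ)) ∈ kSpan ℂ RmS := by
        apply mem_kSpan_of_forms
        intro v hv
        by_contra hne
        set c : ℂ := ∑ j, v j * ((bb (Sum.inr j) : ℤ) : ℂ) with hc
        have h3 := h2 (gv (ad A b) (Sum.elim (fun _ => 0) v) (1 / c)) (Or.inr ⟨_, _, by
          intro m hm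
          simpa using hv m hm, rfl⟩)
        rw [Fintype.prod_sum_type] at h3
        simp only [ad, Sum.elim_inl, if_true, Finset.prod_const_one, one_mul, Sum.elim_inr,
          Bool.false_eq_true, if_false, gv] at h3
        have h4 : ∏ j, Complex.exp (1 / c * v j) ^ bb (Sum.inr j) = Complex.exp 1 := by
          have h5 : ∀ j, Complex.exp (1 / c * v j) ^ bb (Sum.inr j) =
              Complex.exp (1 / c * (v j * ((bb (Sum.inr j) : ℤ) : ℂ))) := by
            intro j
            rw [← Complex.exp_int_mul]; congr 1; ring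
          simp only [h5]
          rw [← Complex.exp_sum, ← Finset.mul_sum, ← hc]
          congr 1
          field_simp
        rw [h4] at h3
        have h6 := congrArg norm h3
        rw [Complex.norm_exp, norm_one, Complex.one_re] at h6
        have h7 := Real.add_one_le_exp (1 : ℝ)
        linarith
      have h3 := hER2 _ hmm (by
        intro j hj
        have : bb (Sum.inr j) = 0 := by
          apply h0
          left
          simp [E, hj]
        simp [this])
      rintro (i | j)
      · exact hbl i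
      · have := congrFun h3 j
        simpa using this
  -- the set of translations
  let Δs : Finset (Fin l → ℤ) := Fintype.piFinset
    (fun q => if q ∈ EG then Finset.Icc (0 : ℤ) S else {0})
  have hΔs : ∀ s ∈ Δs, s ∈ bx := by
    intro s hs
    rw [Fintype.mem_piFinset] at hs ⊢
    intro q
    have := hs q
    split_ifs at this with h
    · exact this
    · rw [Finset.mem_singleton] at this
      rw [this]
      simp
  have hΔsep : ∀ s ∈ Δs, ∀ s' ∈ Δs,
      trI (ad A b) (pt A α χ s) P = trI (ad A b) (pt A α χ s') P → s = s' := by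
    intro s hs s' hs' h
    have h1 : s - s' ∈ GS := by
      refine mem_small ?_ (fun q => by
        have g1 := hbx s (hΔs s hs) q
        have g2 := hbx s' (hΔs s' hs') q
        rw [Pi.sub_apply, abs_le]
        constructor <;> linarith)
      change trI (ad A b) (pt A α χ (s - s')) P = P
      have h2 : pt A α χ (s - s') = gmul (ad A b) (pt A α χ (-s')) (pt A α χ s) := by
        rw [pt_add A α χ hχ]; congr 1; ring
      rw [h2, ← trI_trI, h, trI_trI, pt_add A α χ hχ, neg_add_cancel, pt_zero, trI_gone]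
    have h2 := hEG2 _ h1 (by
      intro q hq
      rw [Fintype.mem_piFinset] at hs hs'
      have h3 := hs q
      have h4 := hs' q
      rw [if_neg hq, Finset.mem_singleton] at h3 h4
      rw [Pi.sub_apply, h3, h4, sub_zero])
    exact sub_eq_zero.mp h2
  have hΔcard : (Δs.image (pt A α χ)).card = (S + 1) ^ EG.card := by
    rw [Finset.card_image_of_injOn]
    · rw [Fintype.card_piFinset]
      have : ∀ q, (if q ∈ EG then Finset.Icc (0 : ℤ) S else {0}).card =
          if q ∈ EG then S + 1 else 1 := by
        intro q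
        split_ifs
        · rw [Int.card_Icc]; omega
        · simp
      simp only [this]
      rw [Finset.prod_ite_mem, Finset.univ_inter, Finset.prod_const]
    · intro s hs s' hs' h
      exact hΔsep s hs s' hs' (by rw [h])
  -- the derivations
  let e := EW.equivFin.symm
  have hineq := hmain E hE (Δs.image (pt A α χ)) (Finset.image_subset_image hΔs) (by
      intro g hg g' hg' h
      obtain ⟨s, hs, rfl⟩ := Finset.mem_image.mp hg
      obtain ⟨s', hs', rfl⟩ := Finset.mem_image.mp hg'
      rw [hΔsep s hs s' hs' h]) EW.card (fun k => Wd A γ (e k).1)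
    (fun k => Submodule.subset_span ⟨_, rfl⟩) (by
      intro c hc
      have h1 : (fun i => if h : i ∈ EW then c (e.symm ⟨i, h⟩) else 0) ∈ WP A γ P := by
        have hfun : (fun j => ∑ k, (if h : k ∈ EW then c (e.symm ⟨k, h⟩) else 0) * Wd A γ k j) =
            (fun j => ∑ k, c k * Wd A γ (e k).1 j) := by
          funext j
          have h3 : ∑ k, (if h : k ∈ EW then c (e.symm ⟨k, h⟩) else 0) * Wd A γ k j =
              ∑ k ∈ EW, (if h : k ∈ EW then c (e.symm ⟨k, h⟩) else 0) * Wd A γ k j := by
            symm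
            apply Finset.sum_subset (Finset.subset_univ _)
            intro k _ hk
            rw [dif_neg hk, zero_mul]
          rw [h3, ← Finset.sum_coe_sort EW, ← Equiv.sum_comp e]
          apply Finset.sum_congr rfl
          intro k _
          rw [dif_pos (e k).2]
          simp
        intro f hf
        have h2 := hc f hf
        rw [← hfun] at h2
        exact h2
      have h2 := hEW2 _ h1 (by
        intro i hi
        rw [dif_neg hi])
      funext k
      have h3 := congrFun h2 (e k).1
      simpa using h3)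
  -- conclusion
  let W0 : Submodule ℂ (Fin w → ℂ) :=
    { carrier := {c | (∀ a ∈ Af2, ∑ i, a i * c i = 0) ∧
        ∀ m ∈ RmS, ∑ j, (m j : ℂ) * ∑ i, c i * γ i j = 0}
      zero_mem' := by simp
      add_mem' := by
        rintro c c' ⟨h1, h2⟩ ⟨h1', h2'⟩
        refine ⟨fun a ha => ?_, fun m hm => ?_⟩
        · simp only [Pi.add_apply, mul_add, Finset.sum_add_distrib, h1 a ha, h1' a ha, add_zero]
        · simp only [Pi.add_apply, add_mul, Finset.sum_add_distrib, mul_add, h2 m hm, h2' m hm,
            add_zero]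
      smul_mem' := by
        rintro r c ⟨h1, h2⟩
        refine ⟨fun a ha => ?_, fun m hm => ?_⟩
        · have := h1 a ha
          simp only [Pi.smul_apply, smul_eq_mul]
          have e1 : ∑ i, a i * (r * c i) = r * ∑ i, a i * c i := by
            rw [Finset.mul_sum]; apply Finset.sum_congr rfl; intro i _; ring
          rw [e1, this, mul_zero]
        · have := h2 m hm
          simp only [Pi.smul_apply, smul_eq_mul]
          have e1 : ∑ j, (m j : ℂ) * ∑ i, r * c i * γ i j =
              r * ∑ j, (m j : ℂ) * ∑ i, c i * γ i j := by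
            rw [Finset.mul_sum]; apply Finset.sum_congr rfl; intro j _
            rw [Finset.mul_sum, Finset.mul_sum, Finset.mul_sum]
            apply Finset.sum_congr rfl; intro i _; ring
          rw [e1, this, mul_zero] }
  refine ⟨Af2, RmS, W0, GS, fun a ha => ha.1, ?_, small_small _ _, small_small _ _,
    fun c => Iff.rfl, fun s hs => ⟨fun a ha => ha.2.2 s hs, fun m hm => (hRmSle hm).2 s hs⟩,
    EW.card, EG.card, ?_, ?_, ?_, ?_⟩
  · rintro ⟨hA0, hR0⟩
    apply hP0
    have hEu : E = univ := by
      rw [hA0, finrank_bot] at hEA1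
      rw [hR0] at hER1
      have hER1' : (univ \ ER).card = 0 := by
        rw [hER1]
        exact Module.finrank_zero_of_subsingleton
      rw [Finset.card_eq_zero, Finset.sdiff_eq_empty_iff_subset] at hEA1 hER1'
      ext i
      simp only [E, Finset.mem_filter, Finset.mem_univ, true_and, iff_true]
      rcases i with i | j
      · exact hEA1 (Finset.mem_univ _)
      · exact hER1' (Finset.mem_univ _)
    rw [hEu, Finset.coe_univ] at hE
    rw [eq_bot_iff]
    intro f hf
    rw [Ideal.mem_bot]
    exact hE f (by rw [supported_univ]; trivial) hf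
  · exact (Finset.card_le_univ EW).trans (by simp)
  · have h1 : WP A γ P ≤ W0 := by
      intro c hc
      exact ⟨fun a ha => ha.2.1 c hc, fun m hm => (hRmSle hm).1 c hc⟩
    have h2 := Submodule.finrank_mono h1
    have h3 : (univ \ EW).card + EW.card = w := by
      rw [Finset.card_sdiff_of_subset (Finset.subset_univ _), Finset.card_univ, Fintype.card_fin]
      have := Finset.card_le_univ EW
      rw [Fintype.card_fin] at this
      omega
    omega
  · have h3 : (univ \ EG).card + EG.card = l := by
      rw [Finset.card_sdiff_of_subset (Finset.subset_univ _), Finset.card_univ, Fintype.card_fin]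
      have := Finset.card_le_univ EG
      rw [Fintype.card_fin] at this
      omega
    omega
  · rw [hΔcard] at hineq
    refine hineq.trans (Nat.mul_le_mul_left _ ?_)
    have h1 : ∏ j ∈ univ \ E, L j ≤ K ^ (univ \ EA).card * M ^ (univ \ ER).card := by
      have h2 : ∏ j ∈ univ \ E, L j = ∏ j : Ix A b, if j ∈ E then 1 else L j := by
        rw [← Finset.prod_sdiff (Finset.subset_univ E) (f := fun j => if j ∈ E then 1 else L j)]
        rw [Finset.prod_congr rfl (g := L) (fun j hj => if_neg (Finset.mem_sdiff.mp hj).2),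
          Finset.prod_congr (s₁ := E) (f := fun j => if j ∈ E then 1 else L j) (g := fun _ => 1) rfl
            (fun j hj => if_pos hj), Finset.prod_const_one, mul_one]
      rw [h2, Fintype.prod_sum_type]
      apply Nat.mul_le_mul
      · have h3 : ∏ i : {i // i ∈ A}, (if (Sum.inl i : Ix A b) ∈ E then 1 else L (Sum.inl i)) =
            ∏ i ∈ A, (if i ∈ EA then 1 else K) := by
          rw [← Finset.prod_coe_sort A]
          apply Finset.prod_congr rfl
          intro i _
          simp [E, hL]
        rw [h3]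
        calc ∏ i ∈ A, (if i ∈ EA then 1 else K) ≤ ∏ i : Fin w, (if i ∈ EA then 1 else K) := by
              apply Finset.prod_le_prod_of_subset_of_one_le' (Finset.subset_univ _)
              intro i _ _
              split_ifs <;> omega
          _ = K ^ (univ \ EA).card := by
              rw [← Finset.prod_const, ← Finset.prod_sdiff (Finset.subset_univ EA)]
              rw [Finset.prod_congr rfl (g := fun _ => K)
                (fun j hj => if_neg (Finset.mem_sdiff.mp hj).2),
                Finset.prod_congr (s₁ := EA) (g := fun _ => 1) rfl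
                (fun j hj => if_pos hj), Finset.prod_const_one, mul_one]
      · have h3 : ∏ i : Fin b, (if (Sum.inr i : Ix A b) ∈ E then 1 else L (Sum.inr i)) =
            M ^ (univ \ ER).card := by
          rw [← Finset.prod_const, ← Finset.prod_sdiff (Finset.subset_univ ER)]
          rw [Finset.prod_congr rfl (g := fun _ => M)
            (fun j hj => by
              have := (Finset.mem_sdiff.mp hj).2
              simp [E, hL, this]),
            Finset.prod_congr (s₁ := ER) (g := fun _ => 1) rfl
            (fun j hj => by simp [E, hj]), Finset.prod_const_one, mul_one]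
        rw [h3]
    rw [hEA1, hER1] at h1
    exact h1

end Obstruction

end Pool.Agent.H70.QM
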