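import Mathlib
import Pool.Agent.H70.QM.Aux2
import Pool.Agent.H70.QM.Key
import Pool.Agent.H70.QL.Obst
import Pool.Graph.R_seed8.H301R2.SSE.Lin

/-!
The uniform quantitative obstruction theorem with an obstruction of bounded size.
-/

set_option autoImplicit false

namespace Pool.Agent.H70.QM

open Finset Module Pool.Agent.H301R2.TR Pool.Agent.Y928.QN Pool.Agent.H335R2.Obs Pool.Agent.H70.QL

/-- **Quantitative obstruction theorem**, uniform in the analytic data, with an obstruction of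
bounded size. The data `γ, α, χ` are algebraic, of bounded degree and of
size at most `exp (η n ^ g)`, `exp (η n ^ h)`, and differ by less than `4 ^ (- n ^ (u + 1))` from
the data of an analytic subgroup. Then an obstruction exists, defined by multiplicative relations
of size at most `n ^ μ` and points of size at most `n ^ (σ + 1)`. -/
theorem obstruction_unif {w b l r : ℕ} (A : Finset (Fin w))
    (k μ σ h g t u e Dg : ℕ) (hμ : μ + σ = k) (hh : 1 ≤ h) (hg : 1 ≤ g) (hkh : k + h ≤ u + 1)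
    (htg : t + g ≤ u + 1) (hke : k + e ≤ u) (hte : t + e ≤ u) (hμ1 : 1 ≤ μ)
    (hcount : (u + 1) * (r + w) + 1 ≤ A.card * k + b * μ) :
    ∃ η : ℝ, 0 < η ∧ ∃ n0 : ℕ, ∀ n ≥ n0, ∀ (γ0 : Fin w → Fin b → ℂ)
      (ω : Fin w → Fin l → ℂ) (x : Fin r → Fin b → ℂ) (y : Fin r → Fin l → ℂ) (X0 : ℝ),
      1 ≤ X0 → X0 ^ 2 ≤ (n : ℝ) ^ e → (∀ i j, ‖γ0 i j‖ ≤ X0) → (∀ i p, ‖ω i p‖ ≤ X0) →
      (∀ ρ j, ‖x ρ j‖ ≤ X0) → (∀ ρ p, ‖y ρ p‖ ≤ X0) →
      ∀ (F : Type) [Field F] [NumberField F]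
      (φ : F →ₐ[ℚ] ℂ), Module.finrank ℚ F ≤ Dg → ∀ (γ : Fin w → Fin b → F)
      (α : Fin w → Fin l → F) (χ : Fin b → Fin l → F) (d1 d : ℕ) (R1 R0 : ℝ),
      0 < d1 → 0 < d → 1 ≤ R1 → 1 ≤ R0 → (d1 : ℝ) * R1 ≤ Real.exp (η * (n : ℝ) ^ g) →
      (d : ℝ) * R0 ≤ Real.exp (η * (n : ℝ) ^ h) →
      (∀ i j, IntD d1 1 (γ i j)) → (∀ i p, IntD d 1 (α i p)) → (∀ j p, IntD d 1 (χ j p)) →
      (∀ τ : F →ₐ[ℚ] ℂ, (∀ i j, ‖τ (γ i j)‖ ≤ R1) ∧ (∀ i p, ‖τ (α i p)‖ ≤ R0) ∧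
        (∀ j p, ‖τ (χ j p)‖ ≤ R0)) → (∀ j p, χ j p ≠ 0) →
      (∀ i j, ‖φ (γ i j) - γ0 i j‖ ≤ (1 / 4 : ℝ) ^ (n ^ (u + 1))) →
      (∀ i ∈ A, ∀ p, ‖φ (α i p) - ω i p‖ ≤ (1 / 4 : ℝ) ^ (n ^ (u + 1))) →
      (∀ j p, ‖φ (χ j p) - Complex.exp (∑ ρ, x ρ j * y ρ p + ∑ i, γ0 i j * ω i p)‖ ≤
        (1 / 4 : ℝ) ^ (n ^ (u + 1))) →
      ∃ (Af' : Submodule ℂ (Fin w → ℂ)) (Rm' : AddSubgroup (Fin b → ℤ))
      (W0 : Submodule ℂ (Fin w → ℂ)) (G0 : AddSubgroup (Fin l → ℤ)),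
      (∀ a ∈ Af', ∀ i ∉ A, a i = 0) ∧ small (n ^ μ) Rm' = Rm' ∧ small (n ^ (σ + 1)) G0 = G0 ∧
      (∀ c, c ∈ W0 ↔ (∀ a ∈ Af', ∑ i, a i * c i = 0) ∧
        ∀ m ∈ Rm', ∑ j, (m j : ℂ) * ∑ i, c i * φ (γ i j) = 0) ∧
      (∀ s ∈ G0, (∀ a ∈ Af', ∑ i, a i * ∑ p, φ (α i p) * (s p : ℂ) = 0) ∧
        ∀ m ∈ Rm', ∏ j, (∏ p, φ (χ j p) ^ s p) ^ m j = 1) ∧
      (w - finrank ℂ W0) * t + (l - finrank ℤ G0) * σ <
        finrank ℂ Af' * k + finrank ℤ Rm' * μ := by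
  classical
  set N := A.card + b with hN
  set C := 2 ^ ((N + 1) * N) with hC
  have hC1 : 1 ≤ C := Nat.one_le_two_pow
  obtain ⟨η, hη, n0, hn0⟩ := exists_aux_unif (l := l) A k μ σ h g t u e
    ((N + 1) * (w + 1) * (C + 1)) Dg hμ hh hg hkh htg hke hte hcount
    (Nat.succ_le_of_lt (by positivity))
  refine ⟨η, hη, max n0 ((w + 1) * (C + 1)), ?_⟩
  intro n hn γ0 ω x y X0 hX1 hX2 hγ0 hω0 hx0 hy0 F _ _ φ hDg γ α χ d1 d R1 R0 hd1 hd hR1 hR0
    hdR1 hdR0 dγ dα dχ hσ hχne hγ hα hχ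
  have hnC : (w + 1) * (C + 1) ≤ n := (le_max_right _ _).trans hn
  have hCw : C + 1 ≤ (w + 1) * (C + 1) := Nat.le_mul_of_pos_left _ (Nat.succ_pos _)
  obtain ⟨p, hp, hpv⟩ := hn0 n (by omega) γ0 ω x y X0 hX1 hX2 hγ0 hω0 hx0 hy0 F φ hDg γ α χ d1 d
    R1 R0 hd1 hd hR1 hR0 hdR1 hdR0 dγ dα dχ hσ hγ hα hχ
  have hχ0 : ∀ j p, φ (χ j p) ≠ 0 := fun j p => (map_ne_zero φ).mpr (hχne j p)
  have hn1 : 1 ≤ n := by omega
  obtain ⟨Af', Rm', W0, G0, h1, h2, hs1, hs2, h3, h4, l', q', h5, h6, h7, h8⟩ :=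
    key_small A (fun i j => φ (γ i j)) (fun i q => φ (α i q)) (fun j q => φ (χ j q)) hχ0
      (n ^ k) (n ^ μ) ((w + 1) * (C + 1) * n ^ t) ((w + 1) * (C + 1) * n ^ σ)
      (Nat.one_le_pow _ _ hn1) (Nat.one_le_pow _ _ hn1) p
      (fun j i => (j.1 i : ℕ)) (fun j i => (j.2 i : ℕ))
      (by
        intro j i hi
        have : (j.1 i : ℕ) < (if i ∈ A then n ^ k else 0) + 1 := (j.1 i).2
        rw [if_neg hi] at this
        omega)
      (by
        intro j j' h h'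
        apply Prod.ext
        · funext i; exact Fin.ext (congrFun h i)
        · funext i; exact Fin.ext (congrFun h' i))
      hp
      (by
        intro j i
        have : (j.1 i : ℕ) < (if i ∈ A then n ^ k else 0) + 1 := (j.1 i).2
        split_ifs at this <;> omega)
      (by
        intro j i
        have := (j.2 i).2
        omega)
      (by
        intro t s ht hs
        apply hpv t s
        · intro i
          refine (ht i).trans ?_
          rw [← hN, ← mul_assoc, ← mul_assoc]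
          exact Nat.mul_le_mul_right _ (Nat.mul_le_mul_right _ (Nat.mul_le_mul_right _
            (Nat.le_succ _)))
        · intro q
          refine (hs q).trans ?_
          rw [← hN, ← mul_assoc, ← mul_assoc]
          exact Nat.mul_le_mul_right _ (Nat.mul_le_mul_right _ (Nat.mul_le_mul_right _
            (Nat.le_succ _))))
  refine ⟨Af', Rm', W0, G0, h1, hs1, ?_, h3, h4, ?_⟩
  · apply small_mono _ _ hs2
    calc (w + 1) * (C + 1) * n ^ σ ≤ n * n ^ σ := Nat.mul_le_mul_right _ hnC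
      _ = n ^ (σ + 1) := by rw [pow_succ]; ring
  have h9 : ((C + 1) * n ^ σ) ^ q' * ((C + 1) * n ^ t) ^ l' ≤
      C * ((n ^ k) ^ finrank ℂ Af' * (n ^ μ) ^ finrank ℤ Rm') := by
    refine le_trans ?_ h8
    apply Nat.mul_le_mul
    · apply Nat.pow_le_pow_left
      calc (C + 1) * n ^ σ = 1 * ((C + 1) * n ^ σ) := (one_mul _).symm
        _ ≤ (w + 1) * ((C + 1) * n ^ σ) := Nat.mul_le_mul_right _ (by omega)
        _ = (w + 1) * (C + 1) * n ^ σ := by ring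
        _ ≤ _ := Nat.le_succ _
    · rcases Nat.eq_zero_or_pos l' with h0 | h0
      · rw [h0, pow_zero, pow_zero]
      · apply Nat.pow_le_pow_left
        have h10 : (C + 1) * n ^ t ≤ (w + 1) * (C + 1) * n ^ t / l' := by
          rw [Nat.le_div_iff_mul_le h0]
          calc (C + 1) * n ^ t * l' ≤ (C + 1) * n ^ t * (w + 1) := Nat.mul_le_mul_left _ (by omega)
            _ = _ := by ring
        omega
  have h10 := final_arith2 (k := k) (t := t) (μ := μ) (σ := σ) (n := n) (by omega) h9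
  have h11 : w - finrank ℂ W0 ≤ l' := by omega
  have h12 : l - finrank ℤ G0 ≤ q' := by omega
  have h13 : (w - finrank ℂ W0) * t ≤ l' * t := Nat.mul_le_mul_right _ h11
  have h14 : (l - finrank ℤ G0) * σ ≤ q' * σ := Nat.mul_le_mul_right _ h12
  rcases h10 with h10 | ⟨h10, h15, h16⟩
  · omega
  · exfalso
    rw [h15, h16] at h10
    have hk1 : 1 ≤ k := by omega
    have e0 : finrank ℂ Af' * k + finrank ℤ Rm' * μ = 0 := by omega
    have e1 : finrank ℂ Af' = 0 := by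
      rcases Nat.eq_zero_or_pos (finrank ℂ Af') with h | h
      · exact h
      · have := Nat.mul_le_mul h hk1
        omega
    have e2 : finrank ℤ Rm' = 0 := by
      rcases Nat.eq_zero_or_pos (finrank ℤ Rm') with h | h
      · exact h
      · have := Nat.mul_le_mul h hμ1
        omega
    apply h2
    refine ⟨Submodule.finrank_eq_zero.mp e1, ?_⟩
    obtain ⟨ρ, hρ1, hρ2, hρ3⟩ := Pool.Agent.H301R2.SSE.int_basis Rm'
    rw [eq_bot_iff]
    intro m hm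
    obtain ⟨c, hc⟩ := hρ2 m hm
    have : IsEmpty (Fin (finrank ℤ Rm')) := by
      rw [e2]; infer_instance
    rw [hc]
    simp

end Pool.Agent.H70.QM
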