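import Mathlib
import Pool.Agent.H70.QM.Key

/-!
Small solutions of linear equations, for subgroups generated by small elements.
-/

set_option autoImplicit false

namespace Pool.Agent.H70.QM

open Finset Matrix Pool.Agent.H335R2.Obs
open Module (finrank)

attribute [local instance] Matrix.seminormedAddCommGroup

/-- Siegel's lemma for one more unknown than equations -/
theorem siegel_int (m : ℕ) (A : Fin m → Fin (m + 1) → ℤ) (B : ℕ) (hB : 1 ≤ B)
    (hA : ∀ i j, |A i j| ≤ B) :
    ∃ t : Fin (m + 1) → ℤ, t ≠ 0 ∧ (∀ i, ∑ j, A i j * t j = 0) ∧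
      ∀ j, |t j| ≤ (((m + 1) * B) ^ m : ℕ) := by
  classical
  rcases Nat.eq_zero_or_pos m with h0 | hm
  · subst h0
    refine ⟨fun _ => 1, ?_, fun i => i.elim0, fun j => by simp⟩
    intro h
    have := congrFun h 0
    simp at this
  · obtain ⟨t, ht, h1, h2⟩ := Int.Matrix.exists_ne_zero_int_vec_norm_le (Matrix.of A)
      (by simp) (by simpa using hm)
    refine ⟨t, ht, fun i => congrFun h1 i, fun j => ?_⟩
    have hn : ‖Matrix.of A‖ ≤ (B : ℝ) := by
      rw [Matrix.norm_le_iff (Nat.cast_nonneg _)]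
      intro i j
      rw [Int.norm_eq_abs]
      exact_mod_cast hA i j
    have h3 : max 1 ‖Matrix.of A‖ ≤ (B : ℝ) := max_le (by exact_mod_cast hB) hn
    have he : ((Fintype.card (Fin m) : ℝ) / ((Fintype.card (Fin (m + 1)) : ℝ) -
        (Fintype.card (Fin m) : ℝ))) = (m : ℝ) := by
      simp
    rw [he, Real.rpow_natCast] at h2
    have h4 : ‖t j‖ ≤ ((((m + 1) * B) ^ m : ℕ) : ℝ) := by
      refine (norm_le_pi_norm t j).trans (h2.trans ?_)
      push_cast
      have h5 : (0 : ℝ) ≤ max 1 ‖Matrix.of A‖ := le_trans zero_le_one (le_max_left _ _)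
      apply pow_le_pow_left₀
      · simp only [Fintype.card_fin]
        positivity
      · simp only [Fintype.card_fin]
        push_cast
        exact mul_le_mul_of_nonneg_left h3 (by positivity)
    rw [Int.norm_eq_abs] at h4
    exact_mod_cast h4

/-- a finite set of at most `m` vectors as a list of `m` vectors -/
theorem pad_rows {V : Type*} [Zero V] (m : ℕ) (X : Finset V) (hX : X.card ≤ m) :
    ∃ f : Fin m → V, (∀ x ∈ X, ∃ i, f i = x) ∧ ∀ i, f i ∈ X ∨ f i = 0 := by
  classical
  refine ⟨fun i => X.toList.getD i 0, ?_, ?_⟩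
  · intro x hx
    rw [← Finset.mem_toList] at hx
    obtain ⟨i, hi, hix⟩ := List.getElem_of_mem hx
    refine ⟨⟨i, ?_⟩, ?_⟩
    · rw [Finset.length_toList] at hi
      omega
    · simp only [List.getD_eq_getElem?_getD]
      rw [List.getElem?_eq_getElem hi, Option.getD_some]
      exact hix
  · intro i
    rcases Nat.lt_or_ge i X.toList.length with hi | hi
    · left
      simp only [List.getD_eq_getElem?_getD]
      rw [List.getElem?_eq_getElem hi, Option.getD_some, ← Finset.mem_toList]
      exact List.getElem_mem hi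
    · right
      simp only [List.getD_eq_getElem?_getD]
      rw [List.getElem?_eq_none hi, Option.getD_none]

/-- independent small elements which span rationally -/
theorem exists_small_basis {n : ℕ} (N : ℕ) (R : AddSubgroup (Fin n → ℤ)) (hR : small N R = R) :
    ∃ f : Fin (finrank ℤ R) → (Fin n → ℤ), (∀ i, f i ∈ R ∧ ∀ j, |f i j| ≤ N) ∧
      LinearIndependent ℤ f ∧
      ∀ v : Fin n → ℤ, (∀ i, ∑ j, v j * f i j = 0) → ∀ m ∈ R, ∑ j, v j * m j = 0 := by
  classical
  let cst : (Fin n → ℤ) → (Fin n → ℚ) := fun m j => (m j : ℚ)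
  set S : Set (Fin n → ℚ) := cst '' {m | m ∈ R ∧ ∀ j, |m j| ≤ N} with hS
  obtain ⟨g, hg1, hg2, hg3⟩ := Submodule.exists_fun_fin_finrank_span_eq ℚ S
  have hspan : Submodule.span ℚ S = kSpan ℚ R := by
    apply le_antisymm
    · apply Submodule.span_mono
      rintro _ ⟨m, hm, rfl⟩
      exact ⟨m, hm.1, rfl⟩
    · unfold kSpan
      rw [Submodule.span_le]
      rintro _ ⟨m, hm, rfl⟩
      rw [← hR] at hm
      unfold small at hm
      refine AddSubgroup.closure_induction (hx := hm) ?_ ?_ ?_ ?_
      · intro m hm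
        exact Submodule.subset_span ⟨m, hm, rfl⟩
      · have : (fun j => (((0 : Fin n → ℤ) j : ℤ) : ℚ)) = 0 := by funext j; simp
        rw [this]
        exact Submodule.zero_mem _
      · intro a b _ _ ha hb
        have : (fun j => (((a + b) j : ℤ) : ℚ)) = (fun j => ((a j : ℤ) : ℚ)) +
            (fun j => ((b j : ℤ) : ℚ)) := by funext j; simp
        rw [this]
        exact Submodule.add_mem _ ha hb
      · intro a _ ha
        have : (fun j => (((-a) j : ℤ) : ℚ)) = -(fun j => ((a j : ℤ) : ℚ)) := by funext j; simp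
        rw [this]
        exact Submodule.neg_mem _ ha
  have hfr : finrank ℚ (Submodule.span ℚ S) = finrank ℤ R := by
    rw [hspan, finrank_kSpan]
  choose f hf hfg using hg1
  have e : finrank ℤ R = finrank ℚ (Submodule.span ℚ S) := hfr.symm
  refine ⟨fun i => f (Fin.cast e i), fun i => hf _, ?_, ?_⟩
  · have h1 : LinearIndependent ℚ (fun i => g (Fin.cast e i)) :=
      hg3.comp _ (Fin.cast_injective e)
    rw [Fintype.linearIndependent_iff] at h1 ⊢
    intro c hc i
    have h2 := h1 (fun i => (c i : ℚ)) (by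
      funext j
      have h3 := congrFun hc j
      simp only [Finset.sum_apply, Pi.smul_apply, smul_eq_mul, Pi.zero_apply] at h3 ⊢
      have h4 : ∀ i, g (Fin.cast e i) j = ((f (Fin.cast e i) j : ℤ) : ℚ) := by
        intro i
        rw [← hfg]
      simp only [h4]
      exact_mod_cast h3) i
    exact_mod_cast h2
  · intro v hv m hm
    have h1 : (fun j => ((m j : ℤ) : ℚ)) ∈ Submodule.span ℚ (Set.range g) := by
      rw [hg2, hspan]
      exact Submodule.subset_span ⟨m, hm, rfl⟩
    have h2 : ∀ x ∈ Submodule.span ℚ (Set.range g), ∑ j, ((v j : ℤ) : ℚ) * x j = 0 := by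
      intro x hx
      refine Submodule.span_induction (hx := hx) ?_ ?_ ?_ ?_
      · rintro _ ⟨i, rfl⟩
        have h3 : ∑ j, v j * f i j = 0 := hv (Fin.cast e.symm i)
        have h5 : ∀ j, g i j = ((f i j : ℤ) : ℚ) := by
          intro j
          rw [← hfg]
        simp only [h5]
        exact_mod_cast h3
      · simp
      · intro a b _ _ ha hb
        simp only [Pi.add_apply, mul_add, Finset.sum_add_distrib, ha, hb, add_zero]
      · intro r a _ ha
        have : ∀ j, ((v j : ℤ) : ℚ) * (r • a) j = r * (((v j : ℤ) : ℚ) * a j) := by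
          intro j; rw [Pi.smul_apply, smul_eq_mul]; ring
        simp only [this]
        rw [← Finset.mul_sum, ha, mul_zero]
    have h3 := h2 _ h1
    exact_mod_cast h3

/-- **small orthogonal vectors**, with some coordinates equal to zero -/
theorem exists_small_orth {n : ℕ} (N : ℕ) (hN : 1 ≤ N) (R : AddSubgroup (Fin (n + 1) → ℤ))
    (hR : small N R = R) (T : Finset (Fin (n + 1))) (hT : finrank ℤ R + T.card ≤ n) :
    ∃ q : Fin (n + 1) → ℤ, q ≠ 0 ∧ (∀ j ∈ T, q j = 0) ∧ (∀ m ∈ R, ∑ j, q j * m j = 0) ∧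
      ∀ j, |q j| ≤ (((n + 1) * N) ^ n : ℕ) := by
  classical
  obtain ⟨f, hf1, -, hf3⟩ := exists_small_basis N R hR
  set X : Finset (Fin (n + 1) → ℤ) := Finset.univ.image f ∪ T.image (fun j => Pi.single j 1) with hX
  have hXc : X.card ≤ n := by
    refine (Finset.card_union_le _ _).trans ?_
    have h1 : (Finset.univ.image f).card ≤ finrank ℤ R := by
      have := Finset.card_image_le (s := Finset.univ) (f := f)
      simpa using this
    have h2 : (T.image (fun j => (Pi.single j 1 : Fin (n + 1) → ℤ))).card ≤ T.card :=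
      Finset.card_image_le
    omega
  obtain ⟨rows, hr1, hr2⟩ := pad_rows n X hXc
  have hbd : ∀ x ∈ X, ∀ j, |x j| ≤ N := by
    intro x hx j
    rcases Finset.mem_union.mp hx with h | h
    · obtain ⟨i, -, rfl⟩ := Finset.mem_image.mp h
      exact (hf1 i).2 j
    · obtain ⟨i, -, rfl⟩ := Finset.mem_image.mp h
      by_cases hij : j = i
      · subst hij
        simp; exact_mod_cast hN
      · simp [Pi.single_eq_of_ne hij]
  obtain ⟨q, hq0, hq1, hq2⟩ := siegel_int n rows N hN (by
    intro i j
    rcases hr2 i with h | h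
    · exact hbd _ h j
    · rw [h]; simp)
  have hrow : ∀ x ∈ X, ∑ j, q j * x j = 0 := by
    intro x hx
    obtain ⟨i, hi⟩ := hr1 x hx
    have h1 := hq1 i
    rw [hi] at h1
    rw [← h1]
    apply Finset.sum_congr rfl
    intro j _; ring
  refine ⟨q, hq0, ?_, ?_, hq2⟩
  · intro j hj
    have h1 := hrow (Pi.single j 1) (Finset.mem_union_right _ (Finset.mem_image_of_mem _ hj))
    simpa [Pi.single_apply] using h1
  · apply hf3
    intro i
    exact hrow _ (Finset.mem_union_left _ (Finset.mem_image_of_mem _ (Finset.mem_univ i)))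

/-- **small elements** of the subgroup with some coordinates equal to zero -/
theorem exists_small_elt {n : ℕ} (N : ℕ) (hN : 1 ≤ N) (R : AddSubgroup (Fin n → ℤ))
    (hR : small N R = R) (T : Finset (Fin n)) (hT : T.card < finrank ℤ R) :
    ∃ g ∈ R, g ≠ 0 ∧ (∀ j ∈ T, g j = 0) ∧
      ∀ j, |g j| ≤ ((T.card + 1) * (((T.card + 1) * N) ^ T.card * N) : ℕ) := by
  classical
  obtain ⟨f, hf1, hf2, -⟩ := exists_small_basis N R hR
  set τ := T.card with hτ
  let em : Fin (τ + 1) → Fin (finrank ℤ R) := Fin.castLE (by omega)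
  have hem : Function.Injective em := Fin.castLE_injective _
  let eT := T.equivFin
  obtain ⟨c, hc0, hc1, hc2⟩ := siegel_int τ (fun i j => f (em j) (eT.symm i).1) N hN
    (fun i j => (hf1 _).2 _)
  refine ⟨∑ i, c i • f (em i), R.sum_mem fun i _ => R.zsmul_mem (hf1 _).1 _, ?_, ?_, ?_⟩
  · intro h
    apply hc0
    have h1 := hf2.comp em hem
    rw [Fintype.linearIndependent_iff] at h1
    funext i
    exact h1 c h i
  · intro j hj
    have h1 := hc1 (eT ⟨j, hj⟩)
    simp only [Equiv.symm_apply_apply] at h1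
    rw [Finset.sum_apply, ← h1]
    apply Finset.sum_congr rfl
    intro i _
    rw [Pi.smul_apply, smul_eq_mul, mul_comm]
  · intro j
    rw [Finset.sum_apply]
    refine (Finset.abs_sum_le_sum_abs _ _).trans ?_
    have h1 : ∀ i ∈ (Finset.univ : Finset (Fin (τ + 1))), |(c i • f (em i)) j| ≤
        ((((τ + 1) * N) ^ τ * N : ℕ) : ℤ) := by
      intro i _
      rw [Pi.smul_apply, smul_eq_mul, abs_mul]
      push_cast
      have h2 := hc2 i
      have h3 := (hf1 (em i)).2 j
      push_cast at h2
      exact mul_le_mul h2 h3 (abs_nonneg _) (by positivity)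
    refine (Finset.sum_le_sum h1).trans ?_
    simp

end Pool.Agent.H70.QM
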