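import Mathlib
import Pool.Graph.R_pool_sql_team_seeded_1acbe0a2.Y928.QN.Rel
import Pool.Graph.R_seed8.H301R2.TR.Lower
import Pool.Agent.H70.QL.AppB

/-!
Auxiliary facts on algebraic numbers of bounded size.
-/

set_option autoImplicit false

namespace Pool.Agent.H70.QM

open Polynomial Pool.Agent.H301R2.TR Pool.Agent.Y928.QN

theorem algHt_inv {D H : ℕ} {x : ℂ} (h : AlgHt D H x) (hx : x ≠ 0) : AlgHt D H x⁻¹ := by
  obtain ⟨P, h1, h2, h3, h4⟩ := h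
  refine ⟨P.reverse, ?_, ?_, ?_, ?_⟩
  · intro h0
    apply h1
    rwa [Polynomial.reverse_eq_zero] at h0
  · exact (Polynomial.reverse_natDegree_le P).trans h2
  · intro i
    rw [Polynomial.coeff_reverse]
    exact h3 _
  · let _ : Invertible x := invertibleOfNonzero hx
    have h5 := (Polynomial.eval₂_reverse_eq_zero_iff (algebraMap ℤ ℂ) x P).mpr h4
    rw [invOf_eq_inv] at h5
    exact h5

theorem algHt_conj {D H : ℕ} {x : ℂ} (h : AlgHt D H x) : AlgHt D H ((starRingEnd ℂ) x) := by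
  obtain ⟨P, h1, h2, h3, h4⟩ := h
  refine ⟨P, h1, h2, h3, ?_⟩
  have h5 : aeval ((starRingEnd ℂ) x) P = (starRingEnd ℂ) (aeval x P) := by
    rw [Polynomial.aeval_def, Polynomial.aeval_def, Polynomial.hom_eval₂]
    congr 1
    exact RingHom.ext_int _ _
  rw [h5, h4, map_zero]

theorem algHt_mono {D D' H H' : ℕ} {x : ℂ} (h : AlgHt D H x) (hD : D ≤ D') (hH : H ≤ H') :
    AlgHt D' H' x := by
  obtain ⟨P, h1, h2, h3, h4⟩ := h
  exact ⟨P, h1, h2.trans hD, fun i => (h3 i).trans (by exact_mod_cast hH), h4⟩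

theorem algHt_sqrt2 : AlgHt 2 2 ((Real.sqrt 2 : ℝ) : ℂ) := by
  refine ⟨X ^ 2 - C 2, ?_, ?_, ?_, ?_⟩
  · intro h
    have := congrArg (fun p : ℤ[X] => p.coeff 2) h
    simp [Polynomial.coeff_X_pow, Polynomial.coeff_C] at this
  · compute_degree
  · intro i
    rw [Polynomial.coeff_sub, Polynomial.coeff_X_pow, Polynomial.coeff_C]
    split_ifs with h1 h2 <;> simp_all
  · have h2 : ((Real.sqrt 2 : ℝ) : ℂ) ^ 2 = 2 := by
      rw [← Complex.ofReal_pow, Real.sq_sqrt (by norm_num)]; norm_num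
    rw [map_sub, map_pow, Polynomial.aeval_X, h2, Polynomial.aeval_C]
    simp

/-- Liouville's inequality -/
theorem liouv {F : Type} [Field F] [NumberField F] (φ : F →ₐ[ℚ] ℂ) (w : F) (hw : w ≠ 0)
    (d : ℕ) (hd : 0 < d) (B : ℝ) (hB : 1 ≤ B) (hint : IntD d 1 w)
    (hbd : ∀ σ : F →ₐ[ℚ] ℂ, ‖σ w‖ ≤ B) :
    1 ≤ ‖φ w‖ * ((d : ℝ) * B) ^ (Module.finrank ℚ F) := by
  have e : (Matrix.of (fun _ _ : Fin 1 => w)).det = w := by rw [Matrix.det_fin_one]; rfl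
  have h := det_lower φ (Matrix.of (fun _ _ : Fin 1 => w)) d 1 hd B hB (fun _ _ => hint)
    (fun σ _ _ => hbd σ) (by rw [e]; exact hw)
  rw [e] at h
  simp only [Fintype.card_fin, pow_one, one_mul, Nat.factorial_one, Nat.cast_one] at h
  rw [mul_pow]
  calc (1 : ℝ) ≤ _ := h
    _ = _ := by ring

/-- a non-real algebraic number is not close to a real number -/
theorem not_real {D H : ℕ} (hH : 3 ≤ H) {x : ℂ} (h : AlgHt D H x) (hx : x.im ≠ 0) (t : ℝ) :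
    1 ≤ ‖(t : ℂ) - x‖ * ((H : ℝ) ^ 6) ^ (2 * (D * (D * D))) := by
  obtain ⟨F, _, _, φ, hF, -, ⟨y, hy⟩, ⟨y', hy'⟩, -⟩ := exists_field_bounded h (algHt_conj h)
    (algHt_conj h)
  obtain ⟨d1, d10, d1H, i1, c1⟩ := h.lift φ y hy
  obtain ⟨d2, d20, d2H, i2, c2⟩ := (algHt_conj h).lift φ y' hy'
  have hH3 : (3 : ℝ) ≤ H := by exact_mod_cast hH
  have hw : y - y' ≠ 0 := by
    intro h0
    have h1 : φ (y - y') = 0 := by rw [h0, map_zero]
    rw [map_sub, hy, hy', sub_eq_zero] at h1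
    have h2 := congrArg Complex.im h1
    rw [Complex.conj_im] at h2
    apply hx
    linarith
  have hint : IntD (d1 * d2) 1 (y - y') := by
    unfold IntD at *
    have e : (((d1 * d2 : ℕ) : F)) ^ 1 * (y - y') = (d2 : F) * ((d1 : F) ^ 1 * y) -
        (d1 : F) * ((d2 : F) ^ 1 * y') := by
      push_cast; ring
    rw [e]
    exact ((isIntegral_natCast' d2).mul i1).sub ((isIntegral_natCast' d1).mul i2)
  have h1 := liouv φ (y - y') hw (d1 * d2) (Nat.mul_pos d10 d20) (2 * ((H : ℝ) + 1))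
    (by linarith) hint (by
      intro σ
      rw [map_sub]
      calc ‖σ y - σ y'‖ ≤ ‖σ y‖ + ‖σ y'‖ := norm_sub_le _ _
        _ ≤ (H + 1) + (H + 1) := add_le_add (c1 σ) (c2 σ)
        _ = _ := by ring)
  have h2 : ‖φ (y - y')‖ ≤ 2 * ‖(t : ℂ) - x‖ := by
    rw [map_sub, hy, hy']
    have e1 : ‖(t : ℂ) - (starRingEnd ℂ) x‖ = ‖(t : ℂ) - x‖ := by
      have : (t : ℂ) - (starRingEnd ℂ) x = (starRingEnd ℂ) ((t : ℂ) - x) := by
        rw [map_sub, Complex.conj_ofReal]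
      rw [this, Complex.norm_conj]
    calc ‖x - (starRingEnd ℂ) x‖ = ‖((t : ℂ) - (starRingEnd ℂ) x) - ((t : ℂ) - x)‖ := by
          congr 1; ring
      _ ≤ ‖(t : ℂ) - (starRingEnd ℂ) x‖ + ‖(t : ℂ) - x‖ := norm_sub_le _ _
      _ = _ := by rw [e1]; ring
  have h3 : (((d1 * d2 : ℕ) : ℝ)) * (2 * ((H : ℝ) + 1)) ≤ (H : ℝ) ^ 4 := by
    have a1 : ((d1 * d2 : ℕ) : ℝ) ≤ (H : ℝ) ^ 2 := by
      have : d1 * d2 ≤ H ^ 2 := by
        rw [pow_two]; exact Nat.mul_le_mul d1H d2H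
      exact_mod_cast this
    have a2 : 2 * ((H : ℝ) + 1) ≤ (H : ℝ) ^ 2 := by nlinarith
    calc (((d1 * d2 : ℕ) : ℝ)) * (2 * ((H : ℝ) + 1)) ≤ (H : ℝ) ^ 2 * (H : ℝ) ^ 2 := by gcongr
      _ = _ := by ring
  have h4 : (1 : ℝ) ≤ (H : ℝ) ^ 4 := one_le_pow₀ (by linarith)
  have hF1 : 0 < Module.finrank ℚ F := Module.finrank_pos
  set m := 2 * (D * (D * D)) with hm
  have hm1 : 1 ≤ m := by omega
  calc (1 : ℝ) ≤ _ := h1
    _ ≤ (2 * ‖(t : ℂ) - x‖) * ((H : ℝ) ^ 4) ^ m := by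
      gcongr
      calc _ ≤ ((H : ℝ) ^ 4) ^ (Module.finrank ℚ F) := by gcongr
        _ ≤ _ := pow_le_pow_right₀ h4 hF
    _ = ‖(t : ℂ) - x‖ * (2 * ((H : ℝ) ^ 4) ^ m) := by ring
    _ ≤ ‖(t : ℂ) - x‖ * ((H : ℝ) ^ 6) ^ m := by
      gcongr
      have e : ((H : ℝ) ^ 6) ^ m = ((H : ℝ) ^ 2) ^ m * ((H : ℝ) ^ 4) ^ m := by
        rw [← mul_pow]; congr 1; ring
      rw [e]
      gcongr
      calc (2 : ℝ) ≤ (H : ℝ) ^ 2 := by nlinarith
        _ ≤ _ := le_self_pow₀ (by nlinarith) (by omega)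

theorem intD_pow_le {F : Type*} [Field F] {dz d' : ℕ} {z : F} (h : IntD dz 1 z) (hdvd : dz ∣ d')
    {m N : ℕ} (hm : m ≤ N) : IntD (d' ^ N) 1 (z ^ m) := by
  obtain ⟨k, rfl⟩ := hdvd
  unfold IntD at *
  have e : (((dz * k) ^ N : ℕ) : F) ^ 1 * z ^ m =
      ((k ^ N * dz ^ (N - m) : ℕ) : F) * ((dz : F) ^ 1 * z) ^ m := by
    obtain ⟨j, rfl⟩ := Nat.exists_eq_add_of_le hm
    rw [Nat.add_sub_cancel_left]
    push_cast
    ring
  rw [e]
  exact (isIntegral_natCast' _).mul (h.pow m)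

theorem intD_zpow {F : Type*} [Field F] {dz dz' d' : ℕ} {z : F} (h : IntD dz 1 z)
    (h' : IntD dz' 1 z⁻¹) (hdvd : dz ∣ d') (hdvd' : dz' ∣ d') {m : ℤ} {N : ℕ} (hm : |m| ≤ N) :
    IntD (d' ^ N) 1 (z ^ m) := by
  obtain ⟨k, rfl | rfl⟩ := Int.eq_nat_or_neg m
  · rw [zpow_natCast]
    apply intD_pow_le h hdvd
    simpa using hm
  · rw [zpow_neg, zpow_natCast, ← inv_pow]
    apply intD_pow_le h' hdvd'
    rw [abs_neg] at hm
    simpa using hm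

theorem norm_zpow_le {F : Type*} [Field F] [Algebra ℚ F] (τ : F →ₐ[ℚ] ℂ) (z : F) (R : ℝ)
    (hR : 1 ≤ R) (h : ‖τ z‖ ≤ R) (h' : ‖τ z⁻¹‖ ≤ R) {m : ℤ} {N : ℕ} (hm : |m| ≤ N) :
    ‖τ (z ^ m)‖ ≤ R ^ N := by
  obtain ⟨k, rfl | rfl⟩ := Int.eq_nat_or_neg m
  · rw [zpow_natCast, map_pow, norm_pow]
    have hk : k ≤ N := by simpa using hm
    exact (pow_le_pow_left₀ (norm_nonneg _) h k).trans (pow_le_pow_right₀ hR hk)
  · rw [zpow_neg, zpow_natCast, ← inv_pow, map_pow, norm_pow]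
    rw [abs_neg] at hm
    have hk : k ≤ N := by simpa using hm
    exact (pow_le_pow_left₀ (norm_nonneg _) h' k).trans (pow_le_pow_right₀ hR hk)

/-- a differentiable function is Lipschitz at a point -/
theorem lip_at (f : ℝ → ℝ) (P : ℝ) (hf : DifferentiableAt ℝ f P) :
    ∃ c : ℝ, 1 ≤ c ∧ ∃ ρ : ℝ, 0 < ρ ∧ ρ ≤ 1 ∧ ∀ t, |t - P| ≤ ρ → |f t - f P| ≤ c * |t - P| := by
  obtain ⟨c, hc⟩ := (hf.isBigO_sub).bound
  obtain ⟨ρ, hρ, hb⟩ := Metric.eventually_nhds_iff.mp hc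
  refine ⟨max c 1, le_max_right _ _, min (ρ / 2) 1, lt_min (by linarith) one_pos,
    min_le_right _ _, fun t ht => ?_⟩
  have h1 : dist t P < ρ := by
    rw [Real.dist_eq]
    have := ht.trans (min_le_left _ _)
    linarith
  have h2 := hb h1
  rw [Real.norm_eq_abs, Real.norm_eq_abs] at h2
  exact h2.trans (mul_le_mul_of_nonneg_right (le_max_left _ _) (abs_nonneg _))

theorem pow_sub_pow_norm (a b : ℂ) (M : ℝ) (hM : 1 ≤ M) (ha : ‖a‖ ≤ M) (hb : ‖b‖ ≤ M) (n : ℕ) :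
    ‖a ^ n - b ^ n‖ ≤ n * M ^ n * ‖a - b‖ := by
  induction n with
  | zero => simp
  | succ n ih =>
    have e : a ^ (n + 1) - b ^ (n + 1) = a * (a ^ n - b ^ n) + (a - b) * b ^ n := by ring
    rw [e]
    have h1 : (1 : ℝ) ≤ M ^ n := one_le_pow₀ hM
    have h2 : ‖b ^ n‖ ≤ M ^ n := by
      rw [norm_pow]; exact pow_le_pow_left₀ (norm_nonneg _) hb n
    calc ‖a * (a ^ n - b ^ n) + (a - b) * b ^ n‖
        ≤ ‖a * (a ^ n - b ^ n)‖ + ‖(a - b) * b ^ n‖ := norm_add_le _ _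
      _ = ‖a‖ * ‖a ^ n - b ^ n‖ + ‖a - b‖ * ‖b ^ n‖ := by rw [norm_mul, norm_mul]
      _ ≤ M * (n * M ^ n * ‖a - b‖) + ‖a - b‖ * (M ^ n * M) := by
          gcongr
          exact h2.trans (le_mul_of_one_le_right (by positivity) hM)
      _ = _ := by push_cast; ring

end Pool.Agent.H70.QM
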