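import Mathlib
import Pool.Agent.H70.QM.Tools

/-!
Preparations for the effective theorem on matrices of logarithms which are close to a matrix of
low rank.
-/

set_option autoImplicit false

namespace Pool.Agent.H70.QM

open Pool.Agent.H301R2.TR Pool.Agent.Y928.QN Pool.Agent.H70.QL Finset

/-- A matrix of rank at most `r` as a product of matrices of bounded size. -/
theorem factor_bounded {d l : ℕ} (N : Matrix (Fin d) (Fin l) ℂ) (r : ℕ) (hr : N.rank ≤ r)
    (B : ℝ) (hB : ∀ i j, ‖N i j‖ ≤ B) (hB0 : 0 ≤ B) :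
    ∃ (x : Fin r → Fin d → ℂ) (y : Fin r → Fin l → ℂ), (∀ ρ j, ‖x ρ j‖ ≤ 1) ∧
      (∀ ρ p, ‖y ρ p‖ ≤ Real.sqrt d * B) ∧ ∀ j p, ∑ ρ, x ρ j * y ρ p = N j p := by
  classical
  let e : (Fin d → ℂ) ≃ₗ[ℂ] EuclideanSpace ℂ (Fin d) :=
    (WithLp.linearEquiv 2 ℂ (Fin d → ℂ)).symm
  let c : Fin l → EuclideanSpace ℂ (Fin d) := fun p => e (N.col p)
  set S : Submodule ℂ (EuclideanSpace ℂ (Fin d)) := Submodule.span ℂ (Set.range c) with hS
  have hfr : Module.finrank ℂ S = N.rank := by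
    rw [Matrix.rank_eq_finrank_span_cols]
    have h1 : S = (Submodule.span ℂ (Set.range N.col)).map (e : (Fin d → ℂ) →ₗ[ℂ] _) := by
      rw [Submodule.map_span, ← Set.range_comp]
      rfl
    rw [h1]
    exact LinearEquiv.finrank_map_eq e _
  let b := stdOrthonormalBasis ℂ S
  have hle : Module.finrank ℂ S ≤ r := hfr.trans_le hr
  have hcS : ∀ p, c p ∈ S := fun p => Submodule.subset_span ⟨p, rfl⟩
  have hnc : ∀ p, ‖c p‖ ≤ Real.sqrt d * B := by
    intro p
    rw [EuclideanSpace.norm_eq]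
    have h1 : ∑ i, ‖(c p) i‖ ^ 2 ≤ (d : ℝ) * B ^ 2 := by
      calc ∑ i, ‖(c p) i‖ ^ 2 ≤ ∑ _i : Fin d, B ^ 2 := by
            apply Finset.sum_le_sum
            intro i _
            exact pow_le_pow_left₀ (norm_nonneg _) (hB i p) 2
        _ = _ := by simp
    calc Real.sqrt (∑ i, ‖(c p) i‖ ^ 2) ≤ Real.sqrt ((d : ℝ) * B ^ 2) := Real.sqrt_le_sqrt h1
      _ = Real.sqrt d * B := by
        rw [Real.sqrt_mul (Nat.cast_nonneg _), Real.sqrt_sq hB0]
  have hcoord : ∀ (v : EuclideanSpace ℂ (Fin d)) (i : Fin d), ‖v i‖ ≤ ‖v‖ := by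
    intro v i
    exact PiLp.norm_apply_le v i
  let x : Fin r → Fin d → ℂ := fun ρ j =>
    if h : (ρ : ℕ) < Module.finrank ℂ S then ((b ⟨ρ, h⟩ : S) : EuclideanSpace ℂ (Fin d)) j else 0
  let y : Fin r → Fin l → ℂ := fun ρ p =>
    if h : (ρ : ℕ) < Module.finrank ℂ S then b.repr (⟨c p, hcS p⟩ : S) ⟨ρ, h⟩ else 0
  refine ⟨x, y, ?_, ?_, ?_⟩
  · intro ρ j
    simp only [x]
    split_ifs with h
    · refine (hcoord _ j).trans ?_
      have h1 : ‖(b ⟨ρ, h⟩ : S)‖ = 1 := b.orthonormal.1 _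
      rw [← h1]
      rfl
    · simp
  · intro ρ p
    simp only [y]
    split_ifs with h
    · refine (PiLp.norm_apply_le (b.repr (⟨c p, hcS p⟩ : S)) ⟨ρ, h⟩).trans ?_
      rw [LinearIsometryEquiv.norm_map]
      exact hnc p
    · rw [norm_zero]
      positivity
  · intro j p
    have h1 : ∑ i, b.repr (⟨c p, hcS p⟩ : S) i • b i = (⟨c p, hcS p⟩ : S) :=
      b.sum_repr _
    have h2 := congrArg (fun v : S => ((v : EuclideanSpace ℂ (Fin d)) j)) h1
    simp only at h2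
    have h3 : ((⟨c p, hcS p⟩ : S) : EuclideanSpace ℂ (Fin d)) j = N j p := rfl
    rw [h3] at h2
    rw [← h2, Submodule.coe_sum]
    have h4 : (∑ i, (((b.repr (⟨c p, hcS p⟩ : S) i • b i : S)) :
        EuclideanSpace ℂ (Fin d))) j = ∑ i, b.repr (⟨c p, hcS p⟩ : S) i *
          ((b i : S) : EuclideanSpace ℂ (Fin d)) j := by
      rw [WithLp.ofLp_sum, Finset.sum_apply]
      rfl
    rw [h4]
    symm
    apply Finset.sum_of_injOn (fun i : Fin (Module.finrank ℂ S) => (Fin.castLE hle i))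
    · intro a _ b _ h
      exact Fin.castLE_injective hle h
    · intro i _; simp
    · intro ρ _ hρ
      have h5 : ¬ (ρ : ℕ) < Module.finrank ℂ S := by
        intro h
        apply hρ
        exact ⟨⟨ρ, h⟩, by simp, by ext; simp⟩
      simp only [x, y, dif_neg h5, zero_mul]
    · intro i _
      have h6 : ((Fin.castLE hle i : Fin r) : ℕ) < Module.finrank ℂ S := by simp
      simp only [x, y, dif_pos h6]
      rw [mul_comm]
      rfl

/-- A number field containing finitely many algebraic numbers of bounded degree. -/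
theorem exists_fieldN {D H : ℕ} {ι : Type} [Fintype ι] (z : ι → ℂ) (hz : ∀ i, AlgHt D H (z i)) :
    ∃ (F : Type) (_ : Field F) (_ : NumberField F) (φ : F →ₐ[ℚ] ℂ),
      Module.finrank ℚ F ≤ D ^ Fintype.card ι ∧ ∀ i, ∃ v, φ v = z i := by
  classical
  have key : ∀ s : Finset ι, ∃ K : IntermediateField ℚ ℂ, FiniteDimensional ℚ K ∧
      Module.finrank ℚ K ≤ D ^ s.card ∧ ∀ i ∈ s, z i ∈ K := by
    intro s
    induction s using Finset.induction_on with
    | empty =>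
      refine ⟨⊥, inferInstance, ?_, by simp⟩
      simp
    | insert a s ha ih =>
      obtain ⟨K, h1, h2, h3⟩ := ih
      obtain ⟨fx, dx⟩ := adjoin_finrank_le (hz a)
      refine ⟨K ⊔ IntermediateField.adjoin ℚ {z a}, ?_, ?_, ?_⟩
      · infer_instance
      · rw [Finset.card_insert_of_notMem ha, pow_succ]
        exact (IntermediateField.finrank_sup_le _ _).trans (Nat.mul_le_mul h2 fx)
      · intro i hi
        rcases Finset.mem_insert.mp hi with h | h
        · rw [h]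
          exact (le_sup_right : IntermediateField.adjoin ℚ {z a} ≤ _)
            (IntermediateField.subset_adjoin ℚ _ (Set.mem_singleton _))
        · exact (le_sup_left : K ≤ _) (h3 i h)
  obtain ⟨K, h1, h2, h3⟩ := key Finset.univ
  have hnf : NumberField K := by
    refine @NumberField.mk _ _ ?_ ?_
    · infer_instance
    · convert h1
  refine ⟨K, inferInstance, hnf, (algebraMap K ℂ).toRatAlgHom, ?_,
    fun i => ⟨⟨z i, h3 i (Finset.mem_univ i)⟩, rfl⟩⟩
  rw [Finset.card_univ] at h2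
  convert h2

/-- a common denominator -/
theorem common_den {F : Type} [Field F] [NumberField F] (φ : F →ₐ[ℚ] ℂ) {D H : ℕ} {ι : Type}
    [Fintype ι] (v : ι → F) (hv : ∀ i, AlgHt D H (φ (v i))) :
    ∃ d : ℕ, 0 < d ∧ d ≤ H ^ Fintype.card ι ∧ (∀ i, IntD d 1 (v i)) ∧
      ∀ i, ∀ σ : F →ₐ[ℚ] ℂ, ‖σ (v i)‖ ≤ H + 1 := by
  classical
  choose f hf0 hfH hfI hfn using fun i => (hv i).lift φ (v i) rfl
  refine ⟨∏ i, f i, Finset.prod_pos fun i _ => hf0 i, ?_, ?_, hfn⟩
  · calc ∏ i, f i ≤ ∏ _i : ι, H := Finset.prod_le_prod' fun i _ => hfH i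
      _ = _ := by simp
  · intro i
    obtain ⟨k, hk⟩ := Finset.dvd_prod_of_mem f (Finset.mem_univ i)
    rw [hk]
    exact intD_lift _ _ _ (hfI i)

/-- closeness of exponentials -/
theorem exp_close (m n : ℂ) (R δ : ℝ) (h : ‖Complex.exp m‖ ≤ R) (hmn : ‖m - n‖ ≤ δ)
    (hδ : δ ≤ 1) : ‖Complex.exp m - Complex.exp n‖ ≤ R * (2 * δ) := by
  have e : Complex.exp m - Complex.exp n = -(Complex.exp m * (Complex.exp (n - m) - 1)) := by
    rw [mul_sub, ← Complex.exp_add, mul_one]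
    have : m + (n - m) = n := by ring
    rw [this]; ring
  rw [e, norm_neg, norm_mul]
  have h1 : ‖Complex.exp (n - m) - 1‖ ≤ 2 * ‖n - m‖ := by
    apply Complex.norm_exp_sub_one_le
    rw [← norm_neg, neg_sub]
    linarith
  have h2 : ‖n - m‖ ≤ δ := by rw [← norm_neg, neg_sub]; exact hmn
  have h3 : (0 : ℝ) ≤ R := (norm_nonneg _).trans h
  exact mul_le_mul h (h1.trans (by linarith)) (norm_nonneg _) h3

/-- the choice of the parameter -/
theorem choose_n (h : ℕ) (hh : 1 ≤ h) (c : ℝ) (hc : 0 ≤ c) (n0 : ℕ) : ∃ M : ℝ, 1 ≤ M ∧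
    ∀ L : ℝ, 1 ≤ L → ∃ n : ℕ, n0 ≤ n ∧ 1 ≤ n ∧ c * L ≤ (n : ℝ) ^ h ∧
      ∀ (m : ℕ) (α : ℝ), (m : ℝ) ≤ α * h → (n : ℝ) ^ m ≤ M ^ m * L ^ α := by
  have hh0 : (0 : ℝ) < h := by exact_mod_cast hh
  obtain ⟨M0, hM0⟩ : ∃ M0 : ℝ, M0 = 1 + n0 + c := ⟨_, rfl⟩
  have hn00 : (0 : ℝ) ≤ n0 := Nat.cast_nonneg _
  have hM01 : 1 ≤ M0 := by rw [hM0]; linarith
  refine ⟨M0 + 1, by linarith, fun L hL => ?_⟩
  have hL0 : 0 ≤ L := by linarith
  set r : ℝ := L ^ (1 / (h : ℝ)) with hr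
  have hr1 : 1 ≤ r := Real.one_le_rpow hL (by positivity)
  have hrh : r ^ h = L := by
    rw [hr, ← Real.rpow_natCast, ← Real.rpow_mul hL0]
    rw [one_div, inv_mul_cancel₀ hh0.ne', Real.rpow_one]
  set n : ℕ := ⌈M0 * r⌉₊ with hn
  have hnl : M0 * r ≤ n := Nat.le_ceil _
  have hnu : (n : ℝ) ≤ (M0 + 1) * r := by
    have := Nat.ceil_lt_add_one (a := M0 * r) (by positivity)
    rw [← hn] at this
    nlinarith
  have hM0r : M0 ≤ M0 * r := le_mul_of_one_le_right (by linarith) hr1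
  have hnn0 : n0 ≤ n := by
    have : (n0 : ℝ) ≤ n := by linarith
    exact_mod_cast this
  have hn1 : 1 ≤ n := by
    have : ((1 : ℕ) : ℝ) ≤ n := by push_cast; linarith
    exact_mod_cast this
  refine ⟨n, hnn0, hn1, ?_, ?_⟩
  · calc c * L ≤ M0 * L := by
          apply mul_le_mul_of_nonneg_right _ hL0
          linarith
      _ ≤ M0 ^ h * L := by
          apply mul_le_mul_of_nonneg_right _ hL0
          exact le_self_pow₀ hM01 (by omega)
      _ = (M0 * r) ^ h := by rw [mul_pow, hrh]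
      _ ≤ _ := pow_le_pow_left₀ (by positivity) hnl _
  · intro m α hm
    calc (n : ℝ) ^ m ≤ ((M0 + 1) * r) ^ m := pow_le_pow_left₀ (Nat.cast_nonneg _) hnu _
      _ = (M0 + 1) ^ m * r ^ m := by rw [mul_pow]
      _ ≤ _ := by
        apply mul_le_mul_of_nonneg_left _ (by positivity)
        rw [hr, ← Real.rpow_natCast, ← Real.rpow_mul hL0]
        apply Real.rpow_le_rpow_of_exponent_le hL
        rw [one_div, inv_mul_le_iff₀ hh0, mul_comm (h : ℝ)]
        exact hm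

end Pool.Agent.H70.QM
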