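import Mathlib
import Pool.Agent.H70.QM.LowR1
import Pool.Agent.H70.QM.Obst2

/-!
The core of the effective theorem on matrices of logarithms which are close to a matrix of
low rank.
-/

set_option autoImplicit false

namespace Pool.Agent.H70.QM

open Pool.Agent.H301R2.TR Pool.Agent.Y928.QN Pool.Agent.H70.QL Finset Pool.Agent.H335R2.Obs
open Module (finrank)

theorem lowCore (d l r h D ν : ℕ) (hd : 1 ≤ d) (hl : 1 ≤ l) (hν1 : 1 ≤ ν)
    (hν : (h + 1) * r + 1 + ν * (r * (d + l)) ≤ ν * (d * l)) (hh : 1 ≤ h) :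
    ∃ η : ℝ, 0 < η ∧ ∃ n0 : ℕ, ∀ n ≥ n0, ∀ H : ℕ, 3 ≤ H →
      (H : ℝ) ^ (d * l + 2) ≤ Real.exp (η * (n : ℝ) ^ h) →
      ∀ (M N : Matrix (Fin d) (Fin l) ℂ) (B : ℝ), 1 ≤ B → Real.sqrt d * B ≤ (n : ℝ) ^ h →
      (∀ i j, ‖N i j‖ ≤ B) → (∀ i j, AlgHt D H (Complex.exp (M i j))) → N.rank ≤ r →
      (∀ i j, ‖Complex.exp (M i j) - Complex.exp (N i j)‖ ≤
        (1 / 4 : ℝ) ^ (n ^ ((d + l) * ν + h + 1))) →
      ∃ (R : AddSubgroup (Fin d → ℤ)) (G : AddSubgroup (Fin l → ℤ)),
        small (n ^ (l * ν)) R = R ∧ small (n ^ (d * ν + 1)) G = G ∧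
        d * l < finrank ℤ R * l + finrank ℤ G * d ∧
        ∀ m ∈ R, ∀ s ∈ G, Complex.exp (∑ j, ∑ p, (m j : ℂ) * M j p * s p) = 1 := by
  classical
  obtain ⟨η, hη, n0, hn0⟩ := obstruction_unif (w := 0) (b := d) (l := l) (r := r) ∅
    ((d + l) * ν) (l * ν) (d * ν) h 1 0 ((d + l) * ν + h) h (D ^ (d * l))
    (by ring) hh le_rfl (by omega) (by omega) le_rfl (by omega)
    (Nat.mul_pos hl hν1)
    (by
      rw [Finset.card_empty]
      nlinarith only [hν])
  refine ⟨η, hη, n0, ?_⟩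
  intro n hn H hH hHn M N B hB hBn hNB hM hrank herr
  obtain ⟨F, _, _, φ, hF, hlift⟩ := exists_fieldN (ι := Fin d × Fin l)
    (fun q => Complex.exp (M q.1 q.2)) (fun q => hM q.1 q.2)
  choose v hv using hlift
  obtain ⟨dd, hdd0, hddH, hddI, hddn⟩ := common_den φ (D := D) (H := H) v
    (fun q => by rw [hv]; exact hM q.1 q.2)
  have hcard : Fintype.card (Fin d × Fin l) = d * l := by simp
  rw [hcard] at hF hddH
  obtain ⟨x, y, hx, hy, hxy⟩ := factor_bounded N r hrank B hNB (by linarith only [hB])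
  have hd1 : (1 : ℝ) ≤ Real.sqrt d := by
    rw [Real.one_le_sqrt]; exact_mod_cast hd
  have hsB : 1 ≤ Real.sqrt d * B := by nlinarith only [hd1, hB]
  obtain ⟨X0, hX0⟩ : ∃ X0 : ℝ, X0 = Real.sqrt (Real.sqrt d * B) := ⟨_, rfl⟩
  have hX1 : 1 ≤ X0 := by rw [hX0, Real.one_le_sqrt]; exact hsB
  have hX2 : X0 ^ 2 = Real.sqrt d * B := by
    rw [hX0, Real.sq_sqrt (by linarith only [hsB])]
  have hX0ne : (X0 : ℂ) ≠ 0 := by
    have : X0 ≠ 0 := by linarith only [hX1]
    exact_mod_cast this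
  have hH3 : (3 : ℝ) ≤ H := by exact_mod_cast hH
  obtain ⟨Af, Rm, W0, G0, h1, h2, h3, h4, h5, h6⟩ := hn0 n hn (fun i => i.elim0)
    (fun i => i.elim0) (fun ρ j => (X0 : ℂ) * x ρ j) (fun ρ p => y ρ p / (X0 : ℂ)) X0 hX1
    (by rw [hX2]; exact hBn) (fun i => i.elim0) (fun i => i.elim0)
    (by
      intro ρ j
      rw [norm_mul, Complex.norm_real, Real.norm_eq_abs, abs_of_nonneg (by linarith only [hX1])]
      have := hx ρ j
      nlinarith only [this, hX1])
    (by
      intro ρ p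
      rw [norm_div, Complex.norm_real, Real.norm_eq_abs, abs_of_nonneg (by linarith only [hX1]),
        div_le_iff₀ (by linarith only [hX1])]
      refine (hy ρ p).trans ?_
      rw [← hX2, pow_two])
    F φ hF (fun i => i.elim0) (fun i => i.elim0) (fun j p => v (j, p)) 1 dd 1 ((H : ℝ) + 1)
    one_pos hdd0 le_rfl (by linarith only [hH3])
    (by
      rw [Nat.cast_one, one_mul]
      apply Real.one_le_exp
      positivity)
    (by
      refine le_trans ?_ hHn
      have k1 : (H : ℝ) + 1 ≤ (H : ℝ) ^ 2 := by nlinarith only [hH3]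
      have k2 : (dd : ℝ) ≤ (H : ℝ) ^ (d * l) := by exact_mod_cast hddH
      rw [pow_add]
      exact mul_le_mul k2 k1 (by linarith only [hH3]) (by positivity))
    (fun i => i.elim0) (fun i => i.elim0) (fun j p => hddI (j, p))
    (fun τ => ⟨fun i => i.elim0, fun i => i.elim0, fun j p => hddn (j, p) τ⟩)
    (fun j p h => by
      have h7 := hv (j, p)
      simp only at h7
      rw [h, map_zero] at h7
      exact Complex.exp_ne_zero _ h7.symm)
    (fun i => i.elim0) (fun i => i.elim0)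
    (by
      intro j p
      rw [hv]
      have e : ∑ ρ, (X0 : ℂ) * x ρ j * (y ρ p / (X0 : ℂ)) = N j p := by
        rw [← hxy]
        apply Finset.sum_congr rfl
        intro ρ _
        field_simp
      rw [e, Finset.univ_eq_empty, Finset.sum_empty, add_zero]
      exact herr j p)
  have hAf : finrank ℂ Af = 0 := by
    have := Submodule.finrank_le Af
    rw [Module.finrank_fintype_fun_eq_card, Fintype.card_fin] at this
    omega
  refine ⟨Rm, G0, h2, h3, ?_, ?_⟩
  · rw [hAf, zero_mul, zero_add] at h6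
    have h7 : (l - finrank ℤ G0) * (d * ν) < finrank ℤ Rm * (l * ν) := by
      have : (l - finrank ℤ G0) * (d * ν) ≤ (0 - finrank ℂ W0) * 0 +
        (l - finrank ℤ G0) * (d * ν) := Nat.le_add_left _ _
      omega
    have h8 : (l - finrank ℤ G0) * d < finrank ℤ Rm * l := by
      by_contra hcon
      have h9 := Nat.mul_le_mul_right ν (not_lt.mp hcon)
      rw [mul_assoc, mul_assoc] at h9
      omega
    obtain ⟨g, hg⟩ : ∃ g, g = finrank ℤ G0 := ⟨_, rfl⟩
    rw [← hg] at h8 ⊢
    have h10 : l ≤ (l - g) + g := by omega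
    calc d * l = l * d := mul_comm _ _
      _ ≤ ((l - g) + g) * d := Nat.mul_le_mul_right _ h10
      _ = (l - g) * d + g * d := by ring
      _ < _ := by omega
  · intro m hm s hs
    have h7 := (h5 s hs).2 m hm
    have h8 : ∀ j, (∏ p, φ (v (j, p)) ^ s p) ^ m j =
        Complex.exp (∑ p, (m j : ℂ) * M j p * s p) := by
      intro j
      have h9 : ∀ p, φ (v (j, p)) ^ s p = Complex.exp (s p * M j p) := by
        intro p
        rw [hv, Complex.exp_int_mul]
      simp only [h9]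
      rw [← Complex.exp_sum, ← Complex.exp_int_mul]
      congr 1
      rw [Finset.mul_sum]
      apply Finset.sum_congr rfl
      intro p _; ring
    simp only [h8] at h7
    rw [← Complex.exp_sum] at h7
    exact h7

end Pool.Agent.H70.QM
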