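import Mathlib
import Pool.Agent.H70.QM.LowR2
import Pool.Agent.H70.QM.Small

/-!
The effective theorem on matrices of logarithms which are close to a matrix of low rank.
-/

set_option autoImplicit false

namespace Pool.Agent.H70.QM

open Pool.Agent.H301R2.TR Pool.Agent.Y928.QN Pool.Agent.H70.QL Finset Pool.Agent.H335R2.Obs
open Module (finrank)

/-- the bilinear form attached to a matrix -/
noncomputable def bil {d l : ℕ} (M : Matrix (Fin d) (Fin l) ℂ) (w : Fin d → ℤ) (v : Fin l → ℤ) :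
    ℂ := ∑ i, ∑ j, (w i : ℂ) * M i j * v j

theorem bil_transpose {d l : ℕ} (M : Matrix (Fin d) (Fin l) ℂ) (w : Fin d → ℤ) (v : Fin l → ℤ) :
    bil M.transpose v w = bil M w v := by
  unfold bil
  rw [Finset.sum_comm]
  apply Finset.sum_congr rfl
  intro i _
  apply Finset.sum_congr rfl
  intro j _
  rw [Matrix.transpose_apply]; ring

theorem bil_comb {d l : ℕ} (M : Matrix (Fin d) (Fin l) ℂ) (w : Fin d → ℤ) (v v' : Fin l → ℤ)
    (a b : ℤ) : bil M w (fun j => a * v j - b * v' j) = a * bil M w v - b * bil M w v' := by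
  unfold bil
  rw [Finset.mul_sum, Finset.mul_sum, ← Finset.sum_sub_distrib]
  apply Finset.sum_congr rfl
  intro i _
  rw [Finset.mul_sum, Finset.mul_sum, ← Finset.sum_sub_distrib]
  apply Finset.sum_congr rfl
  intro j _
  push_cast; ring

theorem bil_norm {d l : ℕ} (M : Matrix (Fin d) (Fin l) ℂ) (w : Fin d → ℤ) (v : Fin l → ℤ)
    (S1 S2 T : ℝ) (h1 : ∀ i, |(w i : ℝ)| ≤ S1) (h2 : ∀ j, |(v j : ℝ)| ≤ S2)
    (hT : ∀ i j, ‖M i j‖ ≤ T) (hS1 : 0 ≤ S1) (hS2 : 0 ≤ S2) (hT0 : 0 ≤ T) :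
    ‖bil M w v‖ ≤ d * l * (S1 * T * S2) := by
  unfold bil
  calc ‖∑ i, ∑ j, (w i : ℂ) * M i j * v j‖ ≤ ∑ _i : Fin d, ∑ _j : Fin l, S1 * T * S2 := by
        refine (norm_sum_le _ _).trans (Finset.sum_le_sum fun i _ => ?_)
        refine (norm_sum_le _ _).trans (Finset.sum_le_sum fun j _ => ?_)
        rw [norm_mul, norm_mul, Complex.norm_intCast, Complex.norm_intCast]
        exact mul_le_mul (mul_le_mul (h1 i) (hT i j) (norm_nonneg _) hS1) (h2 j) (abs_nonneg _)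
          (by positivity)
    _ = _ := by simp; ring

/-- removing the multiple of `2 π i` -/
theorem exact_right {d l : ℕ} (M : Matrix (Fin d) (Fin l) ℂ) (w : Fin d → ℤ)
    (g1 g2 : Fin l → ℤ) (hind : ∀ a b : ℤ, (∀ j, a * g1 j - b * g2 j = 0) → a = 0 ∧ b = 0)
    (k1 k2 : ℤ) (h1 : bil M w g1 = k1 * (2 * Real.pi * Complex.I))
    (h2 : bil M w g2 = k2 * (2 * Real.pi * Complex.I)) (K S : ℝ) (hK : 1 ≤ K) (hS : 0 ≤ S)
    (hk1 : |(k1 : ℝ)| ≤ K) (hk2 : |(k2 : ℝ)| ≤ K) (hg1 : ∀ j, |(g1 j : ℝ)| ≤ S)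
    (hg2 : ∀ j, |(g2 j : ℝ)| ≤ S) :
    ∃ v : Fin l → ℤ, v ≠ 0 ∧ bil M w v = 0 ∧ ∀ j, |(v j : ℝ)| ≤ 2 * K * S := by
  by_cases hk : k1 = 0
  · refine ⟨g1, ?_, ?_, ?_⟩
    · intro h
      have := (hind 1 0 (fun j => by rw [h]; simp)).1
      exact one_ne_zero this
    · rw [h1, hk]; simp
    · intro j
      refine (hg1 j).trans ?_
      nlinarith only [hK, hS]
  · refine ⟨fun j => k2 * g1 j - k1 * g2 j, ?_, ?_, ?_⟩
    · intro h
      exact hk (hind k2 k1 (fun j => congrFun h j)).2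
    · rw [bil_comb, h1, h2]; ring
    · intro j
      push_cast
      calc |(k2 : ℝ) * g1 j - k1 * g2 j| ≤ |(k2 : ℝ) * g1 j| + |(k1 : ℝ) * g2 j| := abs_sub _ _
        _ = |(k2 : ℝ)| * |(g1 j : ℝ)| + |(k1 : ℝ)| * |(g2 j : ℝ)| := by rw [abs_mul, abs_mul]
        _ ≤ K * S + K * S := add_le_add
          (mul_le_mul hk2 (hg1 j) (abs_nonneg _) (by linarith only [hK]))
          (mul_le_mul hk1 (hg2 j) (abs_nonneg _) (by linarith only [hK]))
        _ = _ := by ring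

theorem pair_ind {m : ℕ} {ι : Type} (f : ι → (Fin m → ℤ)) (hf : LinearIndependent ℤ f)
    (i j : ι) (hij : i ≠ j) (a b : ℤ) (h : ∀ t, a * f i t - b * f j t = 0) : a = 0 ∧ b = 0 := by
  have h1 : LinearIndependent ℤ (fun t : Fin 2 => f (if t = 0 then i else j)) := by
    apply hf.comp
    intro s t hst
    fin_cases s <;> fin_cases t <;> simp_all
  rw [Fintype.linearIndependent_iff] at h1
  have h2 := h1 (fun t => if t = 0 then a else -b) (by
    funext t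
    rw [Fin.sum_univ_two]
    have := h t
    simp only [Pi.add_apply, Pi.smul_apply, smul_eq_mul, if_true, Pi.zero_apply,
      Fin.one_eq_zero_iff]
    norm_num
    linarith)
  have h3 := h2 0
  have h4 := h2 1
  simp at h3 h4
  exact ⟨h3, h4⟩

theorem algHt_norm_le {D H : ℕ} {x : ℂ} (h : AlgHt D H x) : ‖x‖ ≤ H + 1 := by
  obtain ⟨F, _, _, φ, -, hv⟩ := exists_fieldN (ι := Unit) (fun _ => x) (fun _ => h)
  obtain ⟨v, hv⟩ := hv ()
  obtain ⟨d, -, -, -, hd⟩ := h.lift φ v hv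
  rw [← hv]
  exact hd φ

end Pool.Agent.H70.QM
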