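import Mathlib
import Pool.Agent.H70.QM.LowR3

/-!
The effective theorem on matrices of logarithms which are close to a matrix of low rank.
-/

set_option autoImplicit false

namespace Pool.Agent.H70.QM

open Pool.Agent.H301R2.TR Pool.Agent.Y928.QN Pool.Agent.H70.QL Finset Pool.Agent.H335R2.Obs
open Module (finrank)

/-- the sizes: pure inequalities between the exponents -/
theorem exponents (d l r : ℕ) (hr : r * (d + l) < d * l) (τ : ℝ) (hτ : 0 < τ) :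
    ∃ h ν : ℕ, 1 ≤ h ∧ 1 ≤ ν ∧ (h + 1) * r + 1 + ν * (r * (d + l)) ≤ ν * (d * l) ∧
      ((l * ν : ℕ) : ℝ) ≤ (l * r / ((d * l : ℝ) - r * (d + l)) + τ) * h ∧
      ((d * ν + 1 : ℕ) : ℝ) ≤ (d * r / ((d * l : ℝ) - r * (d + l)) + τ) * h ∧
      (((d + l) * ν + h + 1 : ℕ) : ℝ) ≤ (d * l / ((d * l : ℝ) - r * (d + l)) + τ) * h := by
  obtain ⟨Δ, hΔ⟩ : ∃ Δ : ℕ, d * l = Δ + r * (d + l) := ⟨d * l - r * (d + l), by omega⟩
  have hΔ1 : 1 ≤ Δ := by omega
  have hΔR : (d * l : ℝ) - r * (d + l) = Δ := by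
    have : ((d * l : ℕ) : ℝ) = ((Δ + r * (d + l) : ℕ) : ℝ) := by rw [hΔ]
    push_cast at this
    linarith
  have hΔ0 : (1 : ℝ) ≤ Δ := by exact_mod_cast hΔ1
  rw [hΔR]
  obtain ⟨h, hh1, hh⟩ : ∃ h : ℕ, 1 ≤ h ∧ ((d + l) * (r + 2) + 1 : ℝ) ≤ τ * h := by
    refine ⟨⌈((d + l) * (r + 2) + 1 : ℝ) / τ⌉₊ + 1, by omega, ?_⟩
    have := Nat.le_ceil (((d + l) * (r + 2) + 1 : ℝ) / τ)
    rw [div_le_iff₀ hτ] at this
    push_cast
    nlinarith only [this, hτ]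
  obtain ⟨q, hq⟩ : ∃ q : ℕ, q = ((h + 1) * r + 1) / Δ := ⟨_, rfl⟩
  have hq1 : (h + 1) * r + 1 ≤ (q + 1) * Δ := by
    have h1 := Nat.div_add_mod ((h + 1) * r + 1) Δ
    have h2 := Nat.mod_lt ((h + 1) * r + 1) hΔ1
    rw [← hq] at h1
    nlinarith only [h1, h2]
  have hq2 : (q : ℝ) * Δ ≤ (h + 1) * r + 1 := by
    have h1 := Nat.div_mul_le_self ((h + 1) * r + 1) Δ
    rw [← hq] at h1
    exact_mod_cast h1
  have hq3 : (q : ℝ) ≤ r / Δ * h + (r + 1) := by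
    have h1 : (q : ℝ) ≤ ((h + 1) * r + 1) / Δ := by rw [le_div_iff₀ (by linarith)]; exact hq2
    have h2 : ((h + 1) * r + 1 : ℝ) / Δ = r / Δ * h + (r + 1) / Δ := by field_simp; ring
    have h3 : ((r : ℝ) + 1) / Δ ≤ r + 1 := div_le_self (by positivity) hΔ0
    linarith
  have hd0 : (0 : ℝ) ≤ d := Nat.cast_nonneg _
  have hl0 : (0 : ℝ) ≤ l := Nat.cast_nonneg _
  have hr0 : (0 : ℝ) ≤ r := Nat.cast_nonneg _
  have hdr : (0 : ℝ) ≤ (d : ℝ) * (r + 2) := by positivity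
  have hlr : (0 : ℝ) ≤ (l : ℝ) * (r + 2) := by positivity
  have e1 : (l : ℝ) * (q + 1) ≤ l * r / Δ * h + l * (r + 2) := by
    have h1 := mul_le_mul_of_nonneg_left hq3 hl0
    have h2 : (l : ℝ) * (r / Δ * h + (r + 1)) = l * r / Δ * h + l * (r + 1) := by ring
    linarith
  have e2 : (d : ℝ) * (q + 1) ≤ d * r / Δ * h + d * (r + 2) := by
    have h1 := mul_le_mul_of_nonneg_left hq3 hd0
    have h2 : (d : ℝ) * (r / Δ * h + (r + 1)) = d * r / Δ * h + d * (r + 1) := by ring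
    linarith
  refine ⟨h, q + 1, hh1, by omega, ?_, ?_, ?_, ?_⟩
  · rw [hΔ]
    nlinarith only [hq1]
  · push_cast
    have : (l * r / Δ + τ : ℝ) * h = l * r / Δ * h + τ * h := by ring
    rw [this]
    linarith
  · push_cast
    have : (d * r / Δ + τ : ℝ) * h = d * r / Δ * h + τ * h := by ring
    rw [this]
    linarith
  · push_cast
    have h1 : (d * l / Δ + τ : ℝ) * h = d * r / Δ * h + l * r / Δ * h + h + τ * h := by
      have : (d * l : ℝ) = Δ + r * (d + l) := by linarith only [hΔR]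
      rw [this]; field_simp; ring
    rw [h1]
    linarith

theorem exp_gt (C L α : ℝ) (hL : 1 ≤ L) (hα : 1 ≤ α) (hC : 0 ≤ C) :
    C * L < Real.exp (C * L ^ α) := by
  have h1 : L ≤ L ^ α := by
    calc L = L ^ (1 : ℝ) := (Real.rpow_one L).symm
      _ ≤ _ := Real.rpow_le_rpow_of_exponent_le hL hα
  have h2 := Real.add_one_le_exp (C * L ^ α)
  nlinarith only [h1, h2, hC]

/-- the error in terms of `n` -/
theorem err_bound (H K n m : ℕ) (hH : 3 ≤ H) (C P L α : ℝ) (hL : L = Real.log H) (hα : 1 ≤ α)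
    (hn : (n : ℝ) ^ m ≤ P * L ^ α) (hC : 3 + 2 * P ≤ C) (hP : 0 ≤ P) :
    ((H : ℝ) + 1) * (2 * Real.exp (-(C * L ^ α))) ≤ (1 / 4 : ℝ) ^ (n ^ m) := by
  have hHpos : (0 : ℝ) < H := by
    have : 0 < H := by omega
    exact_mod_cast this
  have hH3 : (3 : ℝ) ≤ H := by exact_mod_cast hH
  have hL1 : 1 ≤ L := by
    rw [hL, ← Real.log_exp 1]
    apply Real.log_le_log (Real.exp_pos 1)
    have := Real.exp_one_lt_d9
    linarith
  have hLα : L ≤ L ^ α := by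
    calc L = L ^ (1 : ℝ) := (Real.rpow_one L).symm
      _ ≤ _ := Real.rpow_le_rpow_of_exponent_le hL1 hα
  have e1 : (1 / 4 : ℝ) ^ (n ^ m) = Real.exp (-(Real.log 4 * (n : ℝ) ^ m)) := by
    have e2 : ((n : ℝ) ^ m) = ((n ^ m : ℕ) : ℝ) := by push_cast; rfl
    rw [Real.exp_neg, e2, mul_comm (Real.log 4), Real.exp_nat_mul, Real.exp_log (by norm_num),
      one_div, inv_pow]
  have h4 : Real.log 4 ≤ 2 := by
    have h1 : Real.log 4 = 2 * Real.log 2 := by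
      rw [show (4 : ℝ) = 2 ^ 2 by norm_num, Real.log_pow]; norm_num
    have h2 := Real.log_two_lt_d9
    rw [h1]; linarith
  have h5 : 2 * ((H : ℝ) + 1) ≤ Real.exp (3 * L) := by
    have h6 : Real.exp (3 * L) = (H : ℝ) ^ 3 := by
      rw [hL, show (3 : ℝ) * Real.log H = ((3 : ℕ) : ℝ) * Real.log H by norm_num,
        Real.exp_nat_mul, Real.exp_log hHpos]
    rw [h6]
    nlinarith only [hH3, mul_nonneg hHpos.le hHpos.le, sq_nonneg ((H : ℝ) - 3)]
  have h0 : (0 : ℝ) ≤ (n : ℝ) ^ m := by positivity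
  rw [e1]
  calc ((H : ℝ) + 1) * (2 * Real.exp (-(C * L ^ α)))
      = (2 * ((H : ℝ) + 1)) * Real.exp (-(C * L ^ α)) := by ring
    _ ≤ Real.exp (3 * L) * Real.exp (-(C * L ^ α)) :=
        mul_le_mul_of_nonneg_right h5 (Real.exp_pos _).le
    _ = Real.exp (3 * L - C * L ^ α) := by rw [← Real.exp_add]; congr 1
    _ ≤ _ := by
      apply Real.exp_le_exp.mpr
      have k1 : Real.log 4 * (n : ℝ) ^ m ≤ 2 * (P * L ^ α) :=
        mul_le_mul h4 hn h0 (by norm_num)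
      have k2 : (3 + 2 * P) * L ^ α ≤ C * L ^ α :=
        mul_le_mul_of_nonneg_right hC (by linarith)
      nlinarith only [k1, k2, hLα]

end Pool.Agent.H70.QM
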