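import Mathlib
import Pool.Agent.H70.QM.LowR4

/-!
The effective theorem on matrices of logarithms which are close to a matrix of low rank.
-/

set_option autoImplicit false

namespace Pool.Agent.H70.QM

open Pool.Agent.H301R2.TR Pool.Agent.Y928.QN Pool.Agent.H70.QL Finset Pool.Agent.H335R2.Obs
open Module (finrank)

theorem lowMain (d l r : ℕ) (hr : r * (d + l) < d * l) (D : ℕ) (B τ : ℝ) (hτ : 0 < τ) :
    ∃ C : ℝ, 0 < C ∧ ∀ H : ℕ, 3 ≤ H → ∀ M N : Matrix (Fin d) (Fin l) ℂ,
    (∀ i j, AlgHt D H (Complex.exp (M i j)) ∧ ‖M i j‖ ≤ B * Real.log H) →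
    N.rank ≤ r →
    (∀ i j, ‖M i j - N i j‖ ≤
      Real.exp (-(C * Real.log H ^ (d * l / ((d * l : ℝ) - r * (d + l)) + τ)))) →
    (∃ a b : ℕ, d * l < a * l + b * d ∧ ∃ (w : Fin a → Fin d → ℤ) (v : Fin b → Fin l → ℤ),
      LinearIndependent ℤ w ∧ LinearIndependent ℤ v ∧
      (∀ p i, |(w p i : ℝ)| ≤ C * Real.log H ^ (l * r / ((d * l : ℝ) - r * (d + l)) + τ)) ∧
      (∀ q j, |(v q j : ℝ)| ≤ C * Real.log H ^ (d * r / ((d * l : ℝ) - r * (d + l)) + τ)) ∧
      (∀ p q, ∃ k : ℤ, bil M (w p) (v q) = k * (2 * Real.pi * Complex.I)) ∧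
      ((∀ i j, (M i j).im = 0) → ∀ p q, bil M (w p) (v q) = 0)) ∧
    ∃ (w : Fin d → ℤ) (v : Fin l → ℤ), w ≠ 0 ∧ v ≠ 0 ∧
      (∀ i, |(w i : ℝ)| ≤ C * Real.log H ^ (2 * (d * l) / ((d * l : ℝ) - r * (d + l)))) ∧
      (∀ j, |(v j : ℝ)| ≤ C * Real.log H ^ (2 * (d * l) / ((d * l : ℝ) - r * (d + l)))) ∧
      bil M w v = 0 := by
  classical
  -- preliminaries on the exponents
  obtain ⟨Δ, hΔ⟩ : ∃ Δ : ℕ, d * l = Δ + r * (d + l) := ⟨d * l - r * (d + l), by omega⟩
  have hΔ1 : 1 ≤ Δ := by omega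
  have hΔR : (d * l : ℝ) - r * (d + l) = Δ := by
    have : ((d * l : ℕ) : ℝ) = ((Δ + r * (d + l) : ℕ) : ℝ) := by rw [hΔ]
    push_cast at this
    linarith
  have hΔ0 : (1 : ℝ) ≤ Δ := by exact_mod_cast hΔ1
  have hdl0 : 0 < d * l := by omega
  have hd1 : 1 ≤ d := Nat.pos_of_mul_pos_right hdl0 |> fun h => h
  have hl1 : 1 ≤ l := Nat.pos_of_mul_pos_left hdl0 |> fun h => h
  obtain ⟨τ', hτ'⟩ : ∃ τ' : ℝ, τ' = min τ (1 / 3) := ⟨_, rfl⟩
  have hτ'0 : 0 < τ' := by rw [hτ']; exact lt_min hτ (by norm_num)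
  have hτ'1 : τ' ≤ τ := by rw [hτ']; exact min_le_left _ _
  have hτ'3 : τ' ≤ 1 / 3 := by rw [hτ']; exact min_le_right _ _
  obtain ⟨h, ν, hh, hν1, hν, hm1, hm2, hm3⟩ := exponents d l r hr τ' hτ'0
  rw [hΔR] at hm1 hm2 hm3
  rw [hΔR]
  obtain ⟨η, hη, n0, hcore⟩ := lowCore d l r h D ν hd1 hl1 hν1 hν hh
  obtain ⟨B', hB'⟩ : ∃ B' : ℝ, B' = max B 1 := ⟨_, rfl⟩
  have hB'1 : 1 ≤ B' := by rw [hB']; exact le_max_right _ _
  have hBB' : B ≤ B' := by rw [hB']; exact le_max_left _ _
  have hsd : 0 ≤ Real.sqrt d := Real.sqrt_nonneg _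
  obtain ⟨P, hP1, hchoose⟩ := choose_n h hh ((d * l + 2 : ℝ) / η + 2 * Real.sqrt d * B')
    (by positivity) n0
  obtain ⟨α1, hα1⟩ : ∃ α1 : ℝ, α1 = (l * r / Δ : ℝ) := ⟨_, rfl⟩
  obtain ⟨α2, hα2⟩ : ∃ α2 : ℝ, α2 = (d * r / Δ : ℝ) := ⟨_, rfl⟩
  obtain ⟨α3, hα3⟩ : ∃ α3 : ℝ, α3 = (d * l / Δ : ℝ) := ⟨_, rfl⟩
  have hα4 : (2 * (d * l) / Δ : ℝ) = 2 * α3 := by rw [hα3]; ring
  rw [hα4, ← hα1, ← hα2, ← hα3]
  rw [← hα1] at hm1
  rw [← hα2] at hm2
  rw [← hα3] at hm3
  have hd0 : (1 : ℝ) ≤ d := by exact_mod_cast hd1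
  have hl0 : (1 : ℝ) ≤ l := by exact_mod_cast hl1
  have hr0 : (0 : ℝ) ≤ r := Nat.cast_nonneg _
  have hsum : α3 = α1 + α2 + 1 := by
    have : (d * l : ℝ) = Δ + r * (d + l) := by linarith only [hΔR]
    rw [hα3, hα1, hα2, this]; field_simp; ring
  have hα10 : 0 ≤ α1 := by rw [hα1]; positivity
  have hα20 : 0 ≤ α2 := by rw [hα2]; positivity
  have hα31 : 1 ≤ α3 := by linarith only [hsum, hα10, hα20]
  obtain ⟨m1, hm1'⟩ : ∃ m1 : ℕ, m1 = l * ν := ⟨_, rfl⟩
  obtain ⟨m2, hm2'⟩ : ∃ m2 : ℕ, m2 = d * ν + 1 := ⟨_, rfl⟩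
  obtain ⟨m3, hm3'⟩ : ∃ m3 : ℕ, m3 = (d + l) * ν + h + 1 := ⟨_, rfl⟩
  rw [← hm1'] at hm1
  rw [← hm2'] at hm2
  rw [← hm3'] at hm3
  obtain ⟨Q, hQ⟩ : ∃ Q : ℝ, Q = P ^ (2 * (m1 + m2) + m3) := ⟨_, rfl⟩
  have hPQ : ∀ m : ℕ, m ≤ 2 * (m1 + m2) + m3 → P ^ m ≤ Q := by
    intro m hm
    rw [hQ]; exact pow_le_pow_right₀ hP1 hm
  have hQ1 : 1 ≤ Q := by rw [hQ]; exact one_le_pow₀ hP1
  obtain ⟨C, hC⟩ : ∃ C : ℝ, C = 3 + 2 * Q + 4 * (d * l) * B' * Q := ⟨_, rfl⟩
  have hCQ : 3 + 2 * Q ≤ C := by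
    rw [hC]
    have : (0 : ℝ) ≤ 4 * (d * l) * B' * Q := by positivity
    linarith
  have hCpos : 0 < C := by linarith
  have hQC : Q ≤ C := by linarith
  have hCK : 4 * (d * l) * B' * Q ≤ C := by rw [hC]; linarith
  refine ⟨C, hCpos, ?_⟩
  intro H hH M N hM hrank hMN
  obtain ⟨L, hL⟩ : ∃ L : ℝ, L = Real.log H := ⟨_, rfl⟩
  rw [← hL] at hMN ⊢
  simp only [← hL] at hM
  have hHpos : (0 : ℝ) < H := by
    have : 0 < H := by omega
    exact_mod_cast this
  have hH3 : (3 : ℝ) ≤ H := by exact_mod_cast hH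
  have hL1 : 1 ≤ L := by
    rw [hL, ← Real.log_exp 1]
    apply Real.log_le_log (Real.exp_pos 1)
    have := Real.exp_one_lt_d9
    linarith
  have hL0 : 0 ≤ L := by linarith
  have hrmono : ∀ α β : ℝ, α ≤ β → L ^ α ≤ L ^ β := fun α β hab =>
    Real.rpow_le_rpow_of_exponent_le hL1 hab
  obtain ⟨n, hn0, hn1, hnc, hnm⟩ := hchoose L hL1
  obtain ⟨δ, hδ⟩ : ∃ δ : ℝ, δ = Real.exp (-(C * L ^ (α3 + τ))) := ⟨_, rfl⟩
  rw [← hδ] at hMN
  have hexp : C * L < Real.exp (C * L ^ (α3 + τ)) :=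
    exp_gt C L (α3 + τ) hL1 (by linarith only [hα31, hτ]) hCpos.le
  have hδCL : C * L * δ < 1 := by
    rw [hδ, Real.exp_neg]
    rw [← div_eq_mul_inv, div_lt_one (Real.exp_pos _)]
    exact hexp
  have hδ0 : 0 < δ := by rw [hδ]; exact Real.exp_pos _
  have hδ1 : δ ≤ 1 := by
    have h1 : (1 : ℝ) ≤ C * L := one_le_mul_of_one_le_of_one_le (by linarith) hL1
    nlinarith only [h1, hδCL, hδ0]
  have hnm1 := hnm m1 (α1 + τ') hm1
  have hnm2 := hnm m2 (α2 + τ') hm2
  have hnm3 := hnm m3 (α3 + τ') hm3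
  -- apply the core
  have hNB : ∀ i j, ‖N i j‖ ≤ 2 * B' * L := by
    intro i j
    have h1 : ‖N i j‖ ≤ ‖M i j‖ + ‖M i j - N i j‖ := by
      have : N i j = M i j - (M i j - N i j) := by ring
      calc ‖N i j‖ = ‖M i j - (M i j - N i j)‖ := by rw [← this]
        _ ≤ _ := norm_sub_le _ _
    have h2 := (hM i j).2
    have h3 := hMN i j
    nlinarith only [h1, h2, h3, hδ1, hL1, hB'1, hBB', mul_nonneg (sub_nonneg.mpr hBB') hL0,
      mul_nonneg (sub_nonneg.mpr hB'1) hL0]
  obtain ⟨R, G, hR, hG, hcount, hrel⟩ := hcore n hn0 H hH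
    (by
      have e2 : (H : ℝ) ^ (d * l + 2) = Real.exp (((d * l + 2 : ℕ) : ℝ) * L) := by
        rw [Real.exp_nat_mul, hL, Real.exp_log hHpos]
      rw [e2]
      apply Real.exp_le_exp.mpr
      have h1 : (d * l + 2 : ℝ) / η * L ≤ (n : ℝ) ^ h := by
        refine le_trans ?_ hnc
        apply mul_le_mul_of_nonneg_right _ hL0
        have : 0 ≤ 2 * Real.sqrt d * B' := by positivity
        linarith
      calc (((d * l + 2 : ℕ) : ℝ)) * L = η * ((d * l + 2 : ℝ) / η * L) := by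
            push_cast; field_simp
        _ ≤ η * (n : ℝ) ^ h := mul_le_mul_of_nonneg_left h1 hη.le)
    M N (2 * B' * L) (by nlinarith only [hB'1, hL1])
    (by
      refine le_trans ?_ hnc
      have h1 : 0 ≤ (d * l + 2 : ℝ) / η * L := by positivity
      calc Real.sqrt d * (2 * B' * L) = (2 * Real.sqrt d * B') * L := by ring
        _ ≤ _ := by
          apply mul_le_mul_of_nonneg_right _ hL0
          have : 0 ≤ (d * l + 2 : ℝ) / η := by positivity
          linarith)
    hNB (fun i j => (hM i j).1) hrank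
    (by
      intro i j
      refine (exp_close (M i j) (N i j) ((H : ℝ) + 1) δ (algHt_norm_le (hM i j).1) (hMN i j)
        hδ1).trans ?_
      rw [hδ, ← hm3']
      refine err_bound H 0 n m3 hH C Q L (α3 + τ) hL (by linarith only [hα31, hτ]) ?_ hCQ
        (by linarith only [hQ1])
      refine hnm3.trans ?_
      exact mul_le_mul (hPQ m3 (by omega)) (hrmono _ _ (by linarith only [hτ'1]))
        (by positivity) (by linarith only [hQ1]))
  rw [← hm1'] at hR
  rw [← hm2'] at hG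
  obtain ⟨f, hf1, hf2, -⟩ := exists_small_basis (n ^ m1) R hR
  obtain ⟨g, hg1, hg2, -⟩ := exists_small_basis (n ^ m2) G hG
  obtain ⟨S1, hS1⟩ : ∃ S1 : ℝ, S1 = P ^ m1 * L ^ (α1 + τ') := ⟨_, rfl⟩
  obtain ⟨S2, hS2⟩ : ∃ S2 : ℝ, S2 = P ^ m2 * L ^ (α2 + τ') := ⟨_, rfl⟩
  have hfS : ∀ p i, |(f p i : ℝ)| ≤ S1 := by
    intro p i
    have h1 : |(f p i : ℝ)| ≤ ((n ^ m1 : ℕ) : ℝ) := by exact_mod_cast (hf1 p).2 i
    push_cast at h1
    rw [hS1]; exact h1.trans hnm1
  have hgS : ∀ q j, |(g q j : ℝ)| ≤ S2 := by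
    intro q j
    have h1 : |(g q j : ℝ)| ≤ ((n ^ m2 : ℕ) : ℝ) := by exact_mod_cast (hg1 q).2 j
    push_cast at h1
    rw [hS2]; exact h1.trans hnm2
  have hper : ∀ p q, ∃ k : ℤ, bil M (f p) (g q) = k * (2 * Real.pi * Complex.I) := by
    intro p q
    exact Complex.exp_eq_one_iff.mp (hrel (f p) (hf1 p).1 (g q) (hg1 q).1)
  have hP0 : 0 ≤ P := by linarith only [hP1]
  have hS10 : 0 ≤ S1 := by rw [hS1]; positivity
  have hS20 : 0 ≤ S2 := by rw [hS2]; positivity
  have hLt : ∀ α : ℝ, 0 ≤ α → 1 ≤ L ^ α := fun α hα => Real.one_le_rpow hL1 hα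
  have hS11 : 1 ≤ S1 := by
    rw [hS1]
    exact one_le_mul_of_one_le_of_one_le (one_le_pow₀ hP1) (hLt _ (by linarith))
  have hS21 : 1 ≤ S2 := by
    rw [hS2]
    exact one_le_mul_of_one_le_of_one_le (one_le_pow₀ hP1) (hLt _ (by linarith))
  constructor
  · refine ⟨finrank ℤ R, finrank ℤ G, hcount, f, g, hf2, hg2, ?_, ?_, hper, ?_⟩
    · intro p i
      refine (hfS p i).trans ?_
      rw [hS1]
      exact mul_le_mul ((hPQ m1 (by omega)).trans hQC) (hrmono _ _ (by linarith only [hτ'1]))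
        (by positivity) hCpos.le
    · intro q j
      refine (hgS q j).trans ?_
      rw [hS2]
      exact mul_le_mul ((hPQ m2 (by omega)).trans hQC) (hrmono _ _ (by linarith only [hτ'1]))
        (by positivity) hCpos.le
    · intro hreal p q
      obtain ⟨k, hk⟩ := hper p q
      have him : (bil M (f p) (g q)).im = 0 := by
        unfold bil
        rw [Complex.im_sum]
        apply Finset.sum_eq_zero
        intro i _
        rw [Complex.im_sum]
        apply Finset.sum_eq_zero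
        intro j _
        simp [Complex.mul_im, hreal i j]
      rw [hk] at him
      have h1 : ((k : ℂ) * (2 * Real.pi * Complex.I)).im = k * (2 * Real.pi) := by
        simp [Complex.mul_im]
      rw [h1] at him
      have h2 : (k : ℝ) = 0 := by
        rcases mul_eq_zero.mp him with h | h
        · exact h
        · exfalso
          have := Real.pi_pos
          linarith
      have h3 : k = 0 := by exact_mod_cast h2
      rw [hk, h3]; simp
  · -- an exact relation
    have hRd : finrank ℤ R ≤ d := by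
      have h1 := finrank_kSpan ℂ R
      rw [← h1]
      have := Submodule.finrank_le (kSpan ℂ R)
      rwa [Module.finrank_fintype_fun_eq_card, Fintype.card_fin] at this
    have hGl : finrank ℤ G ≤ l := by
      have h1 := finrank_kSpan ℂ G
      rw [← h1]
      have := Submodule.finrank_le (kSpan ℂ G)
      rwa [Module.finrank_fintype_fun_eq_card, Fintype.card_fin] at this
    obtain ⟨a, ha⟩ : ∃ a, a = finrank ℤ R := ⟨_, rfl⟩
    obtain ⟨b, hb⟩ : ∃ b, b = finrank ℤ G := ⟨_, rfl⟩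
    rw [← ha, ← hb] at hcount
    rw [← ha] at hRd
    rw [← hb] at hGl
    have ha1 : 1 ≤ a := by
      rcases Nat.eq_zero_or_pos a with h | h
      · exfalso
        rw [h, zero_mul, zero_add] at hcount
        have := Nat.mul_le_mul_right d hGl
        have e : l * d = d * l := mul_comm _ _
        omega
      · exact h
    have hb1 : 1 ≤ b := by
      rcases Nat.eq_zero_or_pos b with h | h
      · exfalso
        rw [h, zero_mul, add_zero] at hcount
        have := Nat.mul_le_mul_right l hRd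
        omega
      · exact h
    let p0 : Fin (finrank ℤ R) := ⟨0, by omega⟩
    let q0 : Fin (finrank ℤ G) := ⟨0, by omega⟩
    obtain ⟨T, hT⟩ : ∃ T : ℝ, T = B' * L := ⟨_, rfl⟩
    have hMT : ∀ i j, ‖M i j‖ ≤ T := by
      intro i j
      refine (hM i j).2.trans ?_
      rw [hT]
      exact mul_le_mul_of_nonneg_right hBB' hL0
    have hT1 : 1 ≤ T := by rw [hT]; exact one_le_mul_of_one_le_of_one_le hB'1 hL1
    obtain ⟨K, hK⟩ : ∃ K : ℝ, K = d * l * (S1 * T * S2) := ⟨_, rfl⟩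
    have hdl1 : (1 : ℝ) ≤ d * l := one_le_mul_of_one_le_of_one_le hd0 hl0
    have hK1 : 1 ≤ K := by
      rw [hK]
      exact one_le_mul_of_one_le_of_one_le hdl1
        (one_le_mul_of_one_le_of_one_le (one_le_mul_of_one_le_of_one_le hS11 hT1) hS21)
    have hkK : ∀ p q (k : ℤ), bil M (f p) (g q) = k * (2 * Real.pi * Complex.I) →
        |(k : ℝ)| ≤ K := by
      intro p q k hk
      have h1 := bil_norm M (f p) (g q) S1 S2 T (hfS p) (hgS q) hMT hS10 hS20 (by linarith)
      rw [hk, norm_mul, Complex.norm_intCast, ← hK] at h1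
      have h2 : ‖(2 * (Real.pi : ℂ) * Complex.I)‖ = 2 * Real.pi := by
        rw [norm_mul, norm_mul, Complex.norm_I, Complex.norm_real, Real.norm_eq_abs,
          abs_of_pos Real.pi_pos]
        simp
      rw [h2] at h1
      have h3 := Real.pi_gt_three
      have h4 := abs_nonneg (k : ℝ)
      nlinarith only [h1, h3, h4]
    -- size bookkeeping
    have hα12 : α2 + 1 ≤ α3 ∧ α1 + 1 ≤ α3 := by constructor <;> linarith
    have hsize1 : S1 ≤ C * L ^ (2 * α3) := by
      rw [hS1]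
      exact mul_le_mul ((hPQ m1 (by omega)).trans hQC) (hrmono _ _ (by linarith))
        (by positivity) hCpos.le
    have hsize2 : S2 ≤ C * L ^ (2 * α3) := by
      rw [hS2]
      exact mul_le_mul ((hPQ m2 (by omega)).trans hQC) (hrmono _ _ (by linarith))
        (by positivity) hCpos.le
    have hLpos : 0 < L := by linarith
    have hrp : ∀ x y z : ℝ, L ^ (x + 1 + y + z) = L ^ x * L * L ^ y * L ^ z := by
      intro x y z
      rw [Real.rpow_add hLpos, Real.rpow_add hLpos, Real.rpow_add hLpos, Real.rpow_one]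
    have hsize3 : 2 * K * S2 ≤ C * L ^ (2 * α3) := by
      have e : 2 * K * S2 = (2 * (d * l) * B' * P ^ (m1 + m2 + m2)) *
          L ^ ((α1 + τ') + 1 + (α2 + τ') + (α2 + τ')) := by
        rw [hK, hS1, hS2, hT, hrp, pow_add, pow_add]
        ring
      rw [e]
      apply mul_le_mul _ (hrmono _ _ (by linarith)) (by positivity) hCpos.le
      calc (2 * (d * l) * B' * P ^ (m1 + m2 + m2)) ≤ 2 * (d * l) * B' * Q := by
            apply mul_le_mul_of_nonneg_left (hPQ _ (by omega)) (by positivity)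
        _ ≤ 4 * (d * l) * B' * Q := by
            have : 0 ≤ (d * l) * B' * Q := by positivity
            nlinarith only [this]
        _ ≤ C := hCK
    have hsize4 : 2 * K * S1 ≤ C * L ^ (2 * α3) := by
      have e : 2 * K * S1 = (2 * (d * l) * B' * P ^ (m1 + m1 + m2)) *
          L ^ ((α1 + τ') + 1 + (α1 + τ') + (α2 + τ')) := by
        rw [hK, hS1, hS2, hT, hrp, pow_add, pow_add]
        ring
      rw [e]
      apply mul_le_mul _ (hrmono _ _ (by linarith)) (by positivity) hCpos.le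
      calc (2 * (d * l) * B' * P ^ (m1 + m1 + m2)) ≤ 2 * (d * l) * B' * Q := by
            apply mul_le_mul_of_nonneg_left (hPQ _ (by omega)) (by positivity)
        _ ≤ 4 * (d * l) * B' * Q := by
            have : 0 ≤ (d * l) * B' * Q := by positivity
            nlinarith only [this]
        _ ≤ C := hCK
    have hne : ∀ (m t : ℕ) (F : Fin t → Fin m → ℤ), LinearIndependent ℤ F → ∀ i, F i ≠ 0 :=
      fun m t F hF i => hF.ne_zero i
    by_cases hb2 : 2 ≤ b
    · let q1 : Fin (finrank ℤ G) := ⟨1, by omega⟩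
      obtain ⟨k0, hk0⟩ := hper p0 q0
      obtain ⟨k1, hk1⟩ := hper p0 q1
      obtain ⟨v, hv0, hv1, hv2⟩ := exact_right M (f p0) (g q0) (g q1)
        (fun x y hxy => pair_ind g hg2 q0 q1 (by
          intro hqq
          have := congrArg Fin.val hqq
          simp [q0, q1] at this) x y hxy) k0 k1 hk0 hk1 K S2 hK1 hS20
        (hkK _ _ _ hk0) (hkK _ _ _ hk1) (hgS q0) (hgS q1)
      exact ⟨f p0, v, hne _ _ f hf2 p0, hv0, fun i => (hfS p0 i).trans hsize1,
        fun j => (hv2 j).trans hsize3, hv1⟩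
    · by_cases ha2 : 2 ≤ a
      · let p1 : Fin (finrank ℤ R) := ⟨1, by omega⟩
        obtain ⟨k0, hk0⟩ := hper p0 q0
        obtain ⟨k1, hk1⟩ := hper p1 q0
        obtain ⟨w, hw0, hw1, hw2⟩ := exact_right M.transpose (g q0) (f p0) (f p1)
          (fun x y hxy => pair_ind f hf2 p0 p1 (by
            intro hqq
            have := congrArg Fin.val hqq
            simp [p0, p1] at this) x y hxy) k0 k1 (by rw [bil_transpose]; exact hk0)
          (by rw [bil_transpose]; exact hk1) K S1 hK1 hS10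
          (hkK _ _ _ hk0) (hkK _ _ _ hk1) (hfS p0) (hfS p1)
        rw [bil_transpose] at hw1
        exact ⟨w, g q0, hw0, hne _ _ g hg2 q0, fun i => (hw2 i).trans hsize4,
          fun j => (hgS q0 j).trans hsize2, hw1⟩
      · -- both ranks are one, so that `r = 0`
        have ea : a = 1 := by omega
        have eb : b = 1 := by omega
        rw [ea, eb, one_mul, one_mul] at hcount
        have hr0' : r = 0 := by
          by_contra hcon
          have : 1 ≤ r := by omega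
          have := Nat.mul_le_mul_right (d + l) this
          omega
        have hN0 : N = 0 := by
          obtain ⟨x, y, -, -, hxy⟩ := factor_bounded N 0 (by omega) (2 * B' * L) hNB
            (by positivity)
          ext i j
          rw [← hxy]
          simp
        obtain ⟨k, hk⟩ := hper p0 q0
        have hMδ : ∀ i j, ‖M i j‖ ≤ δ := by
          intro i j
          have := hMN i j
          rwa [hN0, Matrix.zero_apply, sub_zero] at this
        have h1 := bil_norm M (f p0) (g q0) S1 S2 δ (hfS p0) (hgS q0) hMδ hS10 hS20 hδ0.le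
        rw [hk, norm_mul, Complex.norm_intCast] at h1
        have h2 : ‖(2 * (Real.pi : ℂ) * Complex.I)‖ = 2 * Real.pi := by
          rw [norm_mul, norm_mul, Complex.norm_I, Complex.norm_real, Real.norm_eq_abs,
            abs_of_pos Real.pi_pos]
          simp
        rw [h2] at h1
        have hα1z : α1 = 0 := by rw [hα1, hr0']; simp
        have hα2z : α2 = 0 := by rw [hα2, hr0']; simp
        have h3 : d * l * (S1 * δ * S2) < 1 := by
          have e : d * l * (S1 * δ * S2) = (d * l * P ^ (m1 + m2)) * L ^ (τ' + τ') * δ := by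
            rw [hS1, hS2, hα1z, hα2z, zero_add, Real.rpow_add hLpos, pow_add]; ring
          have k1 : L ^ (τ' + τ') ≤ L := by
            calc L ^ (τ' + τ') ≤ L ^ (1 : ℝ) := hrmono _ _ (by linarith)
              _ = L := Real.rpow_one L
          have k2 : (d * l * P ^ (m1 + m2)) ≤ C := by
            calc (d * l * P ^ (m1 + m2)) ≤ d * l * Q :=
                  mul_le_mul_of_nonneg_left (hPQ _ (by omega)) (by positivity)
              _ ≤ 4 * (d * l) * B' * Q := by
                have h5 : (0 : ℝ) ≤ (d * l) * Q := by positivity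
                nlinarith only [h5, mul_nonneg (sub_nonneg.mpr hB'1) h5]
              _ ≤ C := hCK
          calc d * l * (S1 * δ * S2) = (d * l * P ^ (m1 + m2)) * L ^ (τ' + τ') * δ := e
            _ ≤ C * L * δ := by
              apply mul_le_mul_of_nonneg_right _ hδ0.le
              exact mul_le_mul k2 k1 (by positivity) hCpos.le
            _ < 1 := hδCL
        have h4 : |(k : ℝ)| < 1 := by
          have h5 := Real.pi_gt_three
          have h6 := abs_nonneg (k : ℝ)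
          nlinarith only [h1, h3, h5, h6]
        have h7 : k = 0 := by
          have : |k| < 1 := by exact_mod_cast h4
          exact Int.abs_lt_one_iff.mp this
        exact ⟨f p0, g q0, hne _ _ f hf2 p0, hne _ _ g hg2 q0, fun i => (hfS p0 i).trans hsize1,
          fun j => (hgS q0 j).trans hsize2, by rw [hk, h7]; simp⟩

end Pool.Agent.H70.QM
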